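import Pool.Agent.D0H17.MW2.Gen
import Pool.Agent.D0H17.MW.Bad

set_option autoImplicit false

/-! The measure of the set of bad shifts at scale `P`, with the block size `s`. -/

namespace Pool.Agent.D0H17.MW2

open Finset MeasureTheory Pool.Agent.D0H17.MW

/-- the shifts of the unit cube for which at least `B` integers of the window are missed -/
def V0 (n m s P H B : ℕ) (𝒟 : Finset ℕ) : Set (Fin (m + 1) → ℝ) :=
  {θ | θ ∈ Set.Icc (0 : Fin (m + 1) → ℝ) 1 ∧ ∃ I : Finset ℕ, B ≤ I.card ∧ ∀ i ∈ I,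
    H * ((m + 1) * (2 * P) ^ (n + 2)) ≤ i + 2 * (H * P ^ (n + 2)) ∧
    i ≤ H * (s * (4 * P) ^ (n + 2)) ∧ rr (n + 2) P (4 * s * P) (m + 1) H 𝒟 θ i = 0}

lemma h5s_aux {m p : ℝ} (hm : 1 ≤ m) (hp : 1 ≤ p) : 4 * p ≤ 4 * m * p := by nlinarith
lemma h8s_aux {m p : ℝ} (hm : 1 ≤ m) (hp : 1 ≤ p) : 1 ≤ 4 * m * p := by nlinarith

lemma V0_measure (n m s : ℕ) (hm : 1 ≤ m) (hs : m + 1 ≤ s) : ∃ C3 : ℝ, 1 ≤ C3 ∧ ∀ (P H B : ℕ) (𝒟 : Finset ℕ) (R : ℕ), 1 ≤ P → 1 ≤ H → 1 ≤ B →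
    (∀ b ∈ 𝒟, b ≤ P ^ (n + 2)) → 𝒟.Nonempty → 1 ≤ R →
    C3 * ((R : ℝ) / P + (R : ℝ) ^ (m + 2) / (P : ℝ) ^ (m + 1) + 1 / (R : ℝ) ^ m) ≤ 1 →
    (mu (m + 1)).real (V0 n m s P H B 𝒟) ≤ C3 * (H : ℝ) ^ 2 *
      ((P : ℝ) ^ (2 * (n + 2)) / ((𝒟.card : ℝ) * (P : ℝ) ^ (m + 1)) +
        (P : ℝ) ^ (n + 2) * (1 + Real.log (4 * s * P)) ^ (m + 1) / (R : ℝ) ^ m) / B := by
  obtain ⟨C, hC1, hC⟩ := KF_bound
  obtain ⟨C1, hC10, hE⟩ := EPhi n (m + 1) s (by omega) (by omega)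
  have hm0 : (1 : ℝ) ≤ m := by exact_mod_cast hm
  have hs0 : (m : ℝ) + 1 ≤ s := by exact_mod_cast hs
  have hs1 : (1 : ℝ) ≤ s := by linarith
  set c : ℝ := 4 * s * (4 * s) ^ (n + 2) with hc
  have hX1 : (1 : ℝ) ≤ (4 * s) ^ (n + 2) := one_le_pow₀ (by linarith)
  have hc4 : 4 ≤ c := h1_aux (by linarith) hX1
  have hc1 : 1 ≤ c := by linarith
  set c0 : ℝ := 16 * s ^ 2 / (6 * (n + 2)) with hc0
  have hc00 : 0 < c0 := by simp only [hc0]; positivity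
  set C4 : ℝ := 8 * (m + 1) * C * (2 * c) ^ (m + 1) with hC4
  have hC40 : 0 < C4 := by simp only [hC4]; positivity
  refine ⟨1 + 4 * C4 / c0 + 4 * C1 / c0 ^ 2 * c ^ 2, ?_, ?_⟩
  · have : 0 ≤ 4 * C4 / c0 + 4 * C1 / c0 ^ 2 * c ^ 2 := by positivity
    linarith
  intro P H B 𝒟 R hP hH hB h𝒟 hne hR hsmall
  have hB0 : (1 : ℝ) ≤ B := by exact_mod_cast hB
  have hP0 : (1 : ℝ) ≤ P := by exact_mod_cast hP
  have hH0 : (1 : ℝ) ≤ H := by exact_mod_cast hH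
  have hR0 : (1 : ℝ) ≤ R := by exact_mod_cast hR
  have hD0 : (1 : ℝ) ≤ 𝒟.card := by exact_mod_cast hne.card_pos
  obtain ⟨Q, hQ⟩ : ∃ Q : ℕ, Q = 4 * s * (4 * s) ^ (n + 2) * P ^ (n + 2) := ⟨_, rfl⟩
  obtain ⟨T, hTQ⟩ : ∃ T : ℕ, T = H * Q := ⟨_, rfl⟩
  have hQr : (Q : ℝ) = c * (P : ℝ) ^ (n + 2) := by
    rw [hQ]; push_cast; ring
  have hPk : (1 : ℝ) ≤ (P : ℝ) ^ (n + 2) := one_le_pow₀ hP0
  have hQ0 : (0 : ℝ) < Q := by rw [hQr]; positivity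
  have hQ1 : 1 ≤ Q := by
    have : 0 < Q := by exact_mod_cast hQ0
    omega
  have hTr : (T : ℝ) = H * Q := by rw [hTQ]; push_cast; ring
  have hT0 : (0 : ℝ) < T := by rw [hTr]; positivity
  have hQ4 : (4 : ℝ) ≤ Q := by
    rw [hQr]
    exact h2_aux hc4 hPk
  have hT4 : (4 : ℝ) ≤ T := by
    rw [hTr, mul_comm]
    exact h2_aux hQ4 hH0
  have hT2 : 2 ≤ T := by
    have : (4 : ℝ) ≤ T := hT4
    have : 4 ≤ T := by exact_mod_cast this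
    omega
  obtain ⟨M, hM⟩ : ∃ M : ℕ, M = 4 * s * P := ⟨_, rfl⟩
  have hMr : (M : ℝ) = 4 * s * P := by rw [hM]; push_cast; ring
  have hM0 : (0 : ℝ) < M := by rw [hMr]; positivity
  set U : ℝ := (𝒟.card : ℝ) * (P : ℝ) ^ (m + 1) / T with hU
  have hU0 : 0 < U := by simp only [hU]; positivity
  set ε : ℝ := c0 * (P : ℝ) ^ (m + 1) / (8 * T * (M : ℝ) ^ (m + 1)) with hε
  have hε0 : 0 < ε := by simp only [hε]; positivity
  obtain ⟨A, hA⟩ := kap_trunc T hT2 hε0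
  have hDM : (𝒟.card : ℝ) * (M : ℝ) ^ (m + 1) * ε = c0 * U / 8 := by
    simp only [hε, hU]
    field_simp
  have h𝒟r : ∀ b ∈ 𝒟, (b : ℝ) ≤ (P : ℝ) ^ (n + 2) := fun b hb => by exact_mod_cast h𝒟 b hb
  have h𝒟Q : ∀ b ∈ 𝒟, b < Q := by
    intro b hb
    have h1 := h𝒟r b hb
    have h2 : (P : ℝ) ^ (n + 2) < Q := by
      rw [hQr]
      exact h3_aux hc4 hPk
    have : (b : ℝ) < Q := by linarith
    exact_mod_cast this
  have hMk : (M : ℝ) ^ (n + 2) = (4 * s) ^ (n + 2) * (P : ℝ) ^ (n + 2) := by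
    rw [hMr, ← mul_pow]
  have hBig : ((m + 1 : ℕ) : ℝ) * (M : ℝ) ^ (n + 2) + (P : ℝ) ^ (n + 2) < Q / 2 := by
    rw [hQr, hMk]
    simp only [hc]
    push_cast
    have h9 : (0 : ℝ) < ((4 * s) ^ (n + 2) : ℝ) * (P : ℝ) ^ (n + 2) := by positivity
    have h10 : (P : ℝ) ^ (n + 2) < (m + 1) * (((4 * s) ^ (n + 2) : ℝ) * (P : ℝ) ^ (n + 2)) :=
      h4_aux hm0 hX1 hPk
    have h11 : (m + 1) * (((4 * s) ^ (n + 2) : ℝ) * (P : ℝ) ^ (n + 2)) ≤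
        s * (((4 * s) ^ (n + 2) : ℝ) * (P : ℝ) ^ (n + 2)) := mul_le_mul_of_nonneg_right hs0 h9.le
    linarith
  have hwin : ∀ i : ℕ, i ≤ H * (s * (4 * P) ^ (n + 2)) → (i : ℝ) ≤ T / 2 := by
    intro i hi
    have h1 : (i : ℝ) ≤ H * (s * (4 * P) ^ (n + 2)) := by exact_mod_cast hi
    refine h1.trans ?_
    rw [hTr, hQr]
    simp only [hc]
    have h2 : (4 * (P : ℝ)) ^ (n + 2) ≤ (4 * s) ^ (n + 2) * (P : ℝ) ^ (n + 2) := by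
      rw [← mul_pow]
      exact pow_le_pow_left₀ (by positivity) (h5s_aux hs1 hP0) _
    have h3 : H * (s * (4 * (P : ℝ)) ^ (n + 2)) ≤ H * (s * ((4 * s) ^ (n + 2) * (P : ℝ) ^ (n + 2))) := by
      refine mul_le_mul_of_nonneg_left (mul_le_mul_of_nonneg_left h2 (by positivity)) (by positivity)
    have h4 : 0 ≤ H * ((s : ℝ) * ((4 * s) ^ (n + 2) * (P : ℝ) ^ (n + 2))) := by positivity
    have h5 : (H : ℝ) * (4 * s * (4 * s) ^ (n + 2) * (P : ℝ) ^ (n + 2)) / 2 =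
        2 * (H * ((s : ℝ) * ((4 * s) ^ (n + 2) * (P : ℝ) ^ (n + 2)))) := by ring
    rw [h5]
    linarith
  -- the difference of the counting function and the truncation
  have hdiff : ∀ θ ∈ Set.Icc (0 : Fin (m + 1) → ℝ) 1, ∀ i : ℕ, i ≤ H * (s * (4 * P) ^ (n + 2)) →
      ‖(rr (n + 2) P M (m + 1) H 𝒟 θ i : ℂ) - rA (n + 2) P M (m + 1) T Q 𝒟 A θ i‖ ≤ c0 * U / 8 := by
    intro θ hθ i hi
    rw [← hDM]
    exact rr_sub_rA (n + 2) P M (m + 1) T Q H hH hQ1 hTQ 𝒟 A hε0.le hA θ hθ i (hwin i hi) _ h𝒟r hBig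
  have hmain : ∀ i : ℕ, H * ((m + 1) * (2 * P) ^ (n + 2)) ≤ i + 2 * (H * P ^ (n + 2)) → i ≤ H * (s * (4 * P) ^ (n + 2)) →
      7 * (c0 * U) / 8 ≤ ‖∫ θ, rA (n + 2) P M (m + 1) T Q 𝒟 A θ i ∂(mu (m + 1))‖ := by
    intro i hi1 hi2
    have h1 := main_lower n m s P H hm hs hP hH 𝒟 h𝒟 i hi1 hi2
    rw [← hM] at h1
    have h2 : (𝒟.card : ℝ) * (P : ℝ) ^ m * (1 / (6 * H * ((n + 2) * (4 * s * P : ℝ) ^ (n + 1)))) = c0 * U := by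
      simp only [hU, hc0]
      rw [hTr, hQr]
      simp only [hc]
      have e1 : (4 * s * (P : ℝ)) ^ (n + 1) = (4 * s) ^ (n + 1) * (P : ℝ) ^ (n + 1) := by
        rw [← mul_pow]
      have e2 : (4 * (s : ℝ)) ^ (n + 2) = (4 * s) ^ (n + 1) * (4 * s) := by ring
      have e3 : (P : ℝ) ^ (n + 2) = (P : ℝ) ^ (n + 1) * P := by ring
      have e4 : (P : ℝ) ^ (m + 1) = (P : ℝ) ^ m * P := by ring
      rw [e1, e2, e3, e4]
      have h3 : (0 : ℝ) < (4 * (s : ℝ)) ^ (n + 1) := by positivity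
      have h4 : (0 : ℝ) < (P : ℝ) ^ (n + 1) := by positivity
      field_simp
      ring
    rw [h2] at h1
    have h3 : ‖∫ θ, ((rr (n + 2) P M (m + 1) H 𝒟 θ i : ℂ) - rA (n + 2) P M (m + 1) T Q 𝒟 A θ i) ∂(mu (m + 1))‖ ≤
        c0 * U / 8 := by
      have h4 : ∀ᵐ θ ∂(mu (m + 1)), ‖(rr (n + 2) P M (m + 1) H 𝒟 θ i : ℂ) -
          rA (n + 2) P M (m + 1) T Q 𝒟 A θ i‖ ≤ c0 * U / 8 := by
        unfold mu
        exact (ae_restrict_iff' measurableSet_Icc).2 (Filter.Eventually.of_forall fun θ hθ => hdiff θ hθ i hi2)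
      refine (norm_integral_le_of_norm_le_const h4).trans ?_
      simp
    rw [integral_sub] at h3
    · rw [integral_complex_ofReal] at h3
      have h5 := norm_sub_norm_le ((∫ θ, rr (n + 2) P M (m + 1) H 𝒟 θ i ∂(mu (m + 1)) : ℝ) : ℂ)
        (∫ θ, rA (n + 2) P M (m + 1) T Q 𝒟 A θ i ∂(mu (m + 1)))
      have h6 : ‖((∫ θ, rr (n + 2) P M (m + 1) H 𝒟 θ i ∂(mu (m + 1)) : ℝ) : ℂ)‖ =
          ∫ θ, rr (n + 2) P M (m + 1) H 𝒟 θ i ∂(mu (m + 1)) := by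
        rw [Complex.norm_real, Real.norm_of_nonneg]
        exact integral_nonneg fun θ => rr_nonneg _ _ _ _ _ _ _ _
      rw [h6] at h5
      have h7 := h5.trans h3
      linarith
    · exact integrable_mu (Complex.continuous_ofReal.comp (continuous_rr _ _ _ _ _ _ _))
    · exact integrable_mu (continuous_rA _ _ _ _ _ _ _ _ _)
  -- the minor part is large on the bad set
  set Φ : (Fin (m + 1) → ℝ) → ℝ := fun θ => ∑ i ∈ range T, ‖Mn (n + 2) P M (m + 1) T Q 𝒟 R A θ i‖ ^ 2 with hΦ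
  have hVsub : V0 n m s P H B 𝒟 ⊆ {θ | B * (c0 * U / 2) ^ 2 ≤ Φ θ} := by
    rintro θ ⟨hθ, I, hI, hIi⟩
    have hIT : I ⊆ range T := by
      intro i hi
      rw [mem_range]
      have h9 := hwin i (hIi i hi).2.1
      have : (i : ℝ) < T := by linarith
      exact_mod_cast this
    suffices hone : ∀ i ∈ I, (c0 * U / 2) ^ 2 ≤ ‖Mn (n + 2) P M (m + 1) T Q 𝒟 R A θ i‖ ^ 2 by
      show B * (c0 * U / 2) ^ 2 ≤ Φ θ
      calc (B : ℝ) * (c0 * U / 2) ^ 2 ≤ (I.card : ℝ) * (c0 * U / 2) ^ 2 := by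
            refine mul_le_mul_of_nonneg_right ?_ (sq_nonneg _)
            exact_mod_cast hI
        _ = ∑ i ∈ I, (c0 * U / 2) ^ 2 := by rw [sum_const, nsmul_eq_mul]
        _ ≤ ∑ i ∈ I, ‖Mn (n + 2) P M (m + 1) T Q 𝒟 R A θ i‖ ^ 2 := sum_le_sum hone
        _ ≤ Φ θ := by
            simp only [hΦ]
            exact sum_le_sum_of_subset_of_nonneg hIT fun i _ _ => sq_nonneg _
    intro i hiI
    obtain ⟨hi1, hi2, hz⟩ := hIi i hiI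
    rw [← hM] at hz
    have h1 := hdiff θ hθ i hi2
    rw [hz, Complex.ofReal_zero, zero_sub, norm_neg] at h1
    have h2 := hmain i hi1 hi2
    have h3 := rA_sub_mean hC1 hC n (m + 1) s P T Q H (by omega) (by omega) hP hH hQ hTQ 𝒟 R A hR θ hθ i
    rw [← hM] at h3
    have h4 : 8 * ((m + 1 : ℕ) : ℝ) * C * (2 * (4 * (s : ℝ) * (4 * (s : ℝ)) ^ (n + 2))) ^ (m + 1) *
        ((𝒟.card : ℝ) / T) * ((P : ℝ) ^ (m + 1 - 1) * R + (R : ℝ) ^ (m + 1 + 1) +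
          (P : ℝ) ^ (m + 1) / (R : ℝ) ^ (m + 1 - 1)) =
        C4 * U * ((R : ℝ) / P + (R : ℝ) ^ (m + 2) / (P : ℝ) ^ (m + 1) + 1 / (R : ℝ) ^ m) := by
      simp only [hC4, hU, hc]
      push_cast
      have e4 : (P : ℝ) ^ (m + 1) = (P : ℝ) ^ m * P := by ring
      rw [e4]
      have h5 : (P : ℝ) ^ m ≠ 0 := by positivity
      have h6 : (R : ℝ) ^ m ≠ 0 := by positivity
      field_simp
    rw [h4] at h3
    have h5 : C4 * U * ((R : ℝ) / P + (R : ℝ) ^ (m + 2) / (P : ℝ) ^ (m + 1) + 1 / (R : ℝ) ^ m) ≤ c0 * U / 4 := by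
      have h6 : 4 * C4 / c0 * ((R : ℝ) / P + (R : ℝ) ^ (m + 2) / (P : ℝ) ^ (m + 1) + 1 / (R : ℝ) ^ m) ≤ 1 := by
        refine le_trans ?_ hsmall
        refine mul_le_mul_of_nonneg_right ?_ (by positivity)
        have : 0 ≤ 4 * C1 / c0 ^ 2 * c ^ 2 := by positivity
        linarith
      have h7 : C4 * U * ((R : ℝ) / P + (R : ℝ) ^ (m + 2) / (P : ℝ) ^ (m + 1) + 1 / (R : ℝ) ^ m) =
          (c0 * U / 4) * (4 * C4 / c0 * ((R : ℝ) / P + (R : ℝ) ^ (m + 2) / (P : ℝ) ^ (m + 1) + 1 / (R : ℝ) ^ m)) := by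
        field_simp
      rw [h7]
      exact h6_aux (by positivity) h6
    set x := rA (n + 2) P M (m + 1) T Q 𝒟 A θ i with hx
    set y := ∫ θ, rA (n + 2) P M (m + 1) T Q 𝒟 A θ i ∂(mu (m + 1)) with hy
    set z := Mn (n + 2) P M (m + 1) T Q 𝒟 R A θ i with hz2
    have h6 : ‖y‖ ≤ ‖x‖ + ‖z‖ + ‖x - y - z‖ := by
      have e1 : y = x - z - (x - y - z) := by ring
      calc ‖y‖ = ‖x - z - (x - y - z)‖ := by rw [← e1]
        _ ≤ ‖x - z‖ + ‖x - y - z‖ := norm_sub_le _ _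
        _ ≤ _ := by linarith [norm_sub_le x z]
    have h7 : c0 * U / 2 ≤ ‖z‖ := by linarith
    exact pow_le_pow_left₀ (by positivity) h7 2
  have hΦc : Continuous Φ := by
    simp only [hΦ]
    exact continuous_finsetSum _ fun i _ => (continuous_Mn _ _ _ _ _ _ _ _ _ _).norm.pow 2
  have hcheb := mul_meas_ge_le_integral_of_nonneg (μ := mu (m + 1)) (f := Φ)
    (Filter.Eventually.of_forall fun θ => sum_nonneg fun i _ => sq_nonneg _) (integrable_mu hΦc)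
    (B * (c0 * U / 2) ^ 2)
  have hmono : (mu (m + 1)).real (V0 n m s P H B 𝒟) ≤ (mu (m + 1)).real {θ | B * (c0 * U / 2) ^ 2 ≤ Φ θ} :=
    measureReal_mono hVsub
  have hEE := hE P H T Q 𝒟 R A hP hH hQ hTQ h𝒟Q hR
  rw [← hM] at hEE
  set l : ℝ := 1 + Real.log (4 * s * P) with hl
  have hl0 : 0 ≤ l := by
    have : 0 ≤ Real.log (4 * s * P) := Real.log_nonneg (h8s_aux hs1 hP0)
    simp only [hl]; linarith
  have hEE' : ∫ θ, Φ θ ∂(mu (m + 1)) ≤ C1 * ((𝒟.card : ℝ) * (P : ℝ) ^ (m + 1) +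
      (𝒟.card : ℝ) ^ 2 * (P : ℝ) ^ (2 * (m + 1)) * l ^ (m + 1) / (T * (R : ℝ) ^ m)) := by
    refine hEE.trans (le_of_eq ?_)
    have e5 : m + 1 - 1 = m := rfl
    rw [e5]
  have hsq : 0 < (c0 * U / 2) ^ 2 := by positivity
  have h1 : (mu (m + 1)).real (V0 n m s P H B 𝒟) ≤ C1 * ((𝒟.card : ℝ) * (P : ℝ) ^ (m + 1) +
      (𝒟.card : ℝ) ^ 2 * (P : ℝ) ^ (2 * (m + 1)) * l ^ (m + 1) / (T * (R : ℝ) ^ m)) / (c0 * U / 2) ^ 2 / B := by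
    rw [div_div, le_div_iff₀ (by positivity)]
    calc _ ≤ (mu (m + 1)).real {θ | B * (c0 * U / 2) ^ 2 ≤ Φ θ} * ((c0 * U / 2) ^ 2 * B) :=
          mul_le_mul_of_nonneg_right hmono (by positivity)
      _ = B * (c0 * U / 2) ^ 2 * (mu (m + 1)).real {θ | B * (c0 * U / 2) ^ 2 ≤ Φ θ} := by ring
      _ ≤ _ := hcheb
      _ ≤ _ := hEE'
  refine h1.trans ?_
  refine div_le_div_of_nonneg_right ?_ (by linarith)
  have h2 : C1 * ((𝒟.card : ℝ) * (P : ℝ) ^ (m + 1) +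
      (𝒟.card : ℝ) ^ 2 * (P : ℝ) ^ (2 * (m + 1)) * l ^ (m + 1) / (T * (R : ℝ) ^ m)) / (c0 * U / 2) ^ 2 =
      4 * C1 / c0 ^ 2 * ((T : ℝ) ^ 2 / ((𝒟.card : ℝ) * (P : ℝ) ^ (m + 1)) + T * l ^ (m + 1) / (R : ℝ) ^ m) := by
    simp only [hU]
    have e4 : (P : ℝ) ^ (2 * (m + 1)) = (P : ℝ) ^ (m + 1) * (P : ℝ) ^ (m + 1) := by
      rw [← pow_add]; congr 1; ring
    rw [e4]
    have h5 : (P : ℝ) ^ (m + 1) ≠ 0 := by positivity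
    have h6 : (R : ℝ) ^ m ≠ 0 := by positivity
    have h7 : (𝒟.card : ℝ) ≠ 0 := by positivity
    field_simp
    norm_num
  rw [h2]
  have h3 : (T : ℝ) ^ 2 / ((𝒟.card : ℝ) * (P : ℝ) ^ (m + 1)) + T * l ^ (m + 1) / (R : ℝ) ^ m ≤
      c ^ 2 * (H : ℝ) ^ 2 * ((P : ℝ) ^ (2 * (n + 2)) / ((𝒟.card : ℝ) * (P : ℝ) ^ (m + 1)) +
        (P : ℝ) ^ (n + 2) * l ^ (m + 1) / (R : ℝ) ^ m) := by
    have e1 : (T : ℝ) ^ 2 / ((𝒟.card : ℝ) * (P : ℝ) ^ (m + 1)) =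
        c ^ 2 * (H : ℝ) ^ 2 * ((P : ℝ) ^ (2 * (n + 2)) / ((𝒟.card : ℝ) * (P : ℝ) ^ (m + 1))) := by
      rw [hTr, hQr]
      have : (P : ℝ) ^ (2 * (n + 2)) = ((P : ℝ) ^ (n + 2)) ^ 2 := by rw [← pow_mul]; congr 1; ring
      rw [this]
      ring
    have e2 : T * l ^ (m + 1) / (R : ℝ) ^ m ≤
        c ^ 2 * (H : ℝ) ^ 2 * ((P : ℝ) ^ (n + 2) * l ^ (m + 1) / (R : ℝ) ^ m) := by
      have e3 : (T : ℝ) ≤ c ^ 2 * (H : ℝ) ^ 2 * (P : ℝ) ^ (n + 2) := by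
        rw [hTr, hQr]
        have e5 : (H : ℝ) * c ≤ (H * c) * (H * c) := h7_aux (one_le_mul_of_one_le_of_one_le hH0 hc1)
        calc (H : ℝ) * (c * (P : ℝ) ^ (n + 2)) = (H * c) * (P : ℝ) ^ (n + 2) := by ring
          _ ≤ ((H * c) * (H * c)) * (P : ℝ) ^ (n + 2) := mul_le_mul_of_nonneg_right e5 (by linarith)
          _ = _ := by ring
      calc T * l ^ (m + 1) / (R : ℝ) ^ m = T * (l ^ (m + 1) / (R : ℝ) ^ m) := by ring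
        _ ≤ (c ^ 2 * (H : ℝ) ^ 2 * (P : ℝ) ^ (n + 2)) * (l ^ (m + 1) / (R : ℝ) ^ m) :=
          mul_le_mul_of_nonneg_right e3 (by positivity)
        _ = _ := by ring
    rw [e1]
    linarith
  have h4 : 0 ≤ (P : ℝ) ^ (2 * (n + 2)) / ((𝒟.card : ℝ) * (P : ℝ) ^ (m + 1)) +
        (P : ℝ) ^ (n + 2) * l ^ (m + 1) / (R : ℝ) ^ m := by positivity
  calc _ ≤ 4 * C1 / c0 ^ 2 * (c ^ 2 * (H : ℝ) ^ 2 * ((P : ℝ) ^ (2 * (n + 2)) / ((𝒟.card : ℝ) * (P : ℝ) ^ (m + 1)) +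
        (P : ℝ) ^ (n + 2) * l ^ (m + 1) / (R : ℝ) ^ m)) := mul_le_mul_of_nonneg_left h3 (by positivity)
    _ = (4 * C1 / c0 ^ 2 * c ^ 2) * ((H : ℝ) ^ 2 * ((P : ℝ) ^ (2 * (n + 2)) / ((𝒟.card : ℝ) * (P : ℝ) ^ (m + 1)) +
        (P : ℝ) ^ (n + 2) * l ^ (m + 1) / (R : ℝ) ^ m)) := by ring
    _ ≤ (1 + 4 * C4 / c0 + 4 * C1 / c0 ^ 2 * c ^ 2) * ((H : ℝ) ^ 2 * ((P : ℝ) ^ (2 * (n + 2)) /
        ((𝒟.card : ℝ) * (P : ℝ) ^ (m + 1)) + (P : ℝ) ^ (n + 2) * l ^ (m + 1) / (R : ℝ) ^ m)) := by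
        refine mul_le_mul_of_nonneg_right ?_ (by positivity)
        have : 0 ≤ 4 * C4 / c0 := by positivity
        linarith
    _ = _ := by ring

end Pool.Agent.D0H17.MW2
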