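import Pool.Agent.D0H17.MW2.Bad2

set_option autoImplicit false

/-! Each further shifted power squares the density of the exceptional set. -/

namespace Pool.Agent.D0H17.MW2

open Finset MeasureTheory Pool.Agent.D0H17.MW
open scoped ENNReal

/-- second differences of powers -/
lemma second_diff (n : ℕ) {P w u δ : ℝ} (hP : 0 ≤ P) (hw : P ≤ w) (hu : w ≤ u) (hδ : 0 ≤ δ) :
    (w + δ) ^ (n + 2) - w ^ (n + 2) + 2 * P ^ n * (u - w) * δ ≤ (u + δ) ^ (n + 2) - u ^ (n + 2) := by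
  induction n with
  | zero =>
    simp only [zero_add, pow_zero, mul_one]
    nlinarith
  | succ n ih =>
    have hw0 : 0 ≤ w := hP.trans hw
    have hu0 : 0 ≤ u := hw0.trans hu
    have h1 : (u + δ) ^ (n + 1 + 2) - u ^ (n + 1 + 2) =
        (u + δ) * ((u + δ) ^ (n + 2) - u ^ (n + 2)) + δ * u ^ (n + 2) := by ring
    have h2 : (w + δ) ^ (n + 1 + 2) - w ^ (n + 1 + 2) =
        (w + δ) * ((w + δ) ^ (n + 2) - w ^ (n + 2)) + δ * w ^ (n + 2) := by ring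
    have h3 : δ * w ^ (n + 2) ≤ δ * u ^ (n + 2) :=
      mul_le_mul_of_nonneg_left (pow_le_pow_left₀ hw0 hu _) hδ
    have h4 : 0 ≤ (u + δ) ^ (n + 2) - u ^ (n + 2) :=
      sub_nonneg.2 (pow_le_pow_left₀ hu0 (by linarith) _)
    have h5 : (w + δ) * ((u + δ) ^ (n + 2) - u ^ (n + 2)) ≤ (u + δ) * ((u + δ) ^ (n + 2) - u ^ (n + 2)) :=
      mul_le_mul_of_nonneg_right (by linarith) h4
    have h6 : (w + δ) * ((w + δ) ^ (n + 2) - w ^ (n + 2) + 2 * P ^ n * (u - w) * δ) ≤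
        (w + δ) * ((u + δ) ^ (n + 2) - u ^ (n + 2)) := mul_le_mul_of_nonneg_left ih (by linarith)
    have h7 : 0 ≤ 2 * P ^ n * (u - w) * δ := by
      have := sub_nonneg.2 hu
      positivity
    have h8 : P * (2 * P ^ n * (u - w) * δ) ≤ (w + δ) * (2 * P ^ n * (u - w) * δ) :=
      mul_le_mul_of_nonneg_right (by linarith) h7
    have h9 : 2 * P ^ (n + 1) * (u - w) * δ = P * (2 * P ^ n * (u - w) * δ) := by ring
    rw [h1, h2, h9]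
    rw [mul_add] at h6
    linarith

/-- the shifts `x` for which the difference of two shifted powers is close to `v` -/
def AA (n P H y : ℕ) (v : ℝ) : Set ℝ :=
  {x | x ∈ Set.Icc (0 : ℝ) 1 ∧ |H * (((y : ℝ) + x) ^ (n + 2) - ((P : ℝ) + x) ^ (n + 2)) - v| < 1}

lemma meas_AA (n P H y : ℕ) (v : ℝ) : MeasurableSet (AA n P H y v) := by
  have h1 : MeasurableSet {x : ℝ | |H * (((y : ℝ) + x) ^ (n + 2) - ((P : ℝ) + x) ^ (n + 2)) - v| < 1} := by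
    refine (isOpen_lt ?_ continuous_const).measurableSet
    fun_prop
  exact measurableSet_Icc.inter h1

lemma g_slope (n P H y : ℕ) (hy : (P : ℝ) / 4 ≤ (y : ℝ) - P) {x1 x2 : ℝ} (h0 : 0 ≤ x1) (h12 : x1 ≤ x2) :
    H * (((y : ℝ) + x1) ^ (n + 2) - ((P : ℝ) + x1) ^ (n + 2)) + H * (P : ℝ) ^ (n + 1) / 2 * (x2 - x1) ≤
      H * (((y : ℝ) + x2) ^ (n + 2) - ((P : ℝ) + x2) ^ (n + 2)) := by
  have hP0 : (0 : ℝ) ≤ P := Nat.cast_nonneg P
  have hH0 : (0 : ℝ) ≤ H := Nat.cast_nonneg H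
  have h1 := second_diff n (P := P) (w := P + x1) (u := y + x1) (δ := x2 - x1) hP0 (by linarith) (by linarith)
    (by linarith)
  have e1 : (P : ℝ) + x1 + (x2 - x1) = P + x2 := by ring
  have e2 : (y : ℝ) + x1 + (x2 - x1) = y + x2 := by ring
  have e3 : (y : ℝ) + x1 - (P + x1) = y - P := by ring
  rw [e1, e2, e3] at h1
  have h2 : (P : ℝ) ^ (n + 1) / 2 * (x2 - x1) ≤ 2 * (P : ℝ) ^ n * (y - P) * (x2 - x1) := by
    refine mul_le_mul_of_nonneg_right ?_ (by linarith)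
    have h3 : 2 * (P : ℝ) ^ n * (P / 4) ≤ 2 * (P : ℝ) ^ n * (y - P) := mul_le_mul_of_nonneg_left hy (by positivity)
    have h4 : 2 * (P : ℝ) ^ n * (P / 4) = (P : ℝ) ^ (n + 1) / 2 := by ring
    linarith
  have h3 : (P : ℝ) ^ (n + 1) / 2 * (x2 - x1) ≤ (((y : ℝ) + x2) ^ (n + 2) - ((P : ℝ) + x2) ^ (n + 2)) -
      (((y : ℝ) + x1) ^ (n + 2) - ((P : ℝ) + x1) ^ (n + 2)) := by linarith
  have h4 := mul_le_mul_of_nonneg_left h3 hH0
  have e5 : (H : ℝ) * ((P : ℝ) ^ (n + 1) / 2 * (x2 - x1)) = H * (P : ℝ) ^ (n + 1) / 2 * (x2 - x1) := by ring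
  rw [e5, mul_sub] at h4
  linarith

lemma vol_AA (n P H y : ℕ) (hP : 1 ≤ P) (hH : 1 ≤ H) (hy : (P : ℝ) / 4 ≤ (y : ℝ) - P) (v : ℝ) :
    volume (AA n P H y v) ≤ ENNReal.ofReal (4 / (H * (P : ℝ) ^ (n + 1))) := by
  have hP0 : (1 : ℝ) ≤ P := by exact_mod_cast hP
  have hH0 : (1 : ℝ) ≤ H := by exact_mod_cast hH
  have hL : 0 < (H : ℝ) * (P : ℝ) ^ (n + 1) := by positivity
  have key : ∀ x1 ∈ AA n P H y v, ∀ x2 ∈ AA n P H y v, x1 ≤ x2 → x2 - x1 ≤ 4 / (H * (P : ℝ) ^ (n + 1)) := by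
    intro x1 hx1 x2 hx2 h12
    have h1 := g_slope n P H y hy hx1.1.1 h12
    have h2 := abs_lt.1 hx1.2
    have h3 := abs_lt.1 hx2.2
    rw [le_div_iff₀ hL]
    linarith [h2.1, h2.2, h3.1, h3.2]
  refine (Real.volume_le_diam _).trans (Metric.ediam_le fun x1 hx1 x2 hx2 => ?_)
  rw [edist_dist, Real.dist_eq]
  refine ENNReal.ofReal_le_ofReal ?_
  rcases le_total x1 x2 with h | h
  · rw [abs_sub_comm, abs_of_nonneg (sub_nonneg.2 h)]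
    exact key x1 hx1 x2 hx2 h
  · rw [abs_of_nonneg (sub_nonneg.2 h)]
    exact key x2 hx2 x1 hx1 h

lemma three_le (n : ℕ) {P : ℝ} (hP : 1 ≤ P) : 2 ≤ (P + 1) ^ (n + 2) - P ^ (n + 2) := by
  have h1 : P ^ (n + 2) + (P + 1) ^ (n + 1) ≤ (P + 1) ^ (n + 2) := by
    have h2 : P * P ^ (n + 1) ≤ P * (P + 1) ^ (n + 1) :=
      mul_le_mul_of_nonneg_left (pow_le_pow_left₀ (by linarith) (by linarith) _) (by linarith)
    calc P ^ (n + 2) + (P + 1) ^ (n + 1) = P * P ^ (n + 1) + (P + 1) ^ (n + 1) := by ring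
      _ ≤ P * (P + 1) ^ (n + 1) + (P + 1) ^ (n + 1) := by linarith
      _ = (P + 1) ^ (n + 2) := by ring
  have h3 : (2 : ℝ) ≤ (P + 1) ^ (n + 1) := by
    calc (2 : ℝ) ≤ P + 1 := by linarith
      _ = (P + 1) ^ 1 := (pow_one _).symm
      _ ≤ (P + 1) ^ (n + 1) := pow_le_pow_right₀ (by linarith) (by omega)
  linarith

/-- for a given value, at most one `y` is possible -/
lemma AA_unique (n P H y1 y2 : ℕ) (hP : 1 ≤ P) (hH : 1 ≤ H) (hy1 : (P : ℝ) / 4 ≤ (y1 : ℝ) - P) (h12 : y1 < y2) (v x1 x2 : ℝ)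
    (h1 : x1 ∈ AA n P H y1 v) (h2 : x2 ∈ AA n P H y2 v) : False := by
  have hP0 : (1 : ℝ) ≤ P := by exact_mod_cast hP
  have hH0 : (1 : ℝ) ≤ H := by exact_mod_cast hH
  have hyy : (y1 : ℝ) + 1 ≤ y2 := by exact_mod_cast h12
  have hpos : 0 ≤ H * (P : ℝ) ^ (n + 1) / 2 := by positivity
  have e1 := g_slope n P H y1 hy1 h1.1.1 h1.1.2
  have e2 := g_slope n P H y2 (by linarith) le_rfl h2.1.1
  have e3 : 0 ≤ H * (P : ℝ) ^ (n + 1) / 2 * (1 - x1) := mul_nonneg hpos (by linarith [h1.1.2])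
  have e4 : 0 ≤ H * (P : ℝ) ^ (n + 1) / 2 * (x2 - 0) := mul_nonneg hpos (by linarith [h2.1.1])
  have e5 := abs_lt.1 h1.2
  have e6 := abs_lt.1 h2.2
  have e7 : ((y1 : ℝ) + 1) ^ (n + 2) ≤ ((y2 : ℝ) + 0) ^ (n + 2) :=
    pow_le_pow_left₀ (by positivity) (by linarith) _
  have e8 := three_le n hP0
  have e9 : (H : ℝ) * (((y1 : ℝ) + 1) ^ (n + 2) - ((P : ℝ) + 1) ^ (n + 2)) + 2 ≤
      H * (((y2 : ℝ) + 0) ^ (n + 2) - ((P : ℝ) + 0) ^ (n + 2)) := by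
    rw [add_zero (P : ℝ)]
    have f1 : (2 : ℝ) ≤ (((y2 : ℝ) + 0) ^ (n + 2) - (P : ℝ) ^ (n + 2)) -
        (((y1 : ℝ) + 1) ^ (n + 2) - ((P : ℝ) + 1) ^ (n + 2)) := by linarith
    have f2 : (2 : ℝ) ≤ H * ((((y2 : ℝ) + 0) ^ (n + 2) - (P : ℝ) ^ (n + 2)) -
        (((y1 : ℝ) + 1) ^ (n + 2) - ((P : ℝ) + 1) ^ (n + 2))) := by
      calc (2 : ℝ) ≤ (((y2 : ℝ) + 0) ^ (n + 2) - (P : ℝ) ^ (n + 2)) -
          (((y1 : ℝ) + 1) ^ (n + 2) - ((P : ℝ) + 1) ^ (n + 2)) := f1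
        _ ≤ _ := le_mul_of_one_le_left (by linarith) hH0
    rw [mul_sub] at f2
    linarith
  linarith [e5.1, e5.2, e6.1, e6.2]

lemma nu_le (s : Set ℝ) : nu s ≤ volume s := by
  unfold nu
  exact Measure.restrict_apply_le _ _

/-- the sum over the `y` of the measures -/
lemma sum_AA (n P H : ℕ) (hP : 1 ≤ P) (hH : 1 ≤ H) (Y : Finset ℕ) (hY : ∀ y ∈ Y, (P : ℝ) / 4 ≤ (y : ℝ) - P) (v : ℝ) :
    ∑ y ∈ Y, nu (AA n P H y v) ≤ ENNReal.ofReal (4 / (H * (P : ℝ) ^ (n + 1))) := by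
  by_cases h : ∃ y ∈ Y, (AA n P H y v).Nonempty
  · obtain ⟨y, hy, x, hx⟩ := h
    have h1 : ∑ y ∈ Y, nu (AA n P H y v) = nu (AA n P H y v) := by
      refine Finset.sum_eq_single_of_mem y hy fun y' hy' hne => ?_
      have h2 : AA n P H y' v = ∅ := by
        rw [Set.eq_empty_iff_forall_notMem]
        intro x' hx'
        rcases lt_or_gt_of_ne hne with h | h
        · exact AA_unique n P H y' y hP hH (hY y' hy') h v x' x hx' hx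
        · exact AA_unique n P H y y' hP hH (hY y hy) h v x x' hx hx'
      rw [h2, measure_empty]
    rw [h1]
    exact (nu_le _).trans (vol_AA n P H y hP hH (hY y hy) v)
  · have h1 : ∑ y ∈ Y, nu (AA n P H y v) = 0 := by
      refine Finset.sum_eq_zero fun y hy => ?_
      have h2 : AA n P H y v = ∅ := by
        rw [← Set.not_nonempty_iff_eq_empty]
        exact fun h3 => h ⟨y, hy, h3⟩
      rw [h2, measure_empty]
    rw [h1]
    exact zero_le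

/-- the pointwise inequality -/
lemma pointwise (n P H : ℕ) (𝓔 F : Finset ℕ) (hpos : ∀ e ∈ 𝓔, 0 < e) {x : ℝ} (hx : x ∈ Set.Icc (0 : ℝ) 1)
    (hF : ∀ i ∈ F, ∀ y ∈ Ico P (2 * P), ⌊(i : ℝ) - H * ((y : ℝ) + x) ^ (n + 2)⌋₊ ∈ 𝓔) (hP : 1 ≤ P)
    (y : ℕ) (hy : y ∈ Ico P (2 * P)) :
    (F.card : ℝ≥0∞) ≤ ∑ p ∈ 𝓔 ×ˢ 𝓔, (AA n P H y ((p.1 : ℝ) - p.2)).indicator (fun _ => (1 : ℝ≥0∞)) x := by
  classical
  have hPm : P ∈ Ico P (2 * P) := mem_Ico.2 ⟨le_rfl, by omega⟩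
  have hfl : ∀ a : ℝ, 0 < ⌊a⌋₊ → (⌊a⌋₊ : ℝ) ≤ a ∧ a < ⌊a⌋₊ + 1 := by
    intro a ha
    rw [Nat.floor_pos] at ha
    exact ⟨Nat.floor_le (by linarith), Nat.lt_floor_add_one a⟩
  have h1 : F.card ≤ ((𝓔 ×ˢ 𝓔).filter fun p => x ∈ AA n P H y ((p.1 : ℝ) - p.2)).card := by
    refine card_le_card_of_injOn
      (fun i => (⌊(i : ℝ) - H * ((P : ℝ) + x) ^ (n + 2)⌋₊, ⌊(i : ℝ) - H * ((y : ℝ) + x) ^ (n + 2)⌋₊)) ?_ ?_
    · intro i hi
      have hi' : i ∈ F := hi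
      have h2 := hF i hi' P hPm
      have h3 := hF i hi' y hy
      have h4 := hfl _ (hpos _ h2)
      have h5 := hfl _ (hpos _ h3)
      rw [mem_coe, mem_filter, mem_product]
      refine ⟨⟨h2, h3⟩, hx, ?_⟩
      rw [abs_lt]
      simp only
      constructor <;> linarith [h4.1, h4.2, h5.1, h5.2]
    · intro i hi i' hi' heq
      have hi2 : i ∈ F := hi
      have hi3 : i' ∈ F := hi'
      have h2 := hF i hi2 P hPm
      have h3 := hF i' hi3 P hPm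
      have h4 := hfl _ (hpos _ h2)
      have h5 := hfl _ (hpos _ h3)
      have h6 : ⌊(i : ℝ) - H * ((P : ℝ) + x) ^ (n + 2)⌋₊ = ⌊(i' : ℝ) - H * ((P : ℝ) + x) ^ (n + 2)⌋₊ :=
        congrArg Prod.fst heq
      rw [h6] at h4
      have h7 : (i : ℝ) < i' + 1 := by linarith [h4.2, h5.1]
      have h8 : (i' : ℝ) < i + 1 := by linarith [h4.1, h5.2]
      have h9 : i < i' + 1 := by exact_mod_cast h7
      have h10 : i' < i + 1 := by exact_mod_cast h8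
      omega
  have h2 : (((𝓔 ×ˢ 𝓔).filter fun p => x ∈ AA n P H y ((p.1 : ℝ) - p.2)).card : ℝ≥0∞) =
      ∑ p ∈ 𝓔 ×ˢ 𝓔, (AA n P H y ((p.1 : ℝ) - p.2)).indicator (fun _ => (1 : ℝ≥0∞)) x := by
    rw [card_filter, Nat.cast_sum]
    refine sum_congr rfl fun p _ => ?_
    by_cases hp : x ∈ AA n P H y ((p.1 : ℝ) - p.2)
    · rw [if_pos hp, Set.indicator_of_mem hp]; simp
    · rw [if_neg hp, Set.indicator_of_notMem hp]; simp
  rw [← h2]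
  exact_mod_cast h1

/-- the integral over the new shift -/
lemma integral_step (n P H : ℕ) (hP : 2 ≤ P) (hH : 1 ≤ H) (𝓔 : Finset ℕ) (hpos : ∀ e ∈ 𝓔, 0 < e)
    (F : ℝ → Finset ℕ)
    (hF : ∀ x, ∀ i ∈ F x, ∀ y ∈ Ico P (2 * P), ⌊(i : ℝ) - H * ((y : ℝ) + x) ^ (n + 2)⌋₊ ∈ 𝓔) :
    ∫⁻ x, ((F x).card : ℝ≥0∞) ∂nu ≤ ENNReal.ofReal (8 * (𝓔.card : ℝ) ^ 2 / (H * (P : ℝ) ^ (n + 2))) := by
  have hP0 : (2 : ℝ) ≤ P := by exact_mod_cast hP
  have hH0 : (1 : ℝ) ≤ H := by exact_mod_cast hH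
  set Y : Finset ℕ := Ico (P + P / 2) (2 * P) with hYdef
  have hY1 : ∀ y ∈ Y, y ∈ Ico P (2 * P) := by
    intro y hy
    rw [hYdef, mem_Ico] at hy
    rw [mem_Ico]
    omega
  have hY2 : ∀ y ∈ Y, (P : ℝ) / 4 ≤ (y : ℝ) - P := by
    intro y hy
    rw [hYdef, mem_Ico] at hy
    have h1 : P + 4 * P ≤ 4 * y := by omega
    have h2 : (P : ℝ) + 4 * P ≤ 4 * y := by exact_mod_cast h1
    linarith
  have hYc : (P : ℝ) / 2 ≤ (Y.card : ℝ) := by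
    rw [hYdef, Nat.card_Ico]
    have h1 : P ≤ 2 * (2 * P - (P + P / 2)) := by omega
    have h2 : (P : ℝ) ≤ 2 * ((2 * P - (P + P / 2) : ℕ) : ℝ) := by exact_mod_cast h1
    linarith
  have hYpos : 0 < (Y.card : ℝ) := by linarith
  have h1 : ∫⁻ x, (Y.card : ℝ≥0∞) * ((F x).card : ℝ≥0∞) ∂nu ≤
      ∫⁻ x, ∑ p ∈ 𝓔 ×ˢ 𝓔, ∑ y ∈ Y, (AA n P H y ((p.1 : ℝ) - p.2)).indicator (fun _ => (1 : ℝ≥0∞)) x ∂nu := by
    refine lintegral_mono_ae ?_
    unfold nu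
    refine (ae_restrict_iff' measurableSet_Icc).2 (Filter.Eventually.of_forall fun x hx => ?_)
    rw [sum_comm]
    rw [← nsmul_eq_mul, ← sum_const]
    exact sum_le_sum fun y hy => pointwise n P H 𝓔 (F x) hpos hx (hF x) (by omega) y (hY1 y hy)
  have h2 : ∫⁻ x, ∑ p ∈ 𝓔 ×ˢ 𝓔, ∑ y ∈ Y, (AA n P H y ((p.1 : ℝ) - p.2)).indicator (fun _ => (1 : ℝ≥0∞)) x ∂nu ≤
      ENNReal.ofReal ((𝓔.card : ℝ) ^ 2 * (4 / (H * (P : ℝ) ^ (n + 1)))) := by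
    have hm : ∀ (p : ℕ × ℕ) (y : ℕ), Measurable
        ((AA n P H y ((p.1 : ℝ) - p.2)).indicator (fun _ => (1 : ℝ≥0∞))) :=
      fun p y => measurable_const.indicator (meas_AA _ _ _ _ _)
    rw [lintegral_finsetSum _ fun p _ => Finset.measurable_sum _ fun y _ => hm p y]
    have h3 : ∀ p ∈ 𝓔 ×ˢ 𝓔, ∫⁻ x, ∑ y ∈ Y, (AA n P H y ((p.1 : ℝ) - p.2)).indicator (fun _ => (1 : ℝ≥0∞)) x ∂nu ≤
        ENNReal.ofReal (4 / (H * (P : ℝ) ^ (n + 1))) := by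
      intro p _
      rw [lintegral_finsetSum _ fun y _ => hm p y]
      refine le_trans (le_of_eq ?_) (sum_AA n P H (by omega) hH Y hY2 ((p.1 : ℝ) - p.2))
      refine sum_congr rfl fun y _ => ?_
      rw [lintegral_indicator (meas_AA _ _ _ _ _), setLIntegral_const, one_mul]
    refine (sum_le_sum h3).trans (le_of_eq ?_)
    rw [sum_const, card_product, nsmul_eq_mul, ENNReal.ofReal_mul (by positivity)]
    congr 1
    rw [ENNReal.ofReal_pow (by positivity), ENNReal.ofReal_natCast]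
    push_cast
    ring
  have h3 := h1.trans h2
  rw [lintegral_const_mul' _ _ (ENNReal.natCast_ne_top _)] at h3
  have hYne : (Y.card : ℝ≥0∞) ≠ 0 := by
    have : Y.card ≠ 0 := by
      intro h
      rw [h] at hYpos
      simp at hYpos
    exact_mod_cast this
  have h4 : ∫⁻ x, ((F x).card : ℝ≥0∞) ∂nu ≤
      ENNReal.ofReal ((𝓔.card : ℝ) ^ 2 * (4 / (H * (P : ℝ) ^ (n + 1)))) / (Y.card : ℝ≥0∞) := by
    rw [ENNReal.le_div_iff_mul_le (Or.inl hYne) (Or.inl (ENNReal.natCast_ne_top _)), mul_comm]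
    exact h3
  refine h4.trans ?_
  have e1 : (Y.card : ℝ≥0∞) = ENNReal.ofReal (Y.card : ℝ) := (ENNReal.ofReal_natCast _).symm
  rw [e1, ← ENNReal.ofReal_div_of_pos hYpos]
  refine ENNReal.ofReal_le_ofReal ?_
  rw [div_le_iff₀ hYpos]
  have h5 : 8 * (𝓔.card : ℝ) ^ 2 / (H * (P : ℝ) ^ (n + 2)) * (P / 2) ≤
      8 * (𝓔.card : ℝ) ^ 2 / (H * (P : ℝ) ^ (n + 2)) * Y.card :=
    mul_le_mul_of_nonneg_left hYc (by positivity)
  refine le_trans (le_of_eq ?_) h5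
  field_simp
  ring

end Pool.Agent.D0H17.MW2
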