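import Pool.Agent.D0H17.MW2.Grid2
import Pool.Agent.D0H17.MW.Dim

set_option autoImplicit false

/-! The Hausdorff dimension of the set of bad shifts, with the iteration. -/

namespace Pool.Agent.D0H17.MW2

open Finset MeasureTheory Filter Pool.Agent.D0H17.MW
open scoped ENNReal

/-- the tail term at the exponent `k` -/
lemma tail_term2 (k : ℝ) (m j : ℕ) (hm : 1 ≤ m) :
    (2 : ℝ) ^ ((j : ℝ) * k) / ((2 ^ ee m j : ℕ) : ℝ) ^ m ≤ (2 : ℝ) ^ m * (2 : ℝ) ^ ((j : ℝ) * (k - (m : ℝ) ^ 2 / (m + 1))) := by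
  have hge := ee_ge m j
  have hm0 : (1 : ℝ) ≤ m := by exact_mod_cast hm
  set E : ℝ := (ee m j : ℝ) with hE
  push_cast
  rw [two_pow_rpow, ← Real.rpow_sub (by norm_num), ← Real.rpow_natCast 2 m,
    ← Real.rpow_add (by norm_num)]
  refine two_rpow_le ?_
  rw [← hE]
  have h3 : ((j : ℝ) * m / (m + 1) - 1) * m ≤ E * m := mul_le_mul_of_nonneg_right hge (by linarith)
  have h4 : ((j : ℝ) * m / (m + 1) - 1) * m = (j : ℝ) * ((m : ℝ) ^ 2 / (m + 1)) - m := by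
    field_simp
  rw [h4] at h3
  linarith

lemma aux_div {Z Y H : ℝ} (hZ : 0 < Z) : 8 * (Z * Y) / (H * Z) = 8 * Y / H := by
  have e1 : 8 * (Z * Y) = 8 * Y * Z := by ring
  rw [e1, mul_div_mul_right _ _ hZ.ne']

/-- the measure of the final bad set at one scale -/
lemma measure_bad (n m J : ℕ) (hm : 1 ≤ m) (κ₁ κ₂ c₁ c₂ μ η : ℝ) (hc₁ : 0 < c₁) (hc₂ : 0 < c₂)
    (hμ1 : μ ≤ m + 1 + κ₁ - (n + 2)) (hμ2 : μ ≤ (m : ℝ) ^ 2 / (m + 1))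
    (hη : ((n : ℝ) + 2) - η - 2 ^ J * (μ - 2 * η) < κ₂)
    (𝒟₁ 𝒟₂ : ℕ → Finset ℕ) (h𝒟₁ : ∀ j, ∀ b ∈ 𝒟₁ j, b ≤ (2 ^ j) ^ (n + 2)) (j0 : ℕ)
    (hcard₁ : ∀ j, j0 ≤ j → c₁ * ((2 : ℝ) ^ j) ^ κ₁ ≤ ((𝒟₁ j).card : ℝ))
    (hcard₂ : ∀ j, j0 ≤ j → c₂ * ((2 : ℝ) ^ j) ^ κ₂ ≤ ((𝒟₂ j).card : ℝ)) :
    ∃ C7 : ℝ, 0 < C7 ∧ ∀ H : ℕ, 1 ≤ H → ∀ᶠ j : ℕ in atTop,
      (mu (m + 1 + J)).real {θ | (((𝒟₂ j).card : ℕ) : ℝ) ≤
        ((ES n m (m + 1 + J) (2 ^ j) H (𝒟₁ j) J θ).card : ℝ)} ≤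
      C7 * (H : ℝ) ^ 2 * (((j : ℝ) + 1) ^ (m + 1) * (2 : ℝ) ^ (-((j : ℝ) * η))) := by
  obtain ⟨C3, hC31, hV⟩ := V0_measure n m (m + 1 + J) hm (by omega)
  have hm0 : (1 : ℝ) ≤ m := by exact_mod_cast hm
  set s : ℕ := m + 1 + J with hs
  have hs1 : (1 : ℝ) ≤ s := by
    have : 1 ≤ s := by omega
    exact_mod_cast this
  -- constants
  obtain ⟨C6, hC6⟩ : ∃ C6 : ℝ, C6 = 2 + Real.log (4 * s) := ⟨_, rfl⟩
  have hlog0 : 0 ≤ Real.log (4 * (s : ℝ)) := Real.log_nonneg (by linarith)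
  have hC60 : 0 < C6 := by rw [hC6]; linarith
  have hl : ∀ j : ℕ, 1 + Real.log (4 * s * ((2 ^ j : ℕ) : ℝ)) ≤ C6 * (j + 1) := by
    intro j
    push_cast
    rw [Real.log_mul (by positivity) (by positivity), Real.log_pow]
    have h2 : Real.log 2 ≤ 1 := by
      have := Real.log_two_lt_d9
      linarith
    have hj : (0 : ℝ) ≤ j := Nat.cast_nonneg j
    have h3 : (j : ℝ) * Real.log 2 ≤ j := by nlinarith
    rw [hC6]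
    nlinarith
  refine ⟨C3 * (1 / c₁ + C6 ^ (m + 1) * 2 ^ m) + 8 * J, by positivity, ?_⟩
  intro H hH
  have hH0 : (1 : ℝ) ≤ H := by exact_mod_cast hH
  -- the smallness condition holds eventually
  have hxlt : (2 : ℝ) ^ (-(1 / ((m : ℝ) + 1))) < 1 :=
    Real.rpow_lt_one_of_one_lt_of_neg (by norm_num) (by
      have : (0 : ℝ) < 1 / (m + 1) := by positivity
      linarith)
  have hx0 : (0 : ℝ) < (2 : ℝ) ^ (-(1 / ((m : ℝ) + 1))) := by positivity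
  have hxj : ∀ j : ℕ, (2 : ℝ) ^ (-((j : ℝ) / (m + 1))) = ((2 : ℝ) ^ (-(1 / ((m : ℝ) + 1)))) ^ j := by
    intro j
    rw [← Real.rpow_natCast, ← Real.rpow_mul (by norm_num)]
    congr 1
    ring
  have hev : ∀ᶠ j : ℕ in atTop, C3 * (3 * (2 : ℝ) ^ m * (2 : ℝ) ^ (-((j : ℝ) / (m + 1)))) ≤ 1 := by
    have h1 : Tendsto (fun j : ℕ => C3 * (3 * (2 : ℝ) ^ m * ((2 : ℝ) ^ (-(1 / ((m : ℝ) + 1)))) ^ j)) atTop
        (nhds (C3 * (3 * (2 : ℝ) ^ m * 0))) :=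
      ((tendsto_pow_atTop_nhds_zero_of_lt_one hx0.le hxlt).const_mul _).const_mul _
    rw [mul_zero, mul_zero] at h1
    have h2 := h1.eventually (gt_mem_nhds (show (0 : ℝ) < 1 by norm_num))
    filter_upwards [h2] with j hj
    rw [hxj]
    exact hj.le
  -- the last threshold is at most the cardinality of the second set
  set ρ : ℕ → ℝ := fun l => ((n : ℝ) + 2) - η - 2 ^ l * (μ - 2 * η) with hρ
  have hev2 : ∀ᶠ j : ℕ in atTop, (2 : ℝ) ^ ((j : ℝ) * ρ J) ≤ c₂ * ((2 : ℝ) ^ j) ^ κ₂ := by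
    have hlt : (2 : ℝ) ^ (ρ J - κ₂) < 1 := Real.rpow_lt_one_of_one_lt_of_neg (by norm_num) (by
      simp only [hρ]
      linarith)
    have h1 := tendsto_pow_atTop_nhds_zero_of_lt_one (by positivity) hlt
    have h2 := h1.eventually (gt_mem_nhds hc₂)
    filter_upwards [h2] with j hj
    have h3 : (2 : ℝ) ^ ((j : ℝ) * ρ J) = ((2 : ℝ) ^ (ρ J - κ₂)) ^ j * ((2 : ℝ) ^ j) ^ κ₂ := by
      rw [← Real.rpow_natCast, ← Real.rpow_natCast, ← Real.rpow_mul (by norm_num), ← Real.rpow_mul (by norm_num),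
        ← Real.rpow_add (by norm_num)]
      congr 1
      ring
    rw [h3]
    exact mul_le_mul_of_nonneg_right hj.le (by positivity)
  filter_upwards [hev, hev2, eventually_ge_atTop j0, eventually_ge_atTop 1] with j hj hj2 hjj hj1
  have hP : 1 ≤ 2 ^ j := Nat.one_le_two_pow
  have hP2 : 2 ≤ 2 ^ j := by
    calc 2 = 2 ^ 1 := rfl
      _ ≤ 2 ^ j := Nat.pow_le_pow_right (by norm_num) hj1
  set a : ℕ → ℝ := fun l => (2 : ℝ) ^ ((j : ℝ) * ρ l) with ha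
  have ha0 : ∀ l, 0 < a l := fun l => by simp only [ha]; positivity
  have hcard1j := hcard₁ j hjj
  have hcard2j := hcard₂ j hjj
  have hcpos1 : 0 < c₁ * ((2 : ℝ) ^ j) ^ κ₁ := by positivity
  have hD1 : (0 : ℝ) < ((𝒟₁ j).card : ℝ) := lt_of_lt_of_le hcpos1 hcard1j
  have hne : (𝒟₁ j).Nonempty := by
    rw [← Finset.card_pos]
    exact_mod_cast hD1
  -- the chain
  have hchain := iter n m s (2 ^ j) H hP2 hH (𝒟₁ j) a ha0 J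
  have hbase := base n m s (2 ^ j) H (𝒟₁ j) (a 0)
  have hmono : mu (m + 1 + J) {θ | (((𝒟₂ j).card : ℕ) : ℝ) ≤ ((ES n m s (2 ^ j) H (𝒟₁ j) J θ).card : ℝ)} ≤
      mu (m + 1 + J) {θ | a J ≤ ((ES n m s (2 ^ j) H (𝒟₁ j) J θ).card : ℝ)} := by
    refine measure_mono fun θ hθ => ?_
    have h1 : (((𝒟₂ j).card : ℕ) : ℝ) ≤ ((ES n m s (2 ^ j) H (𝒟₁ j) J θ).card : ℝ) := hθ
    show a J ≤ ((ES n m s (2 ^ j) H (𝒟₁ j) J θ).card : ℝ)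
    exact (hj2.trans hcard2j).trans h1
  have hstep : ∀ l ∈ range J, ENNReal.ofReal (8 * a l ^ 2 / (H * ((2 ^ j : ℕ) : ℝ) ^ (n + 2) * a (l + 1))) ≤
      ENNReal.ofReal (8 * (2 : ℝ) ^ (-((j : ℝ) * η))) := by
    intro l _
    refine ENNReal.ofReal_le_ofReal ?_
    have e1 : a l ^ 2 = (((2 ^ j : ℕ) : ℝ) ^ (n + 2) * a (l + 1)) * (2 : ℝ) ^ (-((j : ℝ) * η)) := by
      simp only [ha]
      push_cast
      rw [two_pow_rpow, ← Real.rpow_natCast, ← Real.rpow_mul (by norm_num), ← Real.rpow_add (by norm_num),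
        ← Real.rpow_add (by norm_num)]
      congr 1
      simp only [hρ]
      push_cast
      ring
    have hX : 0 < ((2 ^ j : ℕ) : ℝ) ^ (n + 2) * a (l + 1) := mul_pos (by positivity) (ha0 _)
    rw [e1, mul_assoc (H : ℝ)]
    have e2 : 8 * ((((2 ^ j : ℕ) : ℝ) ^ (n + 2) * a (l + 1)) * (2 : ℝ) ^ (-((j : ℝ) * η))) /
        (H * (((2 ^ j : ℕ) : ℝ) ^ (n + 2) * a (l + 1))) = 8 * (2 : ℝ) ^ (-((j : ℝ) * η)) / H :=
      aux_div hX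
    rw [e2]
    exact div_le_self (by positivity) hH0
  have hR1 : 1 ≤ 2 ^ ee m j := Nat.one_le_two_pow
  have hsm : C3 * (((2 ^ ee m j : ℕ) : ℝ) / ((2 ^ j : ℕ) : ℝ) +
      ((2 ^ ee m j : ℕ) : ℝ) ^ (m + 2) / ((2 ^ j : ℕ) : ℝ) ^ (m + 1) + 1 / ((2 ^ ee m j : ℕ) : ℝ) ^ m) ≤ 1 :=
    (mul_le_mul_of_nonneg_left (small_terms m j hm) (by linarith)).trans hj
  have hB1 : 1 ≤ ⌈a 0⌉₊ := Nat.one_le_ceil_iff.2 (ha0 0)
  have hVj := hV (2 ^ j) H ⌈a 0⌉₊ (𝒟₁ j) (2 ^ ee m j) hP hH hB1 (h𝒟₁ j) hne hR1 hsm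
  have eκ : ∀ κ : ℝ, ((2 : ℝ) ^ j) ^ κ = (2 : ℝ) ^ ((j : ℝ) * κ) := by
    intro κ
    rw [← Real.rpow_natCast, ← Real.rpow_mul (by norm_num)]
  have hjr : (0 : ℝ) ≤ j := Nat.cast_nonneg j
  have hj1p : (1 : ℝ) ≤ ((j : ℝ) + 1) ^ (m + 1) := one_le_pow₀ (by linarith)
  -- first term
  have ht1 : ((2 ^ j : ℕ) : ℝ) ^ (2 * (n + 2)) / (((𝒟₁ j).card : ℝ) * ((2 ^ j : ℕ) : ℝ) ^ (m + 1)) ≤
      1 / c₁ * (2 : ℝ) ^ ((j : ℝ) * ((n : ℝ) + 2 - μ)) := by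
    push_cast
    have h1 : ((2 : ℝ) ^ j) ^ (2 * (n + 2)) / (((𝒟₁ j).card : ℝ) * ((2 : ℝ) ^ j) ^ (m + 1)) ≤
        ((2 : ℝ) ^ j) ^ (2 * (n + 2)) / ((c₁ * ((2 : ℝ) ^ j) ^ κ₁) * ((2 : ℝ) ^ j) ^ (m + 1)) := by
      refine div_le_div_of_nonneg_left (by positivity) (by positivity) ?_
      exact mul_le_mul_of_nonneg_right hcard1j (by positivity)
    refine h1.trans ?_
    rw [eκ, two_pow_rpow, two_pow_rpow]
    have e2 : (2 : ℝ) ^ ((j : ℝ) * ((2 * (n + 2) : ℕ) : ℝ)) =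
        (2 : ℝ) ^ ((j : ℝ) * (2 * ((n : ℝ) + 2) - κ₁ - (m + 1))) * ((2 : ℝ) ^ ((j : ℝ) * κ₁) *
          (2 : ℝ) ^ ((j : ℝ) * ((m + 1 : ℕ) : ℝ))) := by
      rw [← Real.rpow_add (by norm_num), ← Real.rpow_add (by norm_num)]
      congr 1
      push_cast
      ring
    have e3 : (2 : ℝ) ^ ((j : ℝ) * ((2 * (n + 2) : ℕ) : ℝ)) / ((c₁ * (2 : ℝ) ^ ((j : ℝ) * κ₁)) *
        (2 : ℝ) ^ ((j : ℝ) * ((m + 1 : ℕ) : ℝ))) =
        1 / c₁ * (2 : ℝ) ^ ((j : ℝ) * (2 * ((n : ℝ) + 2) - κ₁ - (m + 1))) := by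
      rw [e2]
      field_simp
    rw [e3]
    refine mul_le_mul_of_nonneg_left (two_rpow_le ?_) (by positivity)
    refine mul_le_mul_of_nonneg_left ?_ hjr
    linarith
  -- second term
  have ht2 : ((2 ^ j : ℕ) : ℝ) ^ (n + 2) * (1 + Real.log (4 * s * ((2 ^ j : ℕ) : ℝ))) ^ (m + 1) /
      ((2 ^ ee m j : ℕ) : ℝ) ^ m ≤
      C6 ^ (m + 1) * 2 ^ m * (((j : ℝ) + 1) ^ (m + 1) * (2 : ℝ) ^ ((j : ℝ) * ((n : ℝ) + 2 - μ))) := by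
    have h1 := tail_term2 ((n : ℝ) + 2) m j hm
    have h0 : 0 ≤ 1 + Real.log (4 * s * ((2 ^ j : ℕ) : ℝ)) := by
      have h3 : (1 : ℝ) ≤ ((2 ^ j : ℕ) : ℝ) := by exact_mod_cast hP
      have := Real.log_nonneg (h8s_aux hs1 h3)
      linarith
    have h2 : (1 + Real.log (4 * s * ((2 ^ j : ℕ) : ℝ))) ^ (m + 1) ≤ (C6 * (j + 1)) ^ (m + 1) :=
      pow_le_pow_left₀ h0 (hl j) _
    have h4 : ((2 ^ j : ℕ) : ℝ) ^ (n + 2) = (2 : ℝ) ^ ((j : ℝ) * ((n : ℝ) + 2)) := by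
      push_cast
      rw [two_pow_rpow]
      push_cast
      rfl
    have h5 : (2 : ℝ) ^ ((j : ℝ) * (((n : ℝ) + 2) - (m : ℝ) ^ 2 / (m + 1))) ≤ (2 : ℝ) ^ ((j : ℝ) * ((n : ℝ) + 2 - μ)) := by
      refine two_rpow_le (mul_le_mul_of_nonneg_left ?_ hjr)
      linarith
    calc _ = (1 + Real.log (4 * s * ((2 ^ j : ℕ) : ℝ))) ^ (m + 1) *
          ((2 : ℝ) ^ ((j : ℝ) * ((n : ℝ) + 2)) / ((2 ^ ee m j : ℕ) : ℝ) ^ m) := by rw [h4]; ring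
      _ ≤ (C6 * (j + 1)) ^ (m + 1) * ((2 : ℝ) ^ m * (2 : ℝ) ^ ((j : ℝ) * ((n : ℝ) + 2 - μ))) := by
          refine mul_le_mul h2 (h1.trans ?_) (by positivity) (by positivity)
          exact mul_le_mul_of_nonneg_left h5 (by positivity)
      _ = _ := by rw [mul_pow]; ring
  have hceil : a 0 ≤ (⌈a 0⌉₊ : ℝ) := Nat.le_ceil _
  have hE : (2 : ℝ) ^ ((j : ℝ) * ((n : ℝ) + 2 - μ)) / a 0 = (2 : ℝ) ^ (-((j : ℝ) * η)) := by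
    simp only [ha]
    rw [← Real.rpow_sub (by norm_num)]
    congr 1
    simp only [hρ]
    ring
  set X : ℝ := (2 : ℝ) ^ ((j : ℝ) * ((n : ℝ) + 2 - μ)) with hX
  set Y : ℝ := (2 : ℝ) ^ (-((j : ℝ) * η)) with hY
  have hX0 : 0 < X := by simp only [hX]; positivity
  have hY0 : 0 < Y := by simp only [hY]; positivity
  have hVj2 : (mu (m + 1)).real (V0 n m s (2 ^ j) H ⌈a 0⌉₊ (𝒟₁ j)) ≤
      C3 * (1 / c₁ + C6 ^ (m + 1) * 2 ^ m) * (H : ℝ) ^ 2 * (((j : ℝ) + 1) ^ (m + 1) * Y) := by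
    refine hVj.trans ?_
    have h1 : C3 * (H : ℝ) ^ 2 * (((2 ^ j : ℕ) : ℝ) ^ (2 * (n + 2)) / (((𝒟₁ j).card : ℝ) * ((2 ^ j : ℕ) : ℝ) ^ (m + 1)) +
        ((2 ^ j : ℕ) : ℝ) ^ (n + 2) * (1 + Real.log (4 * s * ((2 ^ j : ℕ) : ℝ))) ^ (m + 1) / ((2 ^ ee m j : ℕ) : ℝ) ^ m) ≤
        C3 * (H : ℝ) ^ 2 * ((1 / c₁ + C6 ^ (m + 1) * 2 ^ m) * (((j : ℝ) + 1) ^ (m + 1) * X)) := by
      refine mul_le_mul_of_nonneg_left ?_ (by positivity)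
      refine (add_le_add ht1 ht2).trans ?_
      rw [add_mul]
      refine add_le_add ?_ (le_of_eq (by ring))
      refine mul_le_mul_of_nonneg_left ?_ (by positivity)
      exact le_mul_of_one_le_left hX0.le hj1p
    have h2 : 0 ≤ C3 * (H : ℝ) ^ 2 * ((1 / c₁ + C6 ^ (m + 1) * 2 ^ m) * (((j : ℝ) + 1) ^ (m + 1) * X)) := by
      positivity
    refine (div_le_div₀ h2 h1 (ha0 0) hceil).trans (le_of_eq ?_)
    rw [← hE]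
    ring
  have hreal : (mu (m + 1 + J)) {θ | (((𝒟₂ j).card : ℕ) : ℝ) ≤ ((ES n m s (2 ^ j) H (𝒟₁ j) J θ).card : ℝ)} ≤
      ENNReal.ofReal (C3 * (1 / c₁ + C6 ^ (m + 1) * 2 ^ m) * (H : ℝ) ^ 2 * (((j : ℝ) + 1) ^ (m + 1) * Y) +
        J * (8 * Y)) := by
    refine hmono.trans (hchain.trans ?_)
    rw [ENNReal.ofReal_add (by positivity) (by positivity)]
    refine add_le_add (hbase.trans ?_) ?_
    · rw [← ofReal_measureReal (μ := mu (m + 1)) (s := V0 n m s (2 ^ j) H ⌈a 0⌉₊ (𝒟₁ j)) (measure_ne_top _ _)]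
      exact ENNReal.ofReal_le_ofReal hVj2
    · refine (sum_le_sum hstep).trans (le_of_eq ?_)
      rw [sum_const, card_range, nsmul_eq_mul, ENNReal.ofReal_mul (Nat.cast_nonneg _), ENNReal.ofReal_natCast]
  have h3 : (mu (m + 1 + J)).real {θ | (((𝒟₂ j).card : ℕ) : ℝ) ≤ ((ES n m s (2 ^ j) H (𝒟₁ j) J θ).card : ℝ)} ≤
      C3 * (1 / c₁ + C6 ^ (m + 1) * 2 ^ m) * (H : ℝ) ^ 2 * (((j : ℝ) + 1) ^ (m + 1) * Y) + J * (8 * Y) := by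
    rw [Measure.real]
    exact ENNReal.toReal_le_of_le_ofReal (by positivity) hreal
  refine h3.trans ?_
  have h4 : (J : ℝ) * (8 * Y) ≤ 8 * J * (H : ℝ) ^ 2 * (((j : ℝ) + 1) ^ (m + 1) * Y) := by
    have h5 : Y ≤ ((j : ℝ) + 1) ^ (m + 1) * Y := le_mul_of_one_le_left hY0.le hj1p
    have h6 : (1 : ℝ) ≤ (H : ℝ) ^ 2 := one_le_pow₀ hH0
    have h7 : ((j : ℝ) + 1) ^ (m + 1) * Y ≤ (H : ℝ) ^ 2 * (((j : ℝ) + 1) ^ (m + 1) * Y) :=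
      le_mul_of_one_le_left (by positivity) h6
    have h8 : (J : ℝ) * (8 * Y) = 8 * J * Y := by ring
    have h9 : 8 * J * (H : ℝ) ^ 2 * (((j : ℝ) + 1) ^ (m + 1) * Y) =
        8 * J * ((H : ℝ) ^ 2 * (((j : ℝ) + 1) ^ (m + 1) * Y)) := by ring
    rw [h8, h9]
    exact mul_le_mul_of_nonneg_left (h5.trans h7) (by positivity)
  have h5 : (C3 * (1 / c₁ + C6 ^ (m + 1) * 2 ^ m) + 8 * J) * (H : ℝ) ^ 2 * (((j : ℝ) + 1) ^ (m + 1) * Y) =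
      C3 * (1 / c₁ + C6 ^ (m + 1) * 2 ^ m) * (H : ℝ) ^ 2 * (((j : ℝ) + 1) ^ (m + 1) * Y) +
      8 * J * (H : ℝ) ^ 2 * (((j : ℝ) + 1) ^ (m + 1) * Y) := by ring
  rw [h5]
  linarith

/-- the set of shifts of the half-open unit cube which are bad at infinitely many scales has dimension
smaller than `m + 1 + J` -/
theorem dim_core2 (n m J : ℕ) (hm : 1 ≤ m) (κ₁ κ₂ c₁ c₂ μ : ℝ) (hc₁ : 0 < c₁) (hc₂ : 0 < c₂)
    (hμ1 : μ ≤ m + 1 + κ₁ - (n + 2)) (hμ2 : μ ≤ (m : ℝ) ^ 2 / (m + 1))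
    (hκ : ((n : ℝ) + 2) - κ₂ < 2 ^ J * μ)
    (𝒟₁ 𝒟₂ : ℕ → Finset ℕ) (h𝒟₁ : ∀ j, ∀ b ∈ 𝒟₁ j, b ≤ (2 ^ j) ^ (n + 2))
    (h𝒟₂ : ∀ j, ∀ b ∈ 𝒟₂ j, b ≤ (2 ^ j) ^ (n + 2)) (j0 : ℕ)
    (hcard₁ : ∀ j, j0 ≤ j → c₁ * ((2 : ℝ) ^ j) ^ κ₁ ≤ ((𝒟₁ j).card : ℝ))
    (hcard₂ : ∀ j, j0 ≤ j → c₂ * ((2 : ℝ) ^ j) ^ κ₂ ≤ ((𝒟₂ j).card : ℝ)) :
    ∃ D : ℝ, 0 < D ∧ D < m + 1 + J ∧ ∀ H : ℕ, 1 ≤ H →
      dimH {θ | ∃ᶠ j in atTop, θ ∈ UU2 n m (m + 1 + J) (2 ^ j) H J (𝒟₁ j) (𝒟₂ j)} ≤ ENNReal.ofReal D := by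
  have hm0 : (1 : ℝ) ≤ m := by exact_mod_cast hm
  have hJ0 : (0 : ℝ) ≤ J := Nat.cast_nonneg J
  have h2J : (1 : ℝ) ≤ 2 ^ J := one_le_pow₀ (by norm_num)
  -- the parameter `η`
  set η : ℝ := (2 ^ J * μ - (((n : ℝ) + 2) - κ₂)) / (4 * 2 ^ J) with hη
  have hη0 : 0 < η := div_pos (by linarith) (by positivity)
  have hη1 : ((n : ℝ) + 2) - η - 2 ^ J * (μ - 2 * η) < κ₂ := by
    have h1 : 2 ^ J * (μ - 2 * η) = 2 ^ J * μ - (2 ^ J * μ - (((n : ℝ) + 2) - κ₂)) / 2 := by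
      simp only [hη]
      field_simp
      ring
    rw [h1]
    linarith
  obtain ⟨C7, hC70, hC7⟩ := measure_bad n m J hm κ₁ κ₂ c₁ c₂ μ η hc₁ hc₂ hμ1 hμ2 hη1 𝒟₁ 𝒟₂ h𝒟₁ j0 hcard₁ hcard₂
  set σ : ℝ := min η 1 / 2 with hσ
  have hσ0 : 0 < σ := by
    simp only [hσ]
    positivity
  have hση : σ < η := by
    have := min_le_left η 1
    simp only [hσ]
    linarith
  have hσ1 : σ < 1 := by
    have := min_le_right η 1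
    simp only [hσ]
    linarith
  set ζ : ℝ := σ / (n + 1) with hζ
  have hζ0 : 0 < ζ := by simp only [hζ]; positivity
  have hζ1 : ζ < 1 := by
    have h1 : ζ ≤ σ := by
      simp only [hζ]
      exact div_le_self hσ0.le (by linarith [(Nat.cast_nonneg n : (0 : ℝ) ≤ n)])
    linarith
  refine ⟨m + 1 + J - ζ, by linarith, by linarith, ?_⟩
  intro H hH
  have hH0 : (1 : ℝ) ≤ H := by exact_mod_cast hH
  have hs : 1 ≤ m + 1 + J := by omega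
  have hDpos : (0 : ℝ) < m + 1 + J - ζ := by linarith
  have hmono : {θ | ∃ᶠ j in atTop, θ ∈ UU2 n m (m + 1 + J) (2 ^ j) H J (𝒟₁ j) (𝒟₂ j)} ⊆
      {θ | ∃ᶠ j in atTop, ∃ z ∈ FF2 n m (m + 1 + J) (2 ^ j) H J (𝒟₁ j) (𝒟₂ j),
        θ ∈ cube (m + 1 + J) (NN2 n (m + 1 + J) (m + 1 + J) (2 ^ j) H) z} := by
    intro θ hθ
    exact hθ.mono fun j hj => UU2_cover n m (m + 1 + J) (2 ^ j) H J hs (Nat.one_le_two_pow) hH (𝒟₁ j) (𝒟₂ j) θ hj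
  refine (dimH_mono hmono).trans ?_
  refine Pool.Agent.N84.MD.core (fun j z => cube (m + 1 + J) (NN2 n (m + 1 + J) (m + 1 + J) (2 ^ j) H) z)
    (m + 1 + J - ζ) hDpos
    (fun j => FF2 n m (m + 1 + J) (2 ^ j) H J (𝒟₁ j) (𝒟₂ j))
    (fun j => 1 / (NN2 n (m + 1 + J) (m + 1 + J) (2 ^ j) H : ℝ)) (fun j => by positivity)
    (fun j z _ => cube_diam (m + 1 + J) _ (NN2_pos n (m + 1 + J) (m + 1 + J) (2 ^ j) H hs hs Nat.one_le_two_pow hH) z) ?_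
  -- summability
  obtain ⟨N0, hN0def⟩ : ∃ N0 : ℝ, N0 = H * (m + 1 + J) * (n + 2) * (4 * (m + 1 + J)) ^ (n + 1) := ⟨_, rfl⟩
  have hN00 : 0 < N0 := by rw [hN0def]; positivity
  have hNN : ∀ j : ℕ, (NN2 n (m + 1 + J) (m + 1 + J) (2 ^ j) H : ℝ) = N0 * (2 : ℝ) ^ ((j : ℝ) * (n + 1)) := by
    intro j
    unfold NN2
    push_cast
    rw [hN0def, two_pow_rpow]
    push_cast
    ring
  have hNη : ∀ j : ℕ, (NN2 n (m + 1 + J) (m + 1 + J) (2 ^ j) H : ℝ) ^ ζ = N0 ^ ζ * (2 : ℝ) ^ ((j : ℝ) * σ) := by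
    intro j
    rw [hNN, Real.mul_rpow hN00.le (by positivity), ← Real.rpow_mul (by norm_num)]
    congr 2
    simp only [hζ]
    field_simp
  have hbound : ∀ j : ℕ, ((FF2 n m (m + 1 + J) (2 ^ j) H J (𝒟₁ j) (𝒟₂ j)).card : ℝ) *
      (1 / (NN2 n (m + 1 + J) (m + 1 + J) (2 ^ j) H : ℝ)) ^ ((m : ℝ) + 1 + J - ζ) ≤
      N0 ^ ζ * (2 : ℝ) ^ ((j : ℝ) * σ) * (mu (m + 1 + J)).real {θ | (((𝒟₂ j).card : ℕ) : ℝ) ≤
        ((ES n m (m + 1 + J) (2 ^ j) H (𝒟₁ j) J θ).card : ℝ)} := by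
    intro j
    have h1 := FF2_card n m (m + 1 + J) (2 ^ j) H J hs Nat.one_le_two_pow hH (𝒟₁ j) (𝒟₂ j) (h𝒟₂ j)
    have hNp : (0 : ℝ) < (NN2 n (m + 1 + J) (m + 1 + J) (2 ^ j) H : ℝ) := by
      exact_mod_cast NN2_pos n (m + 1 + J) (m + 1 + J) (2 ^ j) H hs hs Nat.one_le_two_pow hH
    have h2 : (1 / (NN2 n (m + 1 + J) (m + 1 + J) (2 ^ j) H : ℝ)) ^ ((m : ℝ) + 1 + J - ζ) =
        (NN2 n (m + 1 + J) (m + 1 + J) (2 ^ j) H : ℝ) ^ ζ /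
          (NN2 n (m + 1 + J) (m + 1 + J) (2 ^ j) H : ℝ) ^ (m + 1 + J) := by
      rw [one_div, Real.inv_rpow hNp.le, ← Real.rpow_neg hNp.le, ← Real.rpow_natCast, ← Real.rpow_sub hNp]
      congr 1
      push_cast
      ring
    rw [h2]
    set Nv : ℝ := (NN2 n (m + 1 + J) (m + 1 + J) (2 ^ j) H : ℝ) with hNv
    set Mv : ℝ := (mu (m + 1 + J)).real {θ | (((𝒟₂ j).card : ℕ) : ℝ) ≤
        ((ES n m (m + 1 + J) (2 ^ j) H (𝒟₁ j) J θ).card : ℝ)} with hMv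
    calc _ ≤ (Nv ^ (m + 1 + J) * Mv) * (Nv ^ ζ / Nv ^ (m + 1 + J)) :=
          mul_le_mul_of_nonneg_right h1 (by positivity)
      _ = Nv ^ ζ * Mv := by
          have : Nv ^ (m + 1 + J) ≠ 0 := by positivity
          field_simp
      _ = _ := by rw [hNη]
  set r : ℝ := (2 : ℝ) ^ (σ - η) with hr
  have hrl : r < 1 := Real.rpow_lt_one_of_one_lt_of_neg (by norm_num) (by linarith)
  have hr0 : 0 < r := by simp only [hr]; positivity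
  set A : ℝ := N0 ^ ζ * (C7 * (H : ℝ) ^ 2) with hA
  have hS : Summable fun j : ℕ => A * (((j : ℝ) + 1) ^ (m + 1) * r ^ j) := by
    refine Summable.mul_left A ?_
    have h1 := summable_pow_mul_geometric_of_norm_lt_one (R := ℝ) (m + 1) (r := r)
      (by rw [Real.norm_of_nonneg hr0.le]; exact hrl)
    have h2 := (summable_nat_add_iff 1).2 h1
    have h3 := h2.mul_left (r⁻¹)
    refine h3.congr fun j => ?_
    push_cast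
    rw [pow_succ r j]
    field_simp
  refine Summable.of_norm_bounded_eventually_nat hS ?_
  filter_upwards [hC7 H hH] with j hj
  rw [Real.norm_of_nonneg (by positivity)]
  refine (hbound j).trans ?_
  have e1 : (2 : ℝ) ^ ((j : ℝ) * σ) * (2 : ℝ) ^ (-((j : ℝ) * η)) = r ^ j := by
    rw [← Real.rpow_add (by norm_num), hr, ← Real.rpow_natCast, ← Real.rpow_mul (by norm_num)]
    congr 1
    ring
  calc N0 ^ ζ * (2 : ℝ) ^ ((j : ℝ) * σ) * (mu (m + 1 + J)).real {θ | (((𝒟₂ j).card : ℕ) : ℝ) ≤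
        ((ES n m (m + 1 + J) (2 ^ j) H (𝒟₁ j) J θ).card : ℝ)}
      ≤ N0 ^ ζ * (2 : ℝ) ^ ((j : ℝ) * σ) * (C7 * (H : ℝ) ^ 2 * (((j : ℝ) + 1) ^ (m + 1) * (2 : ℝ) ^ (-((j : ℝ) * η)))) :=
        mul_le_mul_of_nonneg_left hj (by positivity)
    _ = A * (((j : ℝ) + 1) ^ (m + 1) * ((2 : ℝ) ^ ((j : ℝ) * σ) * (2 : ℝ) ^ (-((j : ℝ) * η)))) := by
        simp only [hA]
        ring
    _ = _ := by rw [e1]

end Pool.Agent.D0H17.MW2
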