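import Pool.Agent.D0H17.MW2.Chain

set_option autoImplicit false

/-! The exceptional sets and the iteration. -/

namespace Pool.Agent.D0H17.MW2

open Finset MeasureTheory Pool.Agent.D0H17.MW
open scoped ENNReal

/-- the exceptional integers at level `j` -/
def Ex (n m s P H : ℕ) (𝒟 : Finset ℕ) : (j : ℕ) → (Fin (m + 1 + j) → ℝ) → ℕ → Prop
  | 0, θ, i => H * ((m + 1) * (2 * P) ^ (n + 2)) ≤ i + 2 * (H * P ^ (n + 2)) ∧
      i ≤ H * (s * (4 * P) ^ (n + 2)) ∧ rr (n + 2) P (4 * s * P) (m + 1) H 𝒟 θ i = 0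
  | j + 1, θ, i => 0 < i ∧ i ≤ H * (s * (4 * P) ^ (n + 2)) ∧
      ∀ y ∈ Ico P (2 * P), Ex n m s P H 𝒟 j (fun l => θ l.succ) ⌊(i : ℝ) - H * ((y : ℝ) + θ 0) ^ (n + 2)⌋₊

lemma Ex_pos (n m s P H : ℕ) (hP : 1 ≤ P) (hH : 1 ≤ H) (𝒟 : Finset ℕ) (j : ℕ) (θ : Fin (m + 1 + j) → ℝ) (i : ℕ)
    (h : Ex n m s P H 𝒟 j θ i) : 0 < i := by
  cases j with
  | zero =>
    have h1 := h.1
    have h2 : 4 * P ^ (n + 2) ≤ (2 * P) ^ (n + 2) := by
      rw [mul_pow]
      refine Nat.mul_le_mul_right _ ?_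
      calc 4 = 2 ^ 2 := by norm_num
        _ ≤ 2 ^ (n + 2) := Nat.pow_le_pow_right (by norm_num) (by omega)
    have h3 : (2 * P) ^ (n + 2) ≤ (m + 1) * (2 * P) ^ (n + 2) := Nat.le_mul_of_pos_left _ (by omega)
    have h4 : H * (4 * P ^ (n + 2)) ≤ H * ((m + 1) * (2 * P) ^ (n + 2)) := Nat.mul_le_mul_left _ (h2.trans h3)
    have h5 : 0 < H * P ^ (n + 2) := by positivity
    have h6 : H * (4 * P ^ (n + 2)) = 4 * (H * P ^ (n + 2)) := by ring
    omega
  | succ j => exact h.1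

lemma Ex_le (n m s P H : ℕ) (𝒟 : Finset ℕ) (j : ℕ) (θ : Fin (m + 1 + j) → ℝ) (i : ℕ)
    (h : Ex n m s P H 𝒟 j θ i) : i ≤ H * (s * (4 * P) ^ (n + 2)) := by
  cases j with
  | zero => exact h.2.1
  | succ j => exact h.2.1

lemma meas_Ex (n m s P H : ℕ) (𝒟 : Finset ℕ) (j : ℕ) : ∀ i : ℕ,
    MeasurableSet {θ : Fin (m + 1 + j) → ℝ | Ex n m s P H 𝒟 j θ i} := by
  induction j with
  | zero =>
    intro i
    have h1 : MeasurableSet {θ : Fin (m + 1) → ℝ | rr (n + 2) P (4 * s * P) (m + 1) H 𝒟 θ i = 0} :=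
      (isClosed_singleton.preimage (continuous_rr (n + 2) P (4 * s * P) (m + 1) H 𝒟 i)).measurableSet
    exact (MeasurableSet.const _).inter ((MeasurableSet.const _).inter h1)
  | succ j ih =>
    intro i
    have h0 : Measurable fun θ : Fin (m + 1 + j + 1) → ℝ => fun l : Fin (m + 1 + j) => θ l.succ :=
      measurable_pi_iff.2 fun l => measurable_pi_apply _
    have h1 : ∀ y ∈ Ico P (2 * P), MeasurableSet {θ : Fin (m + 1 + j + 1) → ℝ |
        Ex n m s P H 𝒟 j (fun l => θ l.succ) ⌊(i : ℝ) - H * ((y : ℝ) + θ 0) ^ (n + 2)⌋₊} := by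
      intro y _
      have h2 : {θ : Fin (m + 1 + j + 1) → ℝ |
          Ex n m s P H 𝒟 j (fun l => θ l.succ) ⌊(i : ℝ) - H * ((y : ℝ) + θ 0) ^ (n + 2)⌋₊} =
          ⋃ e : ℕ, ({θ : Fin (m + 1 + j + 1) → ℝ | ⌊(i : ℝ) - H * ((y : ℝ) + θ 0) ^ (n + 2)⌋₊ = e} ∩
            (fun θ : Fin (m + 1 + j + 1) → ℝ => fun l : Fin (m + 1 + j) => θ l.succ) ⁻¹' {θ | Ex n m s P H 𝒟 j θ e}) := by
        ext θ
        simp only [Set.mem_iUnion, Set.mem_inter_iff, Set.mem_ofPred_eq, Set.mem_preimage]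
        constructor
        · intro h
          exact ⟨_, rfl, h⟩
        · rintro ⟨e, he, h⟩
          rw [he]
          exact h
      rw [h2]
      refine MeasurableSet.iUnion fun e => MeasurableSet.inter ?_ (h0 (ih e))
      have h3 : Measurable fun θ : Fin (m + 1 + j + 1) → ℝ => ⌊(i : ℝ) - H * ((y : ℝ) + θ 0) ^ (n + 2)⌋₊ := by
        refine Nat.measurable_floor.comp ?_
        have h4 : Continuous fun θ : Fin (m + 1 + j + 1) → ℝ => (i : ℝ) - H * ((y : ℝ) + θ 0) ^ (n + 2) := by fun_prop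
        exact h4.measurable
      exact h3 (measurableSet_singleton e)
    have h2 : MeasurableSet {θ : Fin (m + 1 + j + 1) → ℝ | ∀ y ∈ Ico P (2 * P),
        Ex n m s P H 𝒟 j (fun l => θ l.succ) ⌊(i : ℝ) - H * ((y : ℝ) + θ 0) ^ (n + 2)⌋₊} := by
      have h3 := Finset.measurableSet_biInter (Ico P (2 * P)) h1
      convert h3 using 1
      ext θ
      simp only [Set.mem_iInter, Set.mem_ofPred_eq]
    exact (MeasurableSet.const _).inter ((MeasurableSet.const _).inter h2)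

open Classical in
/-- the set of the exceptional integers -/
noncomputable def ES (n m s P H : ℕ) (𝒟 : Finset ℕ) (j : ℕ) (θ : Fin (m + 1 + j) → ℝ) : Finset ℕ :=
  (range (H * (s * (4 * P) ^ (n + 2)) + 1)).filter fun i => Ex n m s P H 𝒟 j θ i

lemma mem_ES (n m s P H : ℕ) (𝒟 : Finset ℕ) (j : ℕ) (θ : Fin (m + 1 + j) → ℝ) (i : ℕ) :
    i ∈ ES n m s P H 𝒟 j θ ↔ Ex n m s P H 𝒟 j θ i := by
  classical
  unfold ES
  rw [mem_filter, mem_range]
  constructor
  · exact fun h => h.2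
  · intro h
    have := Ex_le n m s P H 𝒟 j θ i h
    exact ⟨by omega, h⟩

lemma meas_card (n m s P H : ℕ) (𝒟 : Finset ℕ) (j : ℕ) :
    Measurable fun θ : Fin (m + 1 + j) → ℝ => (ES n m s P H 𝒟 j θ).card := by
  classical
  have h1 : (fun θ : Fin (m + 1 + j) → ℝ => (ES n m s P H 𝒟 j θ).card) =
      fun θ => ∑ i ∈ range (H * (s * (4 * P) ^ (n + 2)) + 1), if Ex n m s P H 𝒟 j θ i then 1 else 0 := by
    funext θ
    unfold ES
    rw [card_filter]
  rw [h1]
  refine Finset.measurable_sum _ fun i _ => ?_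
  exact Measurable.ite (meas_Ex n m s P H 𝒟 j i) measurable_const measurable_const

lemma lint_cons (m : ℕ) (f : (Fin (m + 1) → ℝ) → ℝ≥0∞) (hf : Measurable f) :
    ∫⁻ θ, f θ ∂(mu (m + 1)) = ∫⁻ θ', ∫⁻ x, f (Fin.cons x θ') ∂nu ∂(mu m) := by
  rw [mu_eq, mu_eq]
  have h1 := measurePreserving_piFinSuccAbove (fun _ : Fin (m + 1) => nu) 0
  have h2 : ∀ θ : Fin (m + 1) → ℝ, f θ = (fun p : ℝ × (Fin m → ℝ) => f (Fin.cons p.1 p.2))
      ((MeasurableEquiv.piFinSuccAbove (fun _ => ℝ) 0) θ) := by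
    intro θ
    have h3 : (Fin.cons ((MeasurableEquiv.piFinSuccAbove (fun _ => ℝ) 0) θ).1
      ((MeasurableEquiv.piFinSuccAbove (fun _ => ℝ) 0) θ).2 : Fin (m + 1) → ℝ) = θ := by
      funext j
      refine Fin.cases ?_ (fun j => ?_) j
      · rfl
      · rfl
    simp only
    rw [h3]
  have hc : Measurable fun p : ℝ × (Fin m → ℝ) => f (Fin.cons p.1 p.2) := by
    refine hf.comp ?_
    refine measurable_pi_iff.2 fun j => ?_
    refine Fin.cases ?_ (fun j => ?_) j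
    · simp only [Fin.cons_zero]; exact measurable_fst
    · simp only [Fin.cons_succ]; exact (measurable_pi_apply j).comp measurable_snd
  have h4 : ∫⁻ θ, f θ ∂(Measure.pi fun _ : Fin (m + 1) => nu) =
      ∫⁻ p : ℝ × (Fin m → ℝ), f (Fin.cons p.1 p.2) ∂(nu.prod (Measure.pi fun _ : Fin m => nu)) := by
    rw [lintegral_congr h2]
    exact h1.lintegral_comp hc
  rw [h4, lintegral_prod_symm _ hc.aemeasurable]

/-- one step of the iteration -/
lemma step (n m s P H : ℕ) (hP : 2 ≤ P) (hH : 1 ≤ H) (𝒟 : Finset ℕ) (j : ℕ) (a b : ℝ) (hb : 0 < b) :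
    mu (m + 1 + (j + 1)) {θ | b ≤ ((ES n m s P H 𝒟 (j + 1) θ).card : ℝ)} ≤
      mu (m + 1 + j) {θ | a ≤ ((ES n m s P H 𝒟 j θ).card : ℝ)} +
        ENNReal.ofReal (8 * a ^ 2 / (H * (P : ℝ) ^ (n + 2) * b)) := by
  classical
  have hP0 : (2 : ℝ) ≤ P := by exact_mod_cast hP
  have hH0 : (1 : ℝ) ≤ H := by exact_mod_cast hH
  set tl : (Fin (m + 1 + (j + 1)) → ℝ) → (Fin (m + 1 + j) → ℝ) := fun θ l => θ l.succ with htl
  have htlm : Measurable tl := measurable_pi_iff.2 fun l => measurable_pi_apply _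
  have hmc : ∀ j, Measurable fun θ : Fin (m + 1 + j) → ℝ => ((ES n m s P H 𝒟 j θ).card : ℝ) := fun j =>
    (measurable_of_countable (fun n : ℕ => (n : ℝ))).comp (meas_card n m s P H 𝒟 j)
  have hmcE : ∀ j, Measurable fun θ : Fin (m + 1 + j) → ℝ => ((ES n m s P H 𝒟 j θ).card : ℝ≥0∞) := fun j =>
    (measurable_of_countable (fun n : ℕ => (n : ℝ≥0∞))).comp (meas_card n m s P H 𝒟 j)
  set Bd : Set (Fin (m + 1 + j) → ℝ) := {θ | a ≤ ((ES n m s P H 𝒟 j θ).card : ℝ)} with hBd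
  have hBdm : MeasurableSet Bd := measurableSet_le measurable_const (hmc j)
  set f : (Fin (m + 1 + (j + 1)) → ℝ) → ℝ≥0∞ :=
    fun θ => if tl θ ∈ Bd then 0 else ((ES n m s P H 𝒟 (j + 1) θ).card : ℝ≥0∞) with hf
  have hfm : Measurable f := Measurable.ite (htlm hBdm) measurable_const (hmcE (j + 1))
  have hsub : {θ | b ≤ ((ES n m s P H 𝒟 (j + 1) θ).card : ℝ)} ⊆ tl ⁻¹' Bd ∪ {θ | ENNReal.ofReal b ≤ f θ} := by
    intro θ hθ
    by_cases h : tl θ ∈ Bd
    · exact Or.inl h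
    · refine Or.inr ?_
      show ENNReal.ofReal b ≤ f θ
      simp only [hf]
      rw [if_neg h, ← ENNReal.ofReal_natCast]
      exact ENNReal.ofReal_le_ofReal hθ
  refine (measure_mono hsub).trans ((measure_union_le _ _).trans ?_)
  refine add_le_add (le_of_eq ?_) ?_
  · -- the marginal
    have h1 : mu (m + 1 + (j + 1)) (tl ⁻¹' Bd) =
        ∫⁻ θ, (tl ⁻¹' Bd).indicator (fun _ => (1 : ℝ≥0∞)) θ ∂(mu (m + 1 + (j + 1))) := by
      rw [lintegral_indicator (htlm hBdm), setLIntegral_const, one_mul]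
    have h2 : ∫⁻ θ, (tl ⁻¹' Bd).indicator (fun _ => (1 : ℝ≥0∞)) θ ∂(mu (m + 1 + (j + 1))) =
        ∫⁻ θ', ∫⁻ x, (tl ⁻¹' Bd).indicator (fun _ => (1 : ℝ≥0∞)) (Fin.cons x θ') ∂nu ∂(mu (m + 1 + j)) :=
      lint_cons (m + 1 + j) _ (measurable_const.indicator (htlm hBdm))
    rw [h1, h2]
    have h3 : ∀ (θ' : Fin (m + 1 + j) → ℝ) (x : ℝ), (tl ⁻¹' Bd).indicator (fun _ => (1 : ℝ≥0∞)) (Fin.cons x θ') =
        Bd.indicator (fun _ => (1 : ℝ≥0∞)) θ' := by
      intro θ' x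
      have h4 : tl (Fin.cons x θ') = θ' := by
        funext l
        simp only [htl]
        exact Fin.cons_succ _ _ _
      by_cases h : θ' ∈ Bd
      · rw [Set.indicator_of_mem h, Set.indicator_of_mem]
        show tl (Fin.cons x θ') ∈ Bd
        rw [h4]
        exact h
      · rw [Set.indicator_of_notMem h, Set.indicator_of_notMem]
        intro h5
        apply h
        have h6 : tl (Fin.cons x θ') ∈ Bd := h5
        rw [h4] at h6
        exact h6
    simp_rw [h3]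
    simp only [lintegral_const, measure_univ, mul_one]
    rw [lintegral_indicator hBdm, setLIntegral_const, one_mul]
  · -- the Markov inequality
    have h1 : mu (m + 1 + (j + 1)) {θ | ENNReal.ofReal b ≤ f θ} ≤
        (∫⁻ θ, f θ ∂(mu (m + 1 + (j + 1)))) / ENNReal.ofReal b :=
      meas_ge_le_lintegral_div hfm.aemeasurable (by simpa using hb) ENNReal.ofReal_ne_top
    refine h1.trans ?_
    have h2 : ∫⁻ θ, f θ ∂(mu (m + 1 + (j + 1))) = ∫⁻ θ', ∫⁻ x, f (Fin.cons x θ') ∂nu ∂(mu (m + 1 + j)) :=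
      lint_cons (m + 1 + j) f hfm
    have h3 : ∀ θ' : Fin (m + 1 + j) → ℝ, ∫⁻ x, f (Fin.cons x θ') ∂nu ≤
        ENNReal.ofReal (8 * a ^ 2 / (H * (P : ℝ) ^ (n + 2))) := by
      intro θ'
      have h4 : ∀ x : ℝ, tl (Fin.cons x θ') = θ' := by
        intro x
        funext l
        simp only [htl]
        exact Fin.cons_succ _ _ _
      by_cases h : θ' ∈ Bd
      · have h5 : ∀ x : ℝ, f (Fin.cons x θ') = 0 := by
          intro x
          simp only [hf]
          rw [if_pos]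
          rw [h4]
          exact h
        simp_rw [h5]
        simp
      · have h5 : ∀ x : ℝ, f (Fin.cons x θ') = ((ES n m s P H 𝒟 (j + 1) (Fin.cons x θ')).card : ℝ≥0∞) := by
          intro x
          simp only [hf]
          rw [if_neg]
          rw [h4]
          exact h
        simp_rw [h5]
        have h6 : ((ES n m s P H 𝒟 j θ').card : ℝ) ≤ a := by
          by_contra hcon
          apply h
          show a ≤ ((ES n m s P H 𝒟 j θ').card : ℝ)
          exact (not_le.1 hcon).le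
        refine (integral_step n P H hP hH (ES n m s P H 𝒟 j θ')
          (fun e he => Ex_pos n m s P H (by omega) hH 𝒟 j θ' e ((mem_ES n m s P H 𝒟 j θ' e).1 he))
          (fun x => ES n m s P H 𝒟 (j + 1) (Fin.cons x θ')) ?_).trans ?_
        · intro x i hi y hy
          have h7 := (mem_ES n m s P H 𝒟 (j + 1) (Fin.cons x θ') i).1 hi
          have h8 := h7.2.2 y hy
          rw [mem_ES]
          have h9 : (fun l : Fin (m + 1 + j) => (Fin.cons x θ' : Fin (m + 1 + j + 1) → ℝ) l.succ) = θ' := by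
            funext l
            exact Fin.cons_succ _ _ _
          have h10 : (Fin.cons x θ' : Fin (m + 1 + j + 1) → ℝ) 0 = x := Fin.cons_zero _ _
          rw [h9, h10] at h8
          exact h8
        · refine ENNReal.ofReal_le_ofReal ?_
          refine div_le_div_of_nonneg_right ?_ (by positivity)
          refine mul_le_mul_of_nonneg_left ?_ (by norm_num)
          exact pow_le_pow_left₀ (by positivity) h6 2
    have h4 : ∫⁻ θ, f θ ∂(mu (m + 1 + (j + 1))) ≤ ENNReal.ofReal (8 * a ^ 2 / (H * (P : ℝ) ^ (n + 2))) := by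
      rw [h2]
      refine (lintegral_mono h3).trans (le_of_eq ?_)
      simp
    refine (ENNReal.div_le_div_right h4 _).trans (le_of_eq ?_)
    rw [← ENNReal.ofReal_div_of_pos hb, div_div]

/-- the iteration -/
lemma iter (n m s P H : ℕ) (hP : 2 ≤ P) (hH : 1 ≤ H) (𝒟 : Finset ℕ) (a : ℕ → ℝ) (ha : ∀ l, 0 < a l) (j : ℕ) :
    mu (m + 1 + j) {θ | a j ≤ ((ES n m s P H 𝒟 j θ).card : ℝ)} ≤
      mu (m + 1) {θ | a 0 ≤ ((ES n m s P H 𝒟 0 θ).card : ℝ)} +
        ∑ l ∈ range j, ENNReal.ofReal (8 * a l ^ 2 / (H * (P : ℝ) ^ (n + 2) * a (l + 1))) := by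
  induction j with
  | zero => simp
  | succ j ih =>
    rw [sum_range_succ]
    exact ((step n m s P H hP hH 𝒟 j (a j) (a (j + 1)) (ha (j + 1))).trans (add_le_add ih le_rfl)).trans
      (le_of_eq (add_assoc _ _ _))

/-- the first exceptional set -/
lemma base (n m s P H : ℕ) (𝒟 : Finset ℕ) (a : ℝ) :
    mu (m + 1) {θ | a ≤ ((ES n m s P H 𝒟 0 θ).card : ℝ)} ≤ mu (m + 1) (V0 n m s P H ⌈a⌉₊ 𝒟) := by
  have hm : MeasurableSet {θ : Fin (m + 1) → ℝ | a ≤ ((ES n m s P H 𝒟 0 θ).card : ℝ)} :=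
    measurableSet_le measurable_const
      ((measurable_of_countable (fun n : ℕ => (n : ℝ))).comp (meas_card n m s P H 𝒟 0))
  have hV : V0 n m s P H ⌈a⌉₊ 𝒟 ⊆ Set.Icc (0 : Fin (m + 1) → ℝ) 1 := fun θ hθ => hθ.1
  have h1 : mu (m + 1) (V0 n m s P H ⌈a⌉₊ 𝒟) = volume (V0 n m s P H ⌈a⌉₊ 𝒟) := by
    unfold mu
    exact Measure.restrict_eq_self _ hV
  have h2 : mu (m + 1) {θ : Fin (m + 1) → ℝ | a ≤ ((ES n m s P H 𝒟 0 θ).card : ℝ)} =
      volume ({θ : Fin (m + 1) → ℝ | a ≤ ((ES n m s P H 𝒟 0 θ).card : ℝ)} ∩ Set.Icc (0 : Fin (m + 1) → ℝ) 1) := by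
    unfold mu
    exact Measure.restrict_apply hm
  refine le_trans (le_of_eq h2) (le_trans (measure_mono ?_) (le_of_eq h1.symm))
  rintro θ ⟨hθ1, hθ2⟩
  refine ⟨hθ2, ES n m s P H 𝒟 0 θ, Nat.ceil_le.2 hθ1, fun i hi => ?_⟩
  exact (mem_ES n m s P H 𝒟 0 θ i).1 hi

end Pool.Agent.D0H17.MW2
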