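import Pool.Agent.D0H17.MW2.Dim2
import Pool.Agent.D0H17.MW.Final

set_option autoImplicit false

/-! The final theorem, with the iteration. -/

namespace Pool.Agent.D0H17.MW2

open Finset MeasureTheory Filter Pool.Agent.D0H17.MW
open scoped ENNReal

theorem fin_core2 (n t₁ t₂ m J : ℕ) (hm : 1 ≤ m)
    (h1 : ((n : ℝ) + 2) * dl n ^ t₂ < 2 ^ J * ((m : ℝ) + 1 - ((n : ℝ) + 2) * dl n ^ t₁))
    (h2 : ((n : ℝ) + 2) * dl n ^ t₂ < 2 ^ J * ((m : ℝ) ^ 2 / (m + 1))) :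
    dimH {θ : Fin (m + 1 + J) → ℝ | ¬ Cov (n + 2) (t₁ + t₂) (m + 1 + J) θ} < ((m + 1 + J : ℕ) : ℝ≥0∞) := by
  obtain ⟨𝒟₁, c₁, j₁, hc₁, h𝒟₁, hcard₁⟩ := sets n t₁
  obtain ⟨𝒟₂, c₂, j₂, hc₂, h𝒟₂, hcard₂⟩ := sets n t₂
  have hμ1 := min_le_left ((m : ℝ) + 1 - ((n : ℝ) + 2) * dl n ^ t₁) ((m : ℝ) ^ 2 / (m + 1))
  have hμ2 := min_le_right ((m : ℝ) + 1 - ((n : ℝ) + 2) * dl n ^ t₁) ((m : ℝ) ^ 2 / (m + 1))
  have hμ3 : ((n : ℝ) + 2) * dl n ^ t₂ <
      2 ^ J * min ((m : ℝ) + 1 - ((n : ℝ) + 2) * dl n ^ t₁) ((m : ℝ) ^ 2 / (m + 1)) := by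
    rw [mul_min_of_nonneg _ _ (by positivity)]
    exact lt_min h1 h2
  obtain ⟨D, hD0, hD1, hD⟩ := dim_core2 n m J hm (((n : ℝ) + 2) * (1 - dl n ^ t₁)) (((n : ℝ) + 2) * (1 - dl n ^ t₂))
    c₁ c₂ (min ((m : ℝ) + 1 - ((n : ℝ) + 2) * dl n ^ t₁) ((m : ℝ) ^ 2 / (m + 1))) hc₁ hc₂ (by linarith) hμ2
    (by linarith) 𝒟₁ 𝒟₂ (fun j b hb => (h𝒟₁ j b hb).1) (fun j b hb => (h𝒟₂ j b hb).1)
    (max j₁ j₂) (fun j hj => hcard₁ j ((le_max_left _ _).trans hj)) (fun j hj => hcard₂ j ((le_max_right _ _).trans hj))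
  have hsub : {θ : Fin (m + 1 + J) → ℝ | ¬ Cov (n + 2) (t₁ + t₂) (m + 1 + J) θ} ⊆
      ⋃ z : Fin (m + 1 + J) → ℤ, ⋃ H : ℕ,
        (IsometryEquiv.subRight (fun j => (z j : ℝ)) : (Fin (m + 1 + J) → ℝ) ≃ᵢ (Fin (m + 1 + J) → ℝ)) ⁻¹'
        {θ | ∃ᶠ j in atTop, θ ∈ UU2 n m (m + 1 + J) (2 ^ j) (H + 1) J (𝒟₁ j) (𝒟₂ j)} := by
    intro θ hθ
    by_contra hcon
    apply hθ
    simp only [Set.mem_iUnion, not_exists] at hcon
    set z : Fin (m + 1 + J) → ℤ := fun j => ⌊θ j⌋ with hz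
    set θ0 : Fin (m + 1 + J) → ℝ := fun j => θ j - z j with hθ0
    have h01 : ∀ j, 0 ≤ θ0 j ∧ θ0 j < 1 := by
      intro j
      simp only [hθ0, hz]
      have e1 := Int.floor_le (θ j)
      have e2 := Int.lt_floor_add_one (θ j)
      constructor <;> linarith
    have hev : ∀ H : ℕ, ∀ᶠ j in atTop, θ0 ∉ UU2 n m (m + 1 + J) (2 ^ j) (H + 1) J (𝒟₁ j) (𝒟₂ j) := by
      intro H
      have h3 := hcon z H
      simp only [Set.mem_preimage, Set.mem_ofPred_eq, not_frequently] at h3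
      have h4 : (IsometryEquiv.subRight (fun j => (z j : ℝ)) :
          (Fin (m + 1 + J) → ℝ) ≃ᵢ (Fin (m + 1 + J) → ℝ)) θ = θ0 := by
        rfl
      rw [h4] at h3
      exact h3
    intro η hη
    have hJ3 : (0 : ℝ) < (J : ℝ) + 3 := by positivity
    obtain ⟨H, hH⟩ := exists_nat_one_div_lt (div_pos hη hJ3)
    obtain ⟨J1, hJ⟩ := eventually_atTop.1 (hev H)
    set Z : ℕ := ∑ j, (z j).natAbs + 1 with hZ
    set J' : ℕ := max J1 Z with hJ'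
    refine ⟨(m + 1 + J) * (2 * (2 : ℝ) ^ J') ^ (n + 2), fun τ hτ => ?_⟩
    have hm1 : (0 : ℝ) < (m : ℝ) + 1 + J := by positivity
    have hB : (0 : ℝ) < ((m : ℝ) + 1 + J) * 2 ^ (n + 2) := by positivity
    have hy1 : (1 : ℝ) < 2 ^ (n + 2) := one_lt_pow₀ (by norm_num) (by omega)
    have hτx : ((2 : ℝ) ^ (n + 2)) ^ J' ≤ τ / ((m + 1 + J) * 2 ^ (n + 2)) := by
      rw [le_div_iff₀ hB]
      refine le_trans (le_of_eq ?_) hτ
      rw [mul_pow, ← pow_mul, ← pow_mul, mul_comm J']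
      ring
    have hx1 : 1 ≤ τ / ((m + 1 + J) * 2 ^ (n + 2)) := le_trans (one_le_pow₀ hy1.le) hτx
    obtain ⟨j, hj1, hj2⟩ := exists_nat_pow_near hx1 hy1
    have hJj : J' ≤ j := by
      by_contra hlt
      have h3 : ((2 : ℝ) ^ (n + 2)) ^ (j + 1) ≤ ((2 : ℝ) ^ (n + 2)) ^ J' := pow_le_pow_right₀ hy1.le (by omega)
      linarith
    have hτ1 : (m + 1 + J) * (2 * (2 : ℝ) ^ j) ^ (n + 2) ≤ τ := by
      rw [le_div_iff₀ hB] at hj1
      refine le_trans (le_of_eq ?_) hj1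
      rw [mul_pow, ← pow_mul, ← pow_mul, mul_comm j]
      ring
    have hτ2 : τ < (m + 1 + J) * (4 * (2 : ℝ) ^ j) ^ (n + 2) := by
      rw [div_lt_iff₀ hB] at hj2
      refine lt_of_lt_of_le hj2 (le_of_eq ?_)
      rw [show (4 : ℝ) = 2 * 2 by norm_num, mul_pow, mul_pow, ← pow_mul, ← pow_mul, mul_add, mul_one, pow_add,
        mul_comm j]
      ring
    have hτ0 : 0 ≤ τ := le_trans (by positivity) hτ1
    have hH1 : (0 : ℝ) < (H : ℝ) + 1 := by positivity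
    set i : ℕ := ⌊((H : ℝ) + 1) * τ⌋₊ with hi
    have hi1 : (i : ℝ) ≤ ((H : ℝ) + 1) * τ := Nat.floor_le (by positivity)
    have hi2 : ((H : ℝ) + 1) * τ < i + 1 := Nat.lt_floor_add_one _
    have hnot := hJ j ((le_max_left _ _).trans hJj)
    have hex : ∃ b ∈ 𝒟₁ j, ∃ d ∈ 𝒟₂ j, ∃ y : Fin (m + 1 + J) → ℕ, (∀ l, 2 ^ j ≤ y l) ∧
        |((H + 1 : ℕ) : ℝ) * (∑ l, ((y l : ℝ) + θ0 l) ^ (n + 2) + b + d) - i| < (J : ℝ) + 2 := by
      by_contra hno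
      apply hnot
      refine ⟨h01, i, ?_, ?_, ?_⟩
      · refine Nat.le_floor ?_
        push_cast
        exact mul_le_mul_of_nonneg_left hτ1 hH1.le
      · have h3 : (i : ℝ) ≤ (((H + 1) * ((m + 1 + J) * (4 * 2 ^ j) ^ (n + 2)) : ℕ) : ℝ) := by
          refine hi1.trans ?_
          push_cast
          exact mul_le_mul_of_nonneg_left hτ2.le hH1.le
        exact_mod_cast h3
      · intro b hb d hd y hy
        by_contra hc
        exact hno ⟨b, hb, d, hd, y, hy, not_le.1 hc⟩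
    obtain ⟨b, hb, d, hd, y, hy, hc⟩ := hex
    obtain ⟨x1, hx1', hbx⟩ := (h𝒟₁ j b hb).2
    obtain ⟨x2, hx2', hdx⟩ := (h𝒟₂ j d hd).2
    have hZy : ∀ l, (z l).natAbs + 1 ≤ y l := by
      intro l
      have h3 : (z l).natAbs ≤ ∑ j, (z j).natAbs :=
        Finset.single_le_sum (f := fun j => (z j).natAbs) (fun _ _ => Nat.zero_le _) (mem_univ l)
      have h4 : Z < 2 ^ Z := Nat.lt_two_pow_self
      have h5 : 2 ^ Z ≤ 2 ^ j := Nat.pow_le_pow_right (by norm_num) ((le_max_right _ _).trans hJj)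
      have h6 := hy l
      omega
    refine ⟨Fin.append x1 x2, fun l => ((y l : ℤ) - z l).toNat, ?_, ?_, ?_⟩
    · intro l
      refine Fin.addCases (fun a => ?_) (fun a => ?_) l
      · rw [Fin.append_left]; exact hx1' a
      · rw [Fin.append_right]; exact hx2' a
    · intro l
      have := hZy l
      show 1 ≤ ((y l : ℤ) - z l).toNat
      omega
    · have e1 : ∑ l, ((((((y l : ℤ) - z l).toNat : ℕ)) : ℝ) + θ l) ^ (n + 2) = ∑ l, ((y l : ℝ) + θ0 l) ^ (n + 2) := by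
        refine sum_congr rfl fun l _ => ?_
        congr 1
        have h3 := hZy l
        have h4 : ((((y l : ℤ) - z l).toNat : ℕ) : ℤ) = (y l : ℤ) - z l := Int.toNat_of_nonneg (by omega)
        have h5 : ((((y l : ℤ) - z l).toNat : ℕ) : ℝ) = (y l : ℝ) - z l := by
          have : (((((y l : ℤ) - z l).toNat : ℕ) : ℤ) : ℝ) = (((y l : ℤ) - z l : ℤ) : ℝ) := by rw [h4]
          push_cast at this
          exact this
        rw [h5]
        simp only [hθ0]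
        ring
      have e2 : ∑ l, ((Fin.append x1 x2 l : ℕ) : ℝ) ^ (n + 2) = (b : ℝ) + d := by
        rw [Fin.sum_univ_add]
        simp only [Fin.append_left, Fin.append_right]
        rw [hbx, hdx]
        push_cast
        rfl
      rw [e1, e2]
      push_cast at hc
      set F := ∑ l, ((y l : ℝ) + θ0 l) ^ (n + 2)
      have h3 : ((H : ℝ) + 1) * |(b : ℝ) + d + F - τ| < (J : ℝ) + 3 := by
        have e3 : ((H : ℝ) + 1) * ((b : ℝ) + d + F - τ) = ((H : ℝ) + 1) * (F + b + d) - ((H : ℝ) + 1) * τ := by ring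
        have e4 : ((H : ℝ) + 1) * |(b : ℝ) + d + F - τ| = |((H : ℝ) + 1) * ((b : ℝ) + d + F - τ)| := by
          rw [abs_mul, abs_of_pos hH1]
        rw [e4, e3]
        rw [abs_lt] at hc ⊢
        constructor <;> linarith [hc.1, hc.2]
      have h4 : |(b : ℝ) + d + F - τ| < ((J : ℝ) + 3) * (1 / ((H : ℝ) + 1)) := by
        rw [mul_one_div, lt_div_iff₀ hH1]
        linarith
      have h5 : ((J : ℝ) + 3) * (1 / ((H : ℝ) + 1)) < η := by
        have := mul_lt_mul_of_pos_left hH hJ3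
        have e3 : ((J : ℝ) + 3) * (η / ((J : ℝ) + 3)) = η := by field_simp
        rw [e3] at this
        exact this
      linarith
  refine lt_of_le_of_lt (dimH_mono hsub) ?_
  have hle : dimH (⋃ z : Fin (m + 1 + J) → ℤ, ⋃ H : ℕ,
        (IsometryEquiv.subRight (fun j => (z j : ℝ)) : (Fin (m + 1 + J) → ℝ) ≃ᵢ (Fin (m + 1 + J) → ℝ)) ⁻¹'
        {θ | ∃ᶠ j in atTop, θ ∈ UU2 n m (m + 1 + J) (2 ^ j) (H + 1) J (𝒟₁ j) (𝒟₂ j)}) ≤ ENNReal.ofReal D := by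
    rw [dimH_iUnion]
    refine iSup_le fun z => ?_
    rw [dimH_iUnion]
    refine iSup_le fun H => ?_
    rw [IsometryEquiv.dimH_preimage]
    exact hD (H + 1) (by omega)
  refine lt_of_le_of_lt hle ?_
  rw [← ENNReal.ofReal_natCast, ENNReal.ofReal_lt_ofReal_iff (by positivity)]
  push_cast
  exact hD1

/-- the general theorem -/
theorem general2 (k t₁ t₂ m J : ℕ) (hk : 2 ≤ k) (hm : 2 ≤ m)
    (h1 : (k : ℝ) * (1 - 1 / (k : ℝ)) ^ t₂ < 2 ^ J * ((m : ℝ) - (k : ℝ) * (1 - 1 / (k : ℝ)) ^ t₁))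
    (h2 : (k : ℝ) * (1 - 1 / (k : ℝ)) ^ t₂ < 2 ^ J * ((m : ℝ) - 2 + 1 / m)) :
    dimH {θ : Fin (m + J) → ℝ | ¬ Cov k (t₁ + t₂) (m + J) θ} < ((m + J : ℕ) : ℝ≥0∞) := by
  obtain ⟨n, rfl⟩ : ∃ n, k = n + 2 := ⟨k - 2, by omega⟩
  obtain ⟨m, rfl⟩ : ∃ m', m = m' + 1 := ⟨m - 1, by omega⟩
  have e1 : (1 - 1 / (((n + 2 : ℕ)) : ℝ)) = dl n := by
    unfold dl
    push_cast
    rfl
  rw [e1] at h1 h2
  push_cast at h1 h2
  have e2 : (m : ℝ) + 1 - 2 + 1 / (m + 1) = (m : ℝ) ^ 2 / (m + 1) := by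
    field_simp
    ring
  rw [e2] at h2
  exact fin_core2 n t₁ t₂ m J (by omega) h1 h2

/-- no exact powers: `k + 2 + log₂ k` shifted powers -/
theorem allshift (k m : ℕ) (hk : 2 ≤ k) (hm : m = k + 2 + Nat.log 2 k) :
    dimH {θ : Fin m → ℝ | ¬ Cov k 0 m θ} < (m : ℝ≥0∞) := by
  obtain rfl : m = (k + 1) + (Nat.log 2 k + 1) := by omega
  have hlt : k < 2 ^ (Nat.log 2 k + 1) := Nat.lt_pow_succ_log_self (by norm_num) k
  have hltr : (k : ℝ) < 2 ^ (Nat.log 2 k + 1) := by exact_mod_cast hlt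
  have hk0 : (2 : ℝ) ≤ k := by exact_mod_cast hk
  refine general2 k 0 0 (k + 1) (Nat.log 2 k + 1) hk (by omega) ?_ ?_
  · push_cast
    simp only [pow_zero, mul_one]
    have : (k : ℝ) + 1 - k = 1 := by ring
    rw [this, mul_one]
    exact hltr
  · push_cast
    simp only [pow_zero, mul_one]
    have h1 : (1 : ℝ) ≤ k + 1 - 2 + 1 / (k + 1) := by
      have : (0 : ℝ) ≤ 1 / ((k : ℝ) + 1) := by positivity
      linarith
    have h2 : (0 : ℝ) < 2 ^ (Nat.log 2 k + 1) := by positivity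
    nlinarith

end Pool.Agent.D0H17.MW2
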