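import Pool.Agent.D0H17.MW.Maj

set_option autoImplicit false

/-! The second moment and the major arcs with an additional parameter `s` (the size of the blocks). -/

namespace Pool.Agent.D0H17.MW2

open Finset MeasureTheory Pool.Agent.D0H17.MW

/-- the second moment of the minor part -/
lemma EPhi (n m s : ℕ) (hm : 2 ≤ m) (hs0 : 1 ≤ s) : ∃ C1 : ℝ, 0 < C1 ∧ ∀ (P H T Q : ℕ) (𝒟 : Finset ℕ) (R A : ℕ),
    1 ≤ P → 1 ≤ H → Q = 4 * s * (4 * s) ^ (n + 2) * P ^ (n + 2) → T = H * Q → (∀ b ∈ 𝒟, b < Q) → 1 ≤ R →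
    ∫ θ, ∑ i ∈ range T, ‖Mn (n + 2) P (4 * s * P) m T Q 𝒟 R A θ i‖ ^ 2 ∂(mu m) ≤
      C1 * ((𝒟.card : ℝ) * (P : ℝ) ^ m +
        (𝒟.card : ℝ) ^ 2 * (P : ℝ) ^ (2 * m) * (1 + Real.log (4 * s * P)) ^ m / (T * (R : ℝ) ^ (m - 1))) := by
  obtain ⟨C, hC1, hC⟩ := KF_bound
  set B : ℝ := 8 * s * (4 * s) ^ (n + 2) with hB
  have hm0 : (1 : ℝ) ≤ s := by exact_mod_cast hs0
  have hB0 : 0 < B := by simp only [hB]; positivity
  have hCw := Cw_pos
  set C2 : ℝ := 3 * Cw * C ^ 2 * (B ^ m * 2 ^ (m - 1)) with hC2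
  have hC20 : 0 < C2 := by simp only [hC2]; positivity
  refine ⟨C2 * (3 * Cw + 2), by positivity, ?_⟩
  intro P H T Q 𝒟 R A hP hH hQ hTQ h𝒟 hR
  have hP0 : (1 : ℝ) ≤ P := by exact_mod_cast hP
  have hR0 : (1 : ℝ) ≤ R := by exact_mod_cast hR
  have hQ1 : 1 ≤ Q := by
    rw [hQ]
    have : 0 < 4 * s * (4 * s) ^ (n + 2) * P ^ (n + 2) := by positivity
    omega
  have hQ0 : (0 : ℝ) < Q := by exact_mod_cast hQ1
  have hT : 1 ≤ T := by
    rw [hTQ]
    exact Nat.mul_pos hH hQ1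
  have hT0 : (0 : ℝ) < T := by exact_mod_cast hT
  set l : ℝ := 1 + Real.log (4 * s * P) with hl
  have hl1 : 1 ≤ l := by
    have : 0 ≤ Real.log (4 * s * P) := Real.log_nonneg (by nlinarith)
    simp only [hl]; linarith
  have hQr : (Q : ℝ) = 4 * s * (4 * s) ^ (n + 2) * (P : ℝ) ^ (n + 2) := by
    rw [hQ]; push_cast; ring
  -- mean square
  have hms : ∀ a : ℤ, a ≠ 0 → (∫ x in (0 : ℝ)..1, ‖S (n + 2) P (4 * s * P) ((a : ℝ) / Q) x‖ ^ 2) ^ m ≤
      B ^ m * 2 ^ (m - 1) * ((P : ℝ) ^ m + (P : ℝ) ^ (2 * m) * l ^ m * (1 / |(a : ℝ)| ^ m)) := by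
    intro a ha
    have ha0 : (a : ℝ) ≠ 0 := by exact_mod_cast ha
    have ha1 : 0 < |(a : ℝ)| := abs_pos.2 ha0
    obtain ⟨N, hN⟩ : ∃ N : ℕ, 4 * s * P = P + (N + 1) := by
      refine ⟨4 * s * P - P - 1, ?_⟩
      have : P < 4 * s * P := by nlinarith
      omega
    have hNr : (N + 1 : ℝ) ≤ 4 * s * P := by
      have : ((4 * s * P : ℕ) : ℝ) = ((P + (N + 1) : ℕ) : ℝ) := by rw [hN]
      push_cast at this
      linarith
    have h1 := mean_sq n P N hP (show (a : ℝ) / Q ≠ 0 from div_ne_zero ha0 hQ0.ne')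
    rw [← hN] at h1
    have h2 : (N + 1 : ℝ) + 2 * (1 + Real.log (N + 1)) / (|(a : ℝ) / Q| * (P : ℝ) ^ n) ≤
        B * ((P : ℝ) + (P : ℝ) ^ 2 * l / |(a : ℝ)|) := by
      have h3 : 1 + Real.log (N + 1) ≤ l := by
        have := Real.log_le_log (by positivity : (0 : ℝ) < N + 1) hNr
        simp only [hl]; linarith
      have h4 : 2 * (1 + Real.log (N + 1)) / (|(a : ℝ) / Q| * (P : ℝ) ^ n) ≤
          2 * l / (|(a : ℝ) / Q| * (P : ℝ) ^ n) := by
        refine div_le_div_of_nonneg_right (by linarith) (by positivity)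
      have h5 : 2 * l / (|(a : ℝ) / Q| * (P : ℝ) ^ n) = B * ((P : ℝ) ^ 2 * l / |(a : ℝ)|) := by
        rw [abs_div, abs_of_pos hQ0]
        rw [hB]
        have h6 : (Q : ℝ) = 4 * s * (4 * s) ^ (n + 2) * ((P : ℝ) ^ n * (P : ℝ) ^ 2) := by
          rw [hQr]; ring
        rw [div_mul_eq_mul_div, div_div_eq_mul_div, h6]
        field_simp
        ring
      have h7 : (N + 1 : ℝ) ≤ B * P := by
        refine hNr.trans ?_
        refine mul_le_mul_of_nonneg_right ?_ (by linarith)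
        rw [hB]
        have h8 : (1 : ℝ) ≤ (4 * s) ^ (n + 2) := one_le_pow₀ (by linarith)
        nlinarith
      calc _ ≤ B * P + B * ((P : ℝ) ^ 2 * l / |(a : ℝ)|) := by
            rw [← h5]
            exact add_le_add h7 h4
        _ = _ := by ring
    have h8 : (∫ x in (0 : ℝ)..1, ‖S (n + 2) P (4 * s * P) ((a : ℝ) / Q) x‖ ^ 2) ^ m ≤
        (B * ((P : ℝ) + (P : ℝ) ^ 2 * l / |(a : ℝ)|)) ^ m := by
      refine pow_le_pow_left₀ ?_ (h1.trans h2) m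
      exact intervalIntegral.integral_nonneg zero_le_one fun x _ => sq_nonneg _
    refine h8.trans ?_
    rw [mul_pow, mul_assoc]
    refine mul_le_mul_of_nonneg_left ?_ (by positivity)
    refine (add_pow_le (by positivity) (by positivity) m).trans (le_of_eq ?_)
    congr 1
    congr 1
    rw [div_pow, mul_pow, ← pow_mul]
    ring
  refine (EPhi_aux hC (n + 2) P (4 * s * P) m T Q hT 𝒟 R A).trans ?_
  set sF := (Ico (-((A : ℤ) * T)) ((A : ℤ) * T)).filter (fun a => (R : ℤ) < |a|) with hs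
  have hs1 : ∀ a ∈ sF, (R : ℤ) < |a| := fun a ha => (mem_filter.1 ha).2
  have hterm : ∀ a ∈ sF, ‖Dh 𝒟 Q a‖ ^ 2 / (1 + ((a : ℝ) / T) ^ 2) *
      (∫ x in (0 : ℝ)..1, ‖S (n + 2) P (4 * s * P) ((a : ℝ) / Q) x‖ ^ 2) ^ m ≤
      B ^ m * 2 ^ (m - 1) * ((P : ℝ) ^ m * (‖Dh 𝒟 Q a‖ ^ 2 / (1 + ((a : ℝ) / T) ^ 2)) +
        (𝒟.card : ℝ) ^ 2 * (P : ℝ) ^ (2 * m) * l ^ m * (1 / |(a : ℝ)| ^ m)) := by
    intro a ha
    have ha0 : a ≠ 0 := by
      intro h
      have := hs1 a ha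
      rw [h, abs_zero] at this
      omega
    have h1 := hms a ha0
    have h2 : 0 ≤ ‖Dh 𝒟 Q a‖ ^ 2 / (1 + ((a : ℝ) / T) ^ 2) := by positivity
    have h3 : ‖Dh 𝒟 Q a‖ ^ 2 / (1 + ((a : ℝ) / T) ^ 2) ≤ (𝒟.card : ℝ) ^ 2 := by
      have h4 : (1 : ℝ) ≤ 1 + ((a : ℝ) / T) ^ 2 := by
        have : 0 ≤ ((a : ℝ) / T) ^ 2 := sq_nonneg _
        linarith
      refine (div_le_self (sq_nonneg _) h4).trans ?_
      exact pow_le_pow_left₀ (norm_nonneg _) (Dh_le 𝒟 Q a) 2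
    refine (mul_le_mul_of_nonneg_left h1 h2).trans ?_
    have h5 : ‖Dh 𝒟 Q a‖ ^ 2 / (1 + ((a : ℝ) / T) ^ 2) * ((P : ℝ) ^ (2 * m) * l ^ m * (1 / |(a : ℝ)| ^ m)) ≤
        (𝒟.card : ℝ) ^ 2 * ((P : ℝ) ^ (2 * m) * l ^ m * (1 / |(a : ℝ)| ^ m)) :=
      mul_le_mul_of_nonneg_right h3 (by positivity)
    have h6 : (0 : ℝ) ≤ B ^ m * 2 ^ (m - 1) := by positivity
    calc _ = B ^ m * 2 ^ (m - 1) * ((P : ℝ) ^ m * (‖Dh 𝒟 Q a‖ ^ 2 / (1 + ((a : ℝ) / T) ^ 2)) +
          ‖Dh 𝒟 Q a‖ ^ 2 / (1 + ((a : ℝ) / T) ^ 2) * ((P : ℝ) ^ (2 * m) * l ^ m * (1 / |(a : ℝ)| ^ m))) := by ring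
      _ ≤ B ^ m * 2 ^ (m - 1) * ((P : ℝ) ^ m * (‖Dh 𝒟 Q a‖ ^ 2 / (1 + ((a : ℝ) / T) ^ 2)) +
          (𝒟.card : ℝ) ^ 2 * ((P : ℝ) ^ (2 * m) * l ^ m * (1 / |(a : ℝ)| ^ m))) :=
        mul_le_mul_of_nonneg_left (add_le_add le_rfl h5) h6
      _ = _ := by ring
  have hsum1 : ∑ a ∈ sF, ‖Dh 𝒟 Q a‖ ^ 2 / (1 + ((a : ℝ) / T) ^ 2) ≤ 3 * Cw * ((T : ℝ) * (𝒟.card : ℝ)) := by
    refine le_trans ?_ (Dh_blocks 𝒟 Q H T hQ1 hH hTQ h𝒟 A)
    exact sum_le_sum_of_subset_of_nonneg (filter_subset _ _) fun a _ _ => by positivity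
  have hsum2 := tail_int m R hm hR sF hs1
  refine (mul_le_mul_of_nonneg_left (sum_le_sum hterm) (by positivity)).trans ?_
  rw [← mul_sum, sum_add_distrib, ← mul_sum, ← mul_sum]
  have hX : (P : ℝ) ^ m * ∑ a ∈ sF, ‖Dh 𝒟 Q a‖ ^ 2 / (1 + ((a : ℝ) / T) ^ 2) +
      (𝒟.card : ℝ) ^ 2 * (P : ℝ) ^ (2 * m) * l ^ m * ∑ a ∈ sF, 1 / |(a : ℝ)| ^ m ≤
      (P : ℝ) ^ m * (3 * Cw * ((T : ℝ) * (𝒟.card : ℝ))) +
      (𝒟.card : ℝ) ^ 2 * (P : ℝ) ^ (2 * m) * l ^ m * (2 / (R : ℝ) ^ (m - 1)) := by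
    refine add_le_add (mul_le_mul_of_nonneg_left hsum1 (by positivity)) ?_
    exact mul_le_mul_of_nonneg_left hsum2 (by positivity)
  have hY : 3 * Cw * C ^ 2 / T * (B ^ m * 2 ^ (m - 1) * ((P : ℝ) ^ m * (3 * Cw * ((T : ℝ) * (𝒟.card : ℝ))) +
      (𝒟.card : ℝ) ^ 2 * (P : ℝ) ^ (2 * m) * l ^ m * (2 / (R : ℝ) ^ (m - 1)))) =
      C2 * (3 * Cw * ((𝒟.card : ℝ) * (P : ℝ) ^ m) +
        2 * ((𝒟.card : ℝ) ^ 2 * (P : ℝ) ^ (2 * m) * l ^ m / (T * (R : ℝ) ^ (m - 1)))) := by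
    rw [hC2]
    field_simp
  have hZ : 0 ≤ (𝒟.card : ℝ) * (P : ℝ) ^ m := by positivity
  have hZ2 : 0 ≤ (𝒟.card : ℝ) ^ 2 * (P : ℝ) ^ (2 * m) * l ^ m / (T * (R : ℝ) ^ (m - 1)) := by positivity
  calc _ ≤ 3 * Cw * C ^ 2 / T * (B ^ m * 2 ^ (m - 1) * ((P : ℝ) ^ m * (3 * Cw * ((T : ℝ) * (𝒟.card : ℝ))) +
      (𝒟.card : ℝ) ^ 2 * (P : ℝ) ^ (2 * m) * l ^ m * (2 / (R : ℝ) ^ (m - 1)))) := by
        refine mul_le_mul_of_nonneg_left ?_ (by positivity)
        exact mul_le_mul_of_nonneg_left hX (by positivity)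
    _ = _ := hY
    _ ≤ _ := by
        rw [mul_assoc C2]
        refine mul_le_mul_of_nonneg_left ?_ hC20.le
        nlinarith [mul_nonneg hCw.le hZ2]

/-- lower bound for the mean of the counting function -/
lemma main_lower (n m s P H : ℕ) (hm : 1 ≤ m) (hs : m + 1 ≤ s) (hP : 1 ≤ P) (hH : 1 ≤ H) (𝒟 : Finset ℕ)
    (h𝒟 : ∀ b ∈ 𝒟, b ≤ P ^ (n + 2)) (i : ℕ) (hi1 : H * ((m + 1) * (2 * P) ^ (n + 2)) ≤ i + 2 * (H * P ^ (n + 2)))
    (hi2 : i ≤ H * (s * (4 * P) ^ (n + 2))) :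
    (𝒟.card : ℝ) * (P : ℝ) ^ m * (1 / (6 * H * ((n + 2) * (4 * s * P : ℝ) ^ (n + 1)))) ≤
      ∫ θ, rr (n + 2) P (4 * s * P) (m + 1) H 𝒟 θ i ∂(mu (m + 1)) := by
  set M : ℕ := 4 * s * P with hM
  have hMr : (M : ℝ) = 4 * s * P := by rw [hM]; push_cast; ring
  set c0 : ℝ := 1 / (6 * H * ((n + 2) * (4 * s * P : ℝ) ^ (n + 1))) with hc0
  have hP0 : (1 : ℝ) ≤ P := by exact_mod_cast hP
  have hH0 : (1 : ℝ) ≤ H := by exact_mod_cast hH
  have hm0 : (1 : ℝ) ≤ m := by exact_mod_cast hm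
  have hPM : P ≤ M := by rw [hM]; nlinarith
  have h2PM : 2 * P ≤ M := by rw [hM]; nlinarith
  have hi1r : H * ((m + 1) * (2 * P : ℝ) ^ (n + 2)) ≤ i + 2 * (H * (P : ℝ) ^ (n + 2)) := by exact_mod_cast hi1
  have hi2r : (i : ℝ) ≤ H * (s * (4 * P : ℝ) ^ (n + 2)) := by exact_mod_cast hi2
  have hKc : ∀ (b : ℕ) (y : Fin (m + 1) → ℕ), Continuous fun θ : Fin (m + 1) → ℝ =>
      K (H * (∑ j, ((y j : ℝ) + θ j) ^ (n + 2) + b) - i) := by
    intro b y
    refine continuous_K.comp ?_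
    fun_prop
  have h1 : ∫ θ, rr (n + 2) P M (m + 1) H 𝒟 θ i ∂(mu (m + 1)) =
      ∑ b ∈ 𝒟, ∑ y ∈ Fintype.piFinset (fun _ : Fin (m + 1) => Ico P M),
        ∫ θ, K (H * (∑ j, ((y j : ℝ) + θ j) ^ (n + 2) + b) - i) ∂(mu (m + 1)) := by
    unfold rr
    rw [integral_finsetSum]
    · refine sum_congr rfl fun b _ => ?_
      rw [integral_finsetSum]
      intro y _
      exact integrable_mu (hKc b y)
    · intro b _
      exact integrable_mu (continuous_finsetSum _ fun y _ => hKc b y)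
  rw [h1]
  have h2 : ∀ b ∈ 𝒟, (P : ℝ) ^ m * c0 ≤ ∑ y ∈ Fintype.piFinset (fun _ : Fin (m + 1) => Ico P M),
        ∫ θ, K (H * (∑ j, ((y j : ℝ) + θ j) ^ (n + 2) + b) - i) ∂(mu (m + 1)) := by
    intro b hb
    have hbr : (b : ℝ) ≤ (P : ℝ) ^ (n + 2) := by exact_mod_cast h𝒟 b hb
    set g : (Fin (m + 1) → ℕ) → ℝ := fun y =>
      ∫ θ, K (H * (∑ j, ((y j : ℝ) + θ j) ^ (n + 2) + b) - i) ∂(mu (m + 1)) with hg
    have hg0 : ∀ y, 0 ≤ g y := fun y => integral_nonneg fun θ => K_nonneg _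
    -- restrict the sum
    have h3 : ∑ y' ∈ Fintype.piFinset (fun _ : Fin m => Ico P (2 * P)), ∑ y0 ∈ Ico P M, g (Fin.cons y0 y') ≤
        ∑ y ∈ Fintype.piFinset (fun _ : Fin (m + 1) => Ico P M), g y := by
      rw [← Finset.sum_product']
      rw [← Finset.sum_image (s := (Fintype.piFinset (fun _ : Fin m => Ico P (2 * P))) ×ˢ (Ico P M))
        (g := fun p : (Fin m → ℕ) × ℕ => (Fin.cons p.2 p.1 : Fin (m + 1) → ℕ)) (f := g)]
      · refine sum_le_sum_of_subset_of_nonneg ?_ fun y _ _ => hg0 y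
        intro y hy
        rw [mem_image] at hy
        obtain ⟨⟨y', y0⟩, hp, rfl⟩ := hy
        rw [mem_product, Fintype.mem_piFinset] at hp
        rw [Fintype.mem_piFinset]
        intro j
        refine Fin.cases ?_ (fun j => ?_) j
        · exact hp.2
        · have := hp.1 j
          simp only [Fin.cons_succ]
          rw [mem_Ico] at this ⊢
          exact ⟨this.1, this.2.trans_le h2PM⟩
      · rintro ⟨y1, a1⟩ _ ⟨y2, a2⟩ _ h
        have h' : (Fin.cons a1 y1 : Fin (m + 1) → ℕ) = Fin.cons a2 y2 := h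
        rw [Fin.cons_inj] at h'
        exact Prod.ext h'.2 h'.1
    refine le_trans ?_ h3
    have h4 : ∀ y' ∈ Fintype.piFinset (fun _ : Fin m => Ico P (2 * P)), c0 ≤ ∑ y0 ∈ Ico P M, g (Fin.cons y0 y') := by
      intro y' hy'
      rw [Fintype.mem_piFinset] at hy'
      have h5 : ∑ y0 ∈ Ico P M, g (Fin.cons y0 y') =
          ∫ θ', (∑ y0 ∈ Ico P M, ∫ x, K (H * (((y0 : ℝ) + x) ^ (n + 2) +
            (∑ j, ((y' j : ℝ) + θ' j) ^ (n + 2) + b)) - i) ∂nu) ∂(mu m) := by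
        rw [integral_finsetSum]
        · refine sum_congr rfl fun y0 _ => ?_
          simp only [hg]
          rw [int_cons m _ (hKc b _)]
          refine integral_congr_ae (Filter.Eventually.of_forall fun θ' => ?_)
          refine integral_congr_ae (Filter.Eventually.of_forall fun x => ?_)
          simp only [Fin.sum_univ_succ, Fin.cons_zero, Fin.cons_succ]
          congr 1
          ring
        · intro y0 _
          refine integrable_mu ?_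
          simp_rw [int_nu]
          refine intervalIntegral.continuous_parametric_intervalIntegral_of_continuous' ?_ _ _
          refine continuous_K.comp ?_
          fun_prop
      rw [h5]
      have h6 : ∀ θ' ∈ Set.Icc (0 : Fin m → ℝ) 1, c0 ≤ ∑ y0 ∈ Ico P M, ∫ x, K (H * (((y0 : ℝ) + x) ^ (n + 2) +
            (∑ j, ((y' j : ℝ) + θ' j) ^ (n + 2) + b)) - i) ∂nu := by
        intro θ' hθ
        set w : ℝ := ∑ j, ((y' j : ℝ) + θ' j) ^ (n + 2) + b with hw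
        have hw0 : 0 ≤ w := by
          refine add_nonneg (sum_nonneg fun j _ => pow_nonneg ?_ _) (Nat.cast_nonneg b)
          have := hθ.1 j
          simp only [Pi.zero_apply] at this
          positivity
        have hw1 : w ≤ m * (2 * P : ℝ) ^ (n + 2) + (P : ℝ) ^ (n + 2) := by
          refine add_le_add ?_ hbr
          have : ∑ j : Fin m, ((y' j : ℝ) + θ' j) ^ (n + 2) ≤ ∑ j : Fin m, (2 * P : ℝ) ^ (n + 2) := by
            refine sum_le_sum fun j _ => ?_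
            have h7 := hθ.1 j
            have h8 := hθ.2 j
            simp only [Pi.zero_apply, Pi.one_apply] at h7 h8
            have h9 : (y' j : ℝ) + 1 ≤ 2 * P := by
              have := (mem_Ico.1 (hy' j)).2
              exact_mod_cast this
            refine pow_le_pow_left₀ (by positivity) (by linarith) _
          refine this.trans (le_of_eq ?_)
          simp
        have h7 : ∑ y0 ∈ Ico P M, ∫ x, K (H * (((y0 : ℝ) + x) ^ (n + 2) + w) - i) ∂nu =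
            ∫ u in (P : ℝ)..(M : ℝ), K (H * (u ^ (n + 2) - ((i : ℝ) / H - w))) := by
          have e1 : ∀ u : ℝ, K (H * (u ^ (n + 2) - ((i : ℝ) / H - w))) = K (H * (u ^ (n + 2) + w) - i) := by
            intro u
            congr 1
            field_simp
            ring
          simp_rw [e1, int_nu]
          have hcc : Continuous fun u : ℝ => ((K (H * (u ^ (n + 2) + w) - i) : ℝ) : ℂ) :=
            Complex.continuous_ofReal.comp (continuous_K.comp (by fun_prop))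
          have h8 := sum_unit (fun u : ℝ => ((K (H * (u ^ (n + 2) + w) - i) : ℝ) : ℂ)) hcc P (M - P)
          have h9 : (P : ℝ) + ((M - P : ℕ) : ℝ) = M := by
            rw [Nat.cast_sub hPM]; ring
          rw [h9] at h8
          simp only [intervalIntegral.integral_ofReal] at h8
          rw [← Complex.ofReal_sum] at h8
          have h10 := Complex.ofReal_injective h8
          rw [← h10, Finset.sum_Ico_eq_sum_range]
          refine sum_congr rfl fun j _ => ?_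
          push_cast
          rfl
        rw [h7]
        have hx1 : ((2 * P : ℝ)) ^ (n + 2) - 3 * (P : ℝ) ^ (n + 2) ≤ (i : ℝ) / H - w := by
          have : (m + 1) * (2 * P : ℝ) ^ (n + 2) - 2 * (P : ℝ) ^ (n + 2) ≤ (i : ℝ) / H := by
            rw [le_div_iff₀ (by linarith)]
            linarith
          linarith
        have hx2 : (i : ℝ) / H - w ≤ s * (4 * P : ℝ) ^ (n + 2) := by
          have : (i : ℝ) / H ≤ s * (4 * P : ℝ) ^ (n + 2) := by
            rw [div_le_iff₀ (by linarith)]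
            linarith
          linarith
        have hPk : (1 : ℝ) ≤ (P : ℝ) ^ (n + 2) := one_le_pow₀ hP0
        have h2k : (4 : ℝ) * (P : ℝ) ^ (n + 2) ≤ (2 * P : ℝ) ^ (n + 2) := by
          rw [mul_pow]
          refine mul_le_mul_of_nonneg_right ?_ (by linarith)
          calc (4 : ℝ) = 2 ^ 2 := by norm_num
            _ ≤ 2 ^ (n + 2) := pow_le_pow_right₀ (by norm_num) (by omega)
        have h3k : s * (4 * P : ℝ) ^ (n + 2) + 1 ≤ (M : ℝ) ^ (n + 2) := by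
          have hs2 : (2 : ℝ) ≤ s := by exact_mod_cast (by omega : 2 ≤ s)
          have e1 : (M : ℝ) ^ (n + 2) = (s : ℝ) ^ (n + 2) * (4 * P : ℝ) ^ (n + 2) := by
            rw [hMr, ← mul_pow]
            congr 1
            ring
          have e2 : (1 : ℝ) ≤ (4 * P : ℝ) ^ (n + 2) := one_le_pow₀ (by linarith)
          have e3 : (s + 1 : ℝ) ≤ (s : ℝ) ^ (n + 2) := by
            have e4 : (s : ℝ) ^ 2 ≤ (s : ℝ) ^ (n + 2) := pow_le_pow_right₀ (by linarith) (by omega)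
            nlinarith
          rw [e1]
          nlinarith
        have h11 := inner (n + 1) P M H hP hH (x := (i : ℝ) / H - w) (by linarith) (by linarith)
        refine le_trans (le_of_eq ?_) h11
        rw [hc0, hMr]
        push_cast
        ring_nf
      have h7 : ∫ θ', c0 ∂(mu m) ≤ ∫ θ', (∑ y0 ∈ Ico P M, ∫ x, K (H * (((y0 : ℝ) + x) ^ (n + 2) +
            (∑ j, ((y' j : ℝ) + θ' j) ^ (n + 2) + b)) - i) ∂nu) ∂(mu m) := by
        refine integral_mono_ae (integrable_const _) ?_ ?_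
        · refine integrable_mu (continuous_finsetSum _ fun y0 _ => ?_)
          simp_rw [int_nu]
          refine intervalIntegral.continuous_parametric_intervalIntegral_of_continuous' ?_ _ _
          refine continuous_K.comp ?_
          fun_prop
        · unfold mu
          exact (ae_restrict_iff' measurableSet_Icc).2 (Filter.Eventually.of_forall h6)
      simpa using h7
    calc (P : ℝ) ^ m * c0 = ∑ y' ∈ Fintype.piFinset (fun _ : Fin m => Ico P (2 * P)), c0 := by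
          rw [sum_const, nsmul_eq_mul, Fintype.card_piFinset]
          simp only [Nat.card_Ico, prod_const, card_univ, Fintype.card_fin]
          have : 2 * P - P = P := by omega
          rw [this]
          push_cast
          ring
      _ ≤ _ := sum_le_sum h4
  calc (𝒟.card : ℝ) * (P : ℝ) ^ m * c0 = ∑ b ∈ 𝒟, (P : ℝ) ^ m * c0 := by
        rw [sum_const, nsmul_eq_mul]
        ring
    _ ≤ _ := sum_le_sum h2

/-- the approximation of the product on the major arcs -/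
lemma TT_major (n m s P Q : ℕ) (hm : 2 ≤ m) (hs : 1 ≤ s) (hP : 1 ≤ P) (hQ : Q = 4 * s * (4 * s) ^ (n + 2) * P ^ (n + 2))
    (R : ℕ) (a : ℤ) (ha : |a| ≤ R) (θ : Fin m → ℝ) (hθ : θ ∈ Set.Icc (0 : Fin m → ℝ) 1) :
    ‖TT (n + 2) P (4 * s * P) m ((a : ℝ) / Q) θ - G (n + 2) P (4 * s * P) ((a : ℝ) / Q) ^ m‖ ≤
      2 * m * (2 * (4 * s * (4 * s) ^ (n + 2))) ^ m * ((P : ℝ) ^ (m - 1) + (R : ℝ) ^ m) := by
  have hP0 : (1 : ℝ) ≤ P := by exact_mod_cast hP
  have hm0 : (1 : ℝ) ≤ s := by exact_mod_cast hs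
  have hQr : (Q : ℝ) = 4 * s * (4 * s) ^ (n + 2) * (P : ℝ) ^ (n + 2) := by
    rw [hQ]; push_cast; ring
  have hQ0 : (0 : ℝ) < Q := by rw [hQr]; positivity
  set M : ℕ := 4 * s * P with hM
  have hMr : (M : ℝ) = 4 * s * P := by rw [hM]; push_cast; ring
  have hPM : P ≤ M := by rw [hM]; nlinarith
  have hdiff : ∀ j, ‖S (n + 2) P M ((a : ℝ) / Q) (θ j) - G (n + 2) P M ((a : ℝ) / Q)‖ ≤ 2 * |(a : ℝ)| := by
    intro j
    have h7 := hθ.1 j
    have h8 := hθ.2 j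
    simp only [Pi.zero_apply, Pi.one_apply] at h7 h8
    refine (S_sub_G (n + 2) P M hPM _ h7 h8).trans ?_
    rw [abs_div, abs_of_pos hQ0, hQr, hMr]
    have e1 : 2 * Real.pi * (|(a : ℝ)| / (4 * s * (4 * s) ^ (n + 2) * (P : ℝ) ^ (n + 2))) *
        (4 * s * (P : ℝ)) ^ (n + 2) = (Real.pi / (2 * s)) * |(a : ℝ)| := by
      rw [mul_pow]
      field_simp
      ring
    rw [e1]
    refine mul_le_mul_of_nonneg_right ?_ (abs_nonneg _)
    rw [div_le_iff₀ (by positivity)]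
    nlinarith [Real.pi_le_four]
  unfold TT
  by_cases ha0 : a = 0
  · have hz : ∀ j, S (n + 2) P M ((a : ℝ) / Q) (θ j) = G (n + 2) P M ((a : ℝ) / Q) := by
      intro j
      have h1 := hdiff j
      have h2 : |(a : ℝ)| = 0 := by rw [ha0]; simp
      rw [h2, mul_zero] at h1
      exact sub_eq_zero.1 (norm_le_zero_iff.1 h1)
    simp_rw [hz]
    simp only [prod_const, card_univ, Fintype.card_fin, sub_self, norm_zero]
    positivity
  · have har : (a : ℝ) ≠ 0 := by exact_mod_cast ha0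
    have ha1 : (1 : ℝ) ≤ |(a : ℝ)| := by
      have := Int.one_le_abs ha0
      exact_mod_cast this
    have haR : |(a : ℝ)| ≤ R := by exact_mod_cast ha
    set c : ℝ := 4 * s * (4 * s) ^ (n + 2) with hc
    have hc2 : 2 ≤ c := by
      have h8 : (1 : ℝ) ≤ (4 * s) ^ (n + 2) := one_le_pow₀ (by linarith)
      simp only [hc]
      nlinarith
    have hG : ‖G (n + 2) P M ((a : ℝ) / Q)‖ ≤ c * ((P : ℝ) / |(a : ℝ)|) := by
      refine (G_le n P M hP hPM (div_ne_zero har hQ0.ne')).trans (le_of_eq ?_)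
      rw [abs_div, abs_of_pos hQ0, hQr]
      have e1 : (P : ℝ) ^ (n + 2) = (P : ℝ) ^ (n + 1) * P := by ring
      rw [e1]
      field_simp
    set B : ℝ := c * ((P : ℝ) / |(a : ℝ)| + |(a : ℝ)|) with hB
    have hB0 : 0 < B := by simp only [hB]; positivity
    have hGB : ‖G (n + 2) P M ((a : ℝ) / Q)‖ ≤ B := by
      refine hG.trans ?_
      simp only [hB]
      refine mul_le_mul_of_nonneg_left ?_ (by linarith)
      linarith
    have hSB : ∀ j, ‖S (n + 2) P M ((a : ℝ) / Q) (θ j)‖ ≤ B := by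
      intro j
      have h1 : ‖S (n + 2) P M ((a : ℝ) / Q) (θ j)‖ ≤ ‖G (n + 2) P M ((a : ℝ) / Q)‖ +
          ‖S (n + 2) P M ((a : ℝ) / Q) (θ j) - G (n + 2) P M ((a : ℝ) / Q)‖ := by
        have := norm_add_le (G (n + 2) P M ((a : ℝ) / Q))
          (S (n + 2) P M ((a : ℝ) / Q) (θ j) - G (n + 2) P M ((a : ℝ) / Q))
        rw [add_sub_cancel] at this
        exact this
      have h2 := hdiff j
      simp only [hB]
      nlinarith
    have h3 := prod_sub_pow m (fun j => S (n + 2) P M ((a : ℝ) / Q) (θ j)) (G (n + 2) P M ((a : ℝ) / Q)) hB0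
      hSB hGB hdiff
    have h4 : ‖∏ j, S (n + 2) P M ((a : ℝ) / Q) (θ j) - G (n + 2) P M ((a : ℝ) / Q) ^ m‖ ≤
        m * (2 * |(a : ℝ)|) * B ^ (m - 1) := by
      have e1 : B ^ m = B * B ^ (m - 1) := by
        rw [← pow_succ']
        congr 1
        omega
      rw [e1] at h3
      have h5 : B * ‖∏ j, S (n + 2) P M ((a : ℝ) / Q) (θ j) - G (n + 2) P M ((a : ℝ) / Q) ^ m‖ ≤
          B * (m * (2 * |(a : ℝ)|) * B ^ (m - 1)) := by
        refine h3.trans (le_of_eq ?_)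
        ring
      exact le_of_mul_le_mul_left h5 hB0
    refine h4.trans ?_
    have h6 : B ^ (m - 1) ≤ c ^ (m - 1) * (2 ^ (m - 2) * (((P : ℝ) / |(a : ℝ)|) ^ (m - 1) + |(a : ℝ)| ^ (m - 1))) := by
      simp only [hB]
      rw [mul_pow]
      refine mul_le_mul_of_nonneg_left ?_ (by positivity)
      exact add_pow_le (by positivity) (by positivity) (m - 1)
    have h7 : |(a : ℝ)| * (((P : ℝ) / |(a : ℝ)|) ^ (m - 1) + |(a : ℝ)| ^ (m - 1)) ≤
        (P : ℝ) ^ (m - 1) + (R : ℝ) ^ m := by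
      rw [mul_add]
      refine add_le_add ?_ ?_
      · rw [div_pow]
        have e2 : |(a : ℝ)| ^ (m - 1) = |(a : ℝ)| * |(a : ℝ)| ^ (m - 2) := by
          rw [← pow_succ']
          congr 1
          omega
        have ha2 : 0 < |(a : ℝ)| := by linarith
        have e3 : |(a : ℝ)| * ((P : ℝ) ^ (m - 1) / (|(a : ℝ)| * |(a : ℝ)| ^ (m - 2))) =
            (P : ℝ) ^ (m - 1) / |(a : ℝ)| ^ (m - 2) := by
          field_simp
        rw [e2, e3]
        exact div_le_self (by positivity) (one_le_pow₀ ha1)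
      · have e2 : |(a : ℝ)| * |(a : ℝ)| ^ (m - 1) = |(a : ℝ)| ^ m := by
          rw [← pow_succ']
          congr 1
          omega
        rw [e2]
        exact pow_le_pow_left₀ (abs_nonneg _) haR m
    have h8 : c ^ (m - 1) * 2 ^ (m - 2) ≤ (2 * c) ^ m := by
      have e3 : (2 : ℝ) ^ (m - 2) ≤ 2 ^ m := pow_le_pow_right₀ (by norm_num) (by omega)
      have e4 : c ^ (m - 1) ≤ c ^ m := pow_le_pow_right₀ (by linarith) (by omega)
      rw [mul_pow 2 c m, mul_comm (c ^ (m - 1))]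
      exact mul_le_mul e3 e4 (by positivity) (by positivity)
    calc (m : ℝ) * (2 * |(a : ℝ)|) * B ^ (m - 1)
        ≤ m * (2 * |(a : ℝ)|) * (c ^ (m - 1) * (2 ^ (m - 2) * (((P : ℝ) / |(a : ℝ)|) ^ (m - 1) + |(a : ℝ)| ^ (m - 1)))) :=
          mul_le_mul_of_nonneg_left h6 (by positivity)
      _ = 2 * m * (c ^ (m - 1) * 2 ^ (m - 2)) *
          (|(a : ℝ)| * (((P : ℝ) / |(a : ℝ)|) ^ (m - 1) + |(a : ℝ)| ^ (m - 1))) := by ring
      _ ≤ 2 * m * (2 * c) ^ m * ((P : ℝ) ^ (m - 1) + (R : ℝ) ^ m) := by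
          refine mul_le_mul (mul_le_mul_of_nonneg_left h8 (by positivity)) h7 (by positivity) (by positivity)
      _ = _ := by simp only [hc]

/-- the mean and the truncated expansion differ by the minor part, up to a small error -/
lemma rA_sub_mean {C : ℝ} (hC1 : 1 ≤ C) (hC : ∀ x : ℝ, ‖KF x‖ ≤ C / (1 + x ^ 2)) (n m s P T Q H : ℕ) (hm : 2 ≤ m) (hs0 : 1 ≤ s)
    (hP : 1 ≤ P) (hH : 1 ≤ H) (hQ : Q = 4 * s * (4 * s) ^ (n + 2) * P ^ (n + 2)) (hTQ : T = H * Q)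
    (𝒟 : Finset ℕ) (R A : ℕ) (hR : 1 ≤ R) (θ : Fin m → ℝ) (hθ : θ ∈ Set.Icc (0 : Fin m → ℝ) 1) (i : ℕ) :
    ‖rA (n + 2) P (4 * s * P) m T Q 𝒟 A θ i - ∫ θ, rA (n + 2) P (4 * s * P) m T Q 𝒟 A θ i ∂(mu m) -
      Mn (n + 2) P (4 * s * P) m T Q 𝒟 R A θ i‖ ≤
      8 * m * C * (2 * (4 * s * (4 * s) ^ (n + 2))) ^ m * ((𝒟.card : ℝ) / T) *
        ((P : ℝ) ^ (m - 1) * R + (R : ℝ) ^ (m + 1) + (P : ℝ) ^ m / (R : ℝ) ^ (m - 1)) := by
  have hP0 : (1 : ℝ) ≤ P := by exact_mod_cast hP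
  have hR0 : (1 : ℝ) ≤ R := by exact_mod_cast hR
  have hm1 : (2 : ℝ) ≤ m := by exact_mod_cast hm
  have hm0 : (1 : ℝ) ≤ s := by exact_mod_cast hs0
  have hH0 : (1 : ℝ) ≤ H := by exact_mod_cast hH
  have hQr : (Q : ℝ) = 4 * s * (4 * s) ^ (n + 2) * (P : ℝ) ^ (n + 2) := by
    rw [hQ]; push_cast; ring
  have hQ0 : (0 : ℝ) < Q := by rw [hQr]; positivity
  have hT0 : (0 : ℝ) < T := by rw [hTQ]; push_cast; positivity
  set M : ℕ := 4 * s * P with hM
  have hPM : P ≤ M := by rw [hM]; nlinarith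
  set c : ℝ := 4 * s * (4 * s) ^ (n + 2) with hc
  have hc2 : 2 ≤ c := by
    have h8 : (1 : ℝ) ≤ (4 * s) ^ (n + 2) := one_le_pow₀ (by linarith)
    simp only [hc]
    nlinarith
  rw [int_rA (n + 2) P M m T Q hPM]
  set sF := Ico (-((A : ℤ) * T)) ((A : ℤ) * T) with hs
  have h1 : rA (n + 2) P M m T Q 𝒟 A θ i - ∑ a ∈ sF,
      kap T a * Dh 𝒟 Q a * G (n + 2) P M ((a : ℝ) / Q) ^ m * e (-((a : ℝ) * i / T)) -
      Mn (n + 2) P M m T Q 𝒟 R A θ i =
      ∑ a ∈ sF.filter (fun a => ¬ ((R : ℤ) < |a|)), kap T a * Dh 𝒟 Q a *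
        (TT (n + 2) P M m ((a : ℝ) / Q) θ - G (n + 2) P M ((a : ℝ) / Q) ^ m) * e (-((a : ℝ) * i / T)) -
      ∑ a ∈ sF.filter (fun a => (R : ℤ) < |a|), kap T a * Dh 𝒟 Q a *
        G (n + 2) P M ((a : ℝ) / Q) ^ m * e (-((a : ℝ) * i / T)) := by
    unfold rA Mn
    rw [← hs, ← sum_sub_distrib, ← sum_sub_distrib, sum_filter, sum_filter, ← sum_sub_distrib]
    refine sum_congr rfl fun a _ => ?_
    unfold cm
    by_cases h : (R : ℤ) < |a|
    · simp only [h, if_true, not_true_eq_false, if_false]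
      ring
    · simp only [h, if_true, not_false_eq_true, if_false]
      ring
  rw [h1]
  refine (norm_sub_le _ _).trans ?_
  have hkap : ∀ a : ℤ, ‖kap T a‖ ≤ C / T := by
    intro a
    refine (kap_bound hC T a).trans ?_
    refine div_le_div_of_nonneg_left (by linarith) hT0 ?_
    have : 0 ≤ ((a : ℝ) / T) ^ 2 := sq_nonneg _
    nlinarith
  have hkD : ∀ a : ℤ, ‖kap T a * Dh 𝒟 Q a‖ ≤ C / T * 𝒟.card := by
    intro a
    rw [norm_mul]
    exact mul_le_mul (hkap a) (Dh_le 𝒟 Q a) (norm_nonneg _) (by positivity)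
  have h2 : ‖∑ a ∈ sF.filter (fun a => ¬ ((R : ℤ) < |a|)), kap T a * Dh 𝒟 Q a *
        (TT (n + 2) P M m ((a : ℝ) / Q) θ - G (n + 2) P M ((a : ℝ) / Q) ^ m) * e (-((a : ℝ) * i / T))‖ ≤
      (3 * R) * (C / T * 𝒟.card * (2 * m * (2 * c) ^ m * ((P : ℝ) ^ (m - 1) + (R : ℝ) ^ m))) := by
    refine (norm_sum_le _ _).trans ?_
    have h3 : ∀ a ∈ sF.filter (fun a => ¬ ((R : ℤ) < |a|)), ‖kap T a * Dh 𝒟 Q a *
        (TT (n + 2) P M m ((a : ℝ) / Q) θ - G (n + 2) P M ((a : ℝ) / Q) ^ m) * e (-((a : ℝ) * i / T))‖ ≤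
        C / T * 𝒟.card * (2 * m * (2 * c) ^ m * ((P : ℝ) ^ (m - 1) + (R : ℝ) ^ m)) := by
      intro a ha
      have ha2 := (mem_filter.1 ha).2
      rw [not_lt] at ha2
      rw [norm_mul, norm_e, mul_one, norm_mul]
      exact mul_le_mul (hkD a) (TT_major n m s P Q hm hs0 hP hQ R a ha2 θ hθ) (norm_nonneg _) (by positivity)
    refine (sum_le_sum h3).trans ?_
    rw [sum_const, nsmul_eq_mul]
    refine mul_le_mul_of_nonneg_right ?_ (by positivity)
    have h4 : (sF.filter (fun a => ¬ ((R : ℤ) < |a|))).card ≤ (Icc (-(R : ℤ)) R).card := by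
      refine card_le_card fun a ha => ?_
      have ha2 := (mem_filter.1 ha).2
      rw [not_lt, abs_le] at ha2
      exact mem_Icc.2 ha2
    rw [Int.card_Icc] at h4
    have h5 : (sF.filter (fun a => ¬ ((R : ℤ) < |a|))).card ≤ 3 * R := by omega
    exact_mod_cast h5
  have h3 : ‖∑ a ∈ sF.filter (fun a => (R : ℤ) < |a|), kap T a * Dh 𝒟 Q a *
        G (n + 2) P M ((a : ℝ) / Q) ^ m * e (-((a : ℝ) * i / T))‖ ≤
      C / T * 𝒟.card * (c * P) ^ m * (2 / (R : ℝ) ^ (m - 1)) := by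
    refine (norm_sum_le _ _).trans ?_
    have h4 : ∀ a ∈ sF.filter (fun a => (R : ℤ) < |a|), ‖kap T a * Dh 𝒟 Q a *
        G (n + 2) P M ((a : ℝ) / Q) ^ m * e (-((a : ℝ) * i / T))‖ ≤
        C / T * 𝒟.card * (c * P) ^ m * (1 / |(a : ℝ)| ^ m) := by
      intro a ha
      have ha2 := (mem_filter.1 ha).2
      have ha0 : (a : ℝ) ≠ 0 := by
        intro h
        have : a = 0 := by exact_mod_cast h
        rw [this, abs_zero] at ha2
        omega
      have ha1 : 0 < |(a : ℝ)| := abs_pos.2 ha0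
      rw [norm_mul, norm_e, mul_one, norm_mul, norm_pow]
      have hG : ‖G (n + 2) P M ((a : ℝ) / Q)‖ ≤ c * P / |(a : ℝ)| := by
        refine (G_le n P M hP hPM (div_ne_zero ha0 hQ0.ne')).trans (le_of_eq ?_)
        rw [abs_div, abs_of_pos hQ0, hQr]
        have e1 : (P : ℝ) ^ (n + 2) = (P : ℝ) ^ (n + 1) * P := by ring
        rw [e1]
        field_simp
      have h5 : ‖G (n + 2) P M ((a : ℝ) / Q)‖ ^ m ≤ (c * P / |(a : ℝ)|) ^ m :=
        pow_le_pow_left₀ (norm_nonneg _) hG m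
      have h6 : (c * P / |(a : ℝ)|) ^ m = (c * P) ^ m * (1 / |(a : ℝ)| ^ m) := by
        rw [div_pow]
        ring
      rw [mul_assoc (C / T * (𝒟.card : ℝ)), ← h6]
      exact mul_le_mul (hkD a) h5 (by positivity) (by positivity)
    refine (sum_le_sum h4).trans ?_
    rw [← mul_sum]
    refine mul_le_mul_of_nonneg_left ?_ (by positivity)
    exact tail_int m R hm hR _ fun a ha => (mem_filter.1 ha).2
  refine (add_le_add h2 h3).trans ?_
  have h4 : (c * P) ^ m * (2 / (R : ℝ) ^ (m - 1)) ≤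
      8 * m * (2 * c) ^ m * ((P : ℝ) ^ m / (R : ℝ) ^ (m - 1)) := by
    have e1 : (c * P) ^ m * (2 / (R : ℝ) ^ (m - 1)) = 2 * c ^ m * ((P : ℝ) ^ m / (R : ℝ) ^ (m - 1)) := by
      rw [mul_pow]; ring
    rw [e1]
    refine mul_le_mul_of_nonneg_right ?_ (by positivity)
    have e2 : c ^ m ≤ (2 * c) ^ m := pow_le_pow_left₀ (by linarith) (by linarith) m
    have e3 : (2 : ℝ) ≤ 8 * m := by linarith
    exact mul_le_mul e3 e2 (by positivity) (by positivity)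
  have h5 : (3 * (R : ℝ)) * (2 * m * (2 * c) ^ m * ((P : ℝ) ^ (m - 1) + (R : ℝ) ^ m)) ≤
      8 * m * (2 * c) ^ m * ((P : ℝ) ^ (m - 1) * R + (R : ℝ) ^ (m + 1)) := by
    have e1 : (3 * (R : ℝ)) * (2 * m * (2 * c) ^ m * ((P : ℝ) ^ (m - 1) + (R : ℝ) ^ m)) =
        6 * m * (2 * c) ^ m * ((P : ℝ) ^ (m - 1) * R + (R : ℝ) ^ (m + 1)) := by ring
    rw [e1]
    refine mul_le_mul_of_nonneg_right ?_ (by positivity)
    refine mul_le_mul_of_nonneg_right ?_ (by positivity)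
    linarith
  have hCT : 0 ≤ C / T * (𝒟.card : ℝ) := by positivity
  calc (3 * (R : ℝ)) * (C / T * 𝒟.card * (2 * m * (2 * c) ^ m * ((P : ℝ) ^ (m - 1) + (R : ℝ) ^ m))) +
        C / T * 𝒟.card * (c * P) ^ m * (2 / (R : ℝ) ^ (m - 1))
      = C / T * 𝒟.card * ((3 * (R : ℝ)) * (2 * m * (2 * c) ^ m * ((P : ℝ) ^ (m - 1) + (R : ℝ) ^ m)) +
          (c * P) ^ m * (2 / (R : ℝ) ^ (m - 1))) := by ring
    _ ≤ C / T * 𝒟.card * (8 * m * (2 * c) ^ m * ((P : ℝ) ^ (m - 1) * R + (R : ℝ) ^ (m + 1)) +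
          8 * m * (2 * c) ^ m * ((P : ℝ) ^ m / (R : ℝ) ^ (m - 1))) :=
        mul_le_mul_of_nonneg_left (add_le_add h5 h4) hCT
    _ = _ := by ring

end Pool.Agent.D0H17.MW2
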