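import Pool.Agent.D0H17.MW2.Ex2
import Pool.Agent.D0H17.MW.Grid

set_option autoImplicit false

/-! From the measure of the bad set to a count of cubes, for the iterated exceptional sets. -/

namespace Pool.Agent.D0H17.MW2

open Finset MeasureTheory Pool.Agent.D0H17.MW
open scoped ENNReal

/-- an integer which is not nearly represented is exceptional -/
lemma Ex_of_far (n m s P H : ℕ) (hP : 1 ≤ P) (hH : 1 ≤ H) (𝒟 : Finset ℕ) (j : ℕ) :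
    ∀ (θ : Fin (m + 1 + j) → ℝ) (i : ℕ), θ ∈ Set.Icc (0 : Fin (m + 1 + j) → ℝ) 1 →
    H * ((m + 1 + j) * (2 * P) ^ (n + 2)) ≤ i + 2 * (H * P ^ (n + 2)) →
    i ≤ H * (s * (4 * P) ^ (n + 2)) →
    (∀ b ∈ 𝒟, ∀ y : Fin (m + 1 + j) → ℕ, (∀ l, P ≤ y l ∧ y l < 2 * P ∨ P ≤ y l ∧ y l < 4 * s * P) →
      (j : ℝ) + 1 ≤ |H * (∑ l, ((y l : ℝ) + θ l) ^ (n + 2) + b) - i|) →
    Ex n m s P H 𝒟 j θ i := by
  induction j with
  | zero =>
    intro θ i _ hi1 hi2 h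
    refine ⟨by simpa using hi1, hi2, ?_⟩
    unfold rr
    refine sum_eq_zero fun b hb => sum_eq_zero fun y hy => ?_
    rw [Fintype.mem_piFinset] at hy
    by_contra hne
    have hpos : 0 < K (H * (∑ l : Fin (m + 1), ((y l : ℝ) + θ l) ^ (n + 2) + b) - (i : ℝ)) :=
      lt_of_le_of_ne (K_nonneg _) (Ne.symm hne)
    obtain ⟨h1, h2⟩ := K_pos_mem hpos
    have h3 := h b hb y (fun l => Or.inr (mem_Ico.1 (hy l)))
    have h4 : (((0 : ℕ) : ℝ)) + 1 ≤ |H * (∑ l : Fin (m + 1), ((y l : ℝ) + θ l) ^ (n + 2) + b) - (i : ℝ)| := h3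
    rw [abs_of_pos (by linarith)] at h4
    push_cast at h4
    linarith
  | succ j ih =>
    intro θ i hθ hi1 hi2 h
    have hpw : 4 * P ^ (n + 2) ≤ (2 * P) ^ (n + 2) := by
      rw [mul_pow]
      refine Nat.mul_le_mul_right _ ?_
      calc 4 = 2 ^ 2 := by norm_num
        _ ≤ 2 ^ (n + 2) := Nat.pow_le_pow_right (by norm_num) (by omega)
    have e1 : H * ((m + 1 + (j + 1)) * (2 * P) ^ (n + 2)) =
        H * ((m + 1 + j) * (2 * P) ^ (n + 2)) + H * (2 * P) ^ (n + 2) := by ring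
    rw [e1] at hi1
    have e2 : H * (4 * P ^ (n + 2)) ≤ H * (2 * P) ^ (n + 2) := Nat.mul_le_mul_left _ hpw
    have e3 : H * (4 * P ^ (n + 2)) = 4 * (H * P ^ (n + 2)) := by ring
    have e4 : 0 < H * P ^ (n + 2) := by positivity
    have e5 : H * (2 * P) ^ (n + 2) ≤ H * ((m + 1 + j) * (2 * P) ^ (n + 2)) := by
      refine Nat.mul_le_mul_left _ ?_
      exact Nat.le_mul_of_pos_left _ (by omega)
    refine ⟨by omega, hi2, ?_⟩
    intro y0 hy0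
    rw [mem_Ico] at hy0
    have hθ0 : 0 ≤ θ 0 ∧ θ 0 ≤ 1 := ⟨hθ.1 0, hθ.2 0⟩
    have hH0 : (1 : ℝ) ≤ H := by exact_mod_cast hH
    have hP0 : (1 : ℝ) ≤ P := by exact_mod_cast hP
    have hc : (H : ℝ) * ((y0 : ℝ) + θ 0) ^ (n + 2) ≤ ((H * (2 * P) ^ (n + 2) : ℕ) : ℝ) := by
      push_cast
      refine mul_le_mul_of_nonneg_left ?_ (by linarith)
      have h1 : (y0 : ℝ) + 1 ≤ 2 * P := by exact_mod_cast hy0.2
      refine pow_le_pow_left₀ (by linarith [hθ0.1, (Nat.cast_nonneg y0 : (0 : ℝ) ≤ y0)]) (by linarith [hθ0.2]) _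
    set c : ℝ := (H : ℝ) * ((y0 : ℝ) + θ 0) ^ (n + 2) with hcdef
    have hc0 : 0 ≤ c := by
      have : 0 ≤ (y0 : ℝ) + θ 0 := by linarith [hθ0.1, (Nat.cast_nonneg y0 : (0 : ℝ) ≤ y0)]
      simp only [hcdef]
      positivity
    have hiH : H * (2 * P) ^ (n + 2) ≤ i := by omega
    have hiHr : ((H * (2 * P) ^ (n + 2) : ℕ) : ℝ) ≤ i := by exact_mod_cast hiH
    have hic : 0 ≤ (i : ℝ) - c := by linarith
    have hf1 : (⌊(i : ℝ) - c⌋₊ : ℝ) ≤ (i : ℝ) - c := Nat.floor_le hic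
    have hf2 : (i : ℝ) - c < ⌊(i : ℝ) - c⌋₊ + 1 := Nat.lt_floor_add_one _
    have hf3 : i - H * (2 * P) ^ (n + 2) ≤ ⌊(i : ℝ) - c⌋₊ := by
      refine Nat.le_floor ?_
      rw [Nat.cast_sub hiH]
      linarith
    have hf4 : ⌊(i : ℝ) - c⌋₊ ≤ i := by
      have : (⌊(i : ℝ) - c⌋₊ : ℝ) ≤ i := by linarith
      exact_mod_cast this
    refine ih (fun l => θ l.succ) ⌊(i : ℝ) - c⌋₊ ⟨fun l => hθ.1 l.succ, fun l => hθ.2 l.succ⟩ (by omega)
      (hf4.trans hi2) ?_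
    intro b hb y hy
    have h1 := h b hb (Fin.cons y0 y : Fin (m + 1 + j + 1) → ℕ) (fun l => by
      refine Fin.cases ?_ (fun l => ?_) l
      · exact Or.inl ⟨hy0.1, hy0.2⟩
      · exact hy l)
    have h2 : ∑ l : Fin (m + 1 + j + 1), (((Fin.cons y0 y : Fin (m + 1 + j + 1) → ℕ) l : ℝ) + θ l) ^ (n + 2) =
        ((y0 : ℝ) + θ 0) ^ (n + 2) + ∑ l : Fin (m + 1 + j), ((y l : ℝ) + θ l.succ) ^ (n + 2) := by
      rw [Fin.sum_univ_succ]
      simp only [Fin.cons_zero, Fin.cons_succ]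
    have h3 : (((j + 1 : ℕ) : ℝ)) + 1 ≤
        |H * (((y0 : ℝ) + θ 0) ^ (n + 2) + ∑ l : Fin (m + 1 + j), ((y l : ℝ) + θ l.succ) ^ (n + 2) + b) - i| := by
      rw [← h2]
      exact h1
    push_cast at h3
    set F := ∑ l : Fin (m + 1 + j), ((y l : ℝ) + θ l.succ) ^ (n + 2) with hF
    have h4 : H * (((y0 : ℝ) + θ 0) ^ (n + 2) + F + b) - i =
        (H * (F + b) - (⌊(i : ℝ) - c⌋₊ : ℝ)) - ((i : ℝ) - c - ⌊(i : ℝ) - c⌋₊) := by
      simp only [hcdef]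
      ring
    rw [h4] at h3
    have h5 := abs_sub (H * (F + b) - (⌊(i : ℝ) - c⌋₊ : ℝ)) ((i : ℝ) - c - ⌊(i : ℝ) - c⌋₊)
    have h6 : |(i : ℝ) - c - ⌊(i : ℝ) - c⌋₊| ≤ 1 := by
      rw [abs_le]
      constructor <;> linarith
    linarith

/-- the shifts in the half-open unit cube for which some integer `i` of the window is missed in a wide sense
by `𝒟₁ + 𝒟₂` and the shifted powers -/
def UU2 (n m s P H J : ℕ) (𝒟₁ 𝒟₂ : Finset ℕ) : Set (Fin (m + 1 + J) → ℝ) :=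
  {θ | (∀ j, 0 ≤ θ j ∧ θ j < 1) ∧ ∃ i : ℕ, H * ((m + 1 + J) * (2 * P) ^ (n + 2)) ≤ i ∧
    i ≤ H * (s * (4 * P) ^ (n + 2)) ∧ ∀ b ∈ 𝒟₁, ∀ d ∈ 𝒟₂, ∀ y : Fin (m + 1 + J) → ℕ, (∀ j, P ≤ y j) →
      (J : ℝ) + 2 ≤ |H * (∑ j, ((y j : ℝ) + θ j) ^ (n + 2) + b + d) - i|}

/-- the side of the grid -/
def NN2 (n M s P H : ℕ) : ℕ := H * M * (n + 2) * (4 * s) ^ (n + 1) * P ^ (n + 1)

lemma NN2_pos (n M s P H : ℕ) (hM : 1 ≤ M) (hs : 1 ≤ s) (hP : 1 ≤ P) (hH : 1 ≤ H) : 0 < NN2 n M s P H := by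
  unfold NN2
  positivity

lemma robust2 (n m s P H J : ℕ) (hs : 1 ≤ s) (hP : 1 ≤ P) (hH : 1 ≤ H) (𝒟₁ 𝒟₂ : Finset ℕ)
    (h𝒟₂ : ∀ d ∈ 𝒟₂, d ≤ P ^ (n + 2)) (θ θ' : Fin (m + 1 + J) → ℝ)
    (hθ : θ ∈ UU2 n m s P H J 𝒟₁ 𝒟₂) (hθ' : θ' ∈ Set.Icc (0 : Fin (m + 1 + J) → ℝ) 1)
    (hd : ∀ j, |θ' j - θ j| ≤ 1 / NN2 n (m + 1 + J) s P H) :
    ((𝒟₂.card : ℕ) : ℝ) ≤ ((ES n m s P H 𝒟₁ J θ').card : ℝ) := by
  obtain ⟨h01, i, hi1, hi2, hi⟩ := hθ
  have hdi : ∀ d ∈ 𝒟₂, H * d ≤ H * P ^ (n + 2) := fun d hd => Nat.mul_le_mul_left _ (h𝒟₂ d hd)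
  have hPi : H * P ^ (n + 2) ≤ i := by
    refine le_trans (Nat.mul_le_mul_left _ ?_) hi1
    calc P ^ (n + 2) ≤ (2 * P) ^ (n + 2) := Nat.pow_le_pow_left (by omega) _
      _ = 1 * (2 * P) ^ (n + 2) := (one_mul _).symm
      _ ≤ (m + 1 + J) * (2 * P) ^ (n + 2) := Nat.mul_le_mul_right _ (by omega)
  have hH0 : (0 : ℝ) < H := by exact_mod_cast hH
  have hP0 : (0 : ℝ) < P := by exact_mod_cast hP
  obtain ⟨M, hM⟩ : ∃ M : ℕ, M = 4 * s * P := ⟨_, rfl⟩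
  have hMr : (M : ℝ) = 4 * s * P := by rw [hM]; push_cast; ring
  have hs0 : (0 : ℝ) < s := by exact_mod_cast hs
  have hM0 : (0 : ℝ) < M := by rw [hMr]; positivity
  have hN : (NN2 n (m + 1 + J) s P H : ℝ) = H * ((m + 1 + J) * ((n + 2) * (M : ℝ) ^ (n + 1))) := by
    unfold NN2
    have e1 : (4 * (s : ℝ) * (P : ℝ)) ^ (n + 1) = (4 * (s : ℝ)) ^ (n + 1) * (P : ℝ) ^ (n + 1) :=
      mul_pow _ _ _
    rw [hMr, e1]
    push_cast
    ring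
  have hsub : 𝒟₂.image (fun d => i - H * d) ⊆ ES n m s P H 𝒟₁ J θ' := by
    intro i' hi'
    rw [mem_image] at hi'
    obtain ⟨d, hd2, rfl⟩ := hi'
    have hdd := hdi d hd2
    rw [mem_ES]
    refine Ex_of_far n m s P H hP hH 𝒟₁ J θ' _ hθ' (by omega) ((Nat.sub_le _ _).trans hi2) ?_
    intro b hb y hy
    have hcast : ((i - H * d : ℕ) : ℝ) = (i : ℝ) - H * d := by
      rw [Nat.cast_sub (by omega)]
      push_cast
      ring
    have hyP : ∀ l, P ≤ y l := fun l => (hy l).elim (fun h => h.1) (fun h => h.1)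
    have hyM : ∀ l, y l < M := by
      intro l
      rw [hM]
      rcases hy l with h | h
      · refine h.2.trans_le ?_
        exact Nat.mul_le_mul_right _ (by omega)
      · exact h.2
    have h1 := hi b hb d hd2 y hyP
    have hdiff : |∑ j, ((y j : ℝ) + θ' j) ^ (n + 2) - ∑ j, ((y j : ℝ) + θ j) ^ (n + 2)| ≤
        (m + 1 + J) * ((n + 2) * (M : ℝ) ^ (n + 1) * (1 / NN2 n (m + 1 + J) s P H)) := by
      rw [← sum_sub_distrib]
      refine (abs_sum_le_sum_abs _ _).trans ?_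
      have h3 : ∀ j ∈ (univ : Finset (Fin (m + 1 + J))), |((y j : ℝ) + θ' j) ^ (n + 2) - ((y j : ℝ) + θ j) ^ (n + 2)| ≤
          (n + 2) * (M : ℝ) ^ (n + 1) * (1 / NN2 n (m + 1 + J) s P H) := by
        intro j _
        have h4 := h01 j
        have h5 := hθ'.1 j
        have h6 := hθ'.2 j
        simp only [Pi.zero_apply, Pi.one_apply] at h5 h6
        have h7 : (y j : ℝ) + 1 ≤ M := by exact_mod_cast hyM j
        have h8 : (0 : ℝ) ≤ y j := Nat.cast_nonneg _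
        have h9 := pow_abs (n + 1) (u := (y j : ℝ) + θ' j) (v := (y j : ℝ) + θ j) (M := M) (by linarith) (by linarith [h4.1])
          (by linarith) (by linarith [h4.2])
        have h10 : (y j : ℝ) + θ' j - ((y j : ℝ) + θ j) = θ' j - θ j := by ring
        rw [h10] at h9
        have h11 : (((n + 1 : ℕ) : ℝ) + 1) * (M : ℝ) ^ (n + 1) * |θ' j - θ j| ≤
            (n + 2) * (M : ℝ) ^ (n + 1) * (1 / NN2 n (m + 1 + J) s P H) := by
          push_cast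
          have e1 : (n : ℝ) + 1 + 1 = n + 2 := by ring
          rw [e1]
          exact mul_le_mul_of_nonneg_left (hd j) (by positivity)
        exact h9.trans h11
      refine (sum_le_sum h3).trans (le_of_eq ?_)
      rw [sum_const, card_univ, Fintype.card_fin, nsmul_eq_mul]
      push_cast
      ring
    have h3 : (m + 1 + J) * ((n + 2) * (M : ℝ) ^ (n + 1) * (1 / NN2 n (m + 1 + J) s P H)) = 1 / H := by
      rw [hN]
      have : (0 : ℝ) < (M : ℝ) ^ (n + 1) := by positivity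
      field_simp
    rw [h3] at hdiff
    set F' := ∑ j, ((y j : ℝ) + θ' j) ^ (n + 2)
    set F := ∑ j, ((y j : ℝ) + θ j) ^ (n + 2)
    have h4 : |H * (F' - F)| ≤ 1 := by
      rw [abs_mul, abs_of_pos hH0]
      calc H * |F' - F| ≤ H * (1 / H) := mul_le_mul_of_nonneg_left hdiff hH0.le
        _ = 1 := by field_simp
    rw [hcast]
    have h6 : H * (F + b + d) - i = (H * (F' + b) - (i - H * d)) - H * (F' - F) := by ring
    rw [h6] at h1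
    have h7 := abs_sub (H * (F' + b) - ((i : ℝ) - H * d)) (H * (F' - F))
    linarith
  have hcard : (𝒟₂.image fun d => i - H * d).card = 𝒟₂.card := by
    rw [card_image_of_injOn]
    intro d hd1 d' hd2 heq
    have h1 := hdi d hd1
    have h2 := hdi d' hd2
    have heq' : i - H * d = i - H * d' := heq
    have h3 : H * d = H * d' := by omega
    exact Nat.eq_of_mul_eq_mul_left (by omega) h3
  rw [← hcard]
  exact_mod_cast card_le_card hsub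

open Classical in
/-- the cubes which meet the bad set -/
noncomputable def FF2 (n m s P H J : ℕ) (𝒟₁ 𝒟₂ : Finset ℕ) : Finset (Fin (m + 1 + J) → ℕ) :=
  (Fintype.piFinset fun _ => range (NN2 n (m + 1 + J) s P H)).filter fun z =>
    (cube (m + 1 + J) (NN2 n (m + 1 + J) s P H) z ∩ UU2 n m s P H J 𝒟₁ 𝒟₂).Nonempty

lemma FF2_card (n m s P H J : ℕ) (hs : 1 ≤ s) (hP : 1 ≤ P) (hH : 1 ≤ H) (𝒟₁ 𝒟₂ : Finset ℕ)
    (h𝒟₂ : ∀ d ∈ 𝒟₂, d ≤ P ^ (n + 2)) :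
    ((FF2 n m s P H J 𝒟₁ 𝒟₂).card : ℝ) ≤ (NN2 n (m + 1 + J) s P H : ℝ) ^ (m + 1 + J) *
      (mu (m + 1 + J)).real {θ | ((𝒟₂.card : ℕ) : ℝ) ≤ ((ES n m s P H 𝒟₁ J θ).card : ℝ)} := by
  classical
  have hN := NN2_pos n (m + 1 + J) s P H (by omega) hs hP hH
  set N := NN2 n (m + 1 + J) s P H with hNdef
  have hN0 : (0 : ℝ) < N := by exact_mod_cast hN
  have hlt : ∀ z ∈ FF2 n m s P H J 𝒟₁ 𝒟₂, ∀ j, z j < N := by
    intro z hz j
    unfold FF2 at hz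
    rw [mem_filter, Fintype.mem_piFinset] at hz
    exact mem_range.1 (hz.1 j)
  have hsub : (⋃ z ∈ FF2 n m s P H J 𝒟₁ 𝒟₂, cube (m + 1 + J) N z) ⊆
      {θ | ((𝒟₂.card : ℕ) : ℝ) ≤ ((ES n m s P H 𝒟₁ J θ).card : ℝ)} := by
    intro θ' hθ'
    simp only [Set.mem_iUnion] at hθ'
    obtain ⟨z, hz, hzθ⟩ := hθ'
    have hz2 := hz
    unfold FF2 at hz2
    rw [mem_filter] at hz2
    obtain ⟨θ, hθc, hθU⟩ := hz2.2
    refine robust2 n m s P H J hs hP hH 𝒟₁ 𝒟₂ h𝒟₂ θ θ' hθU (cube_sub (m + 1 + J) N hN z (hlt z hz) hzθ) fun j => ?_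
    have h1 := hzθ j (Set.mem_univ j)
    have h2 := hθc j (Set.mem_univ j)
    rw [← hNdef] at h2
    simp only [Set.mem_Ico] at h1 h2
    have h3 : ((z j : ℝ) + 1) / N = (z j : ℝ) / N + 1 / N := by ring
    rw [h3] at h1 h2
    rw [← hNdef, abs_le]
    constructor <;> linarith [h1.1, h1.2, h2.1, h2.2]
  have hunion : (mu (m + 1 + J)).real (⋃ z ∈ FF2 n m s P H J 𝒟₁ 𝒟₂, cube (m + 1 + J) N z) =
      ∑ z ∈ FF2 n m s P H J 𝒟₁ 𝒟₂, (mu (m + 1 + J)).real (cube (m + 1 + J) N z) := by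
    refine measureReal_biUnion_finset ?_ ?_
    · intro z _ w _ hzw
      exact cube_disj (m + 1 + J) N hN z w hzw
    · intro z _
      unfold cube
      exact MeasurableSet.univ_pi fun j => measurableSet_Ico
  have h1 : ∑ z ∈ FF2 n m s P H J 𝒟₁ 𝒟₂, (mu (m + 1 + J)).real (cube (m + 1 + J) N z) =
      ((FF2 n m s P H J 𝒟₁ 𝒟₂).card : ℝ) * (1 / (N : ℝ)) ^ (m + 1 + J) := by
    rw [sum_congr rfl fun z hz => cube_measure (m + 1 + J) N hN z (hlt z hz), sum_const, nsmul_eq_mul]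
  have h2 : ((FF2 n m s P H J 𝒟₁ 𝒟₂).card : ℝ) * (1 / (N : ℝ)) ^ (m + 1 + J) ≤
      (mu (m + 1 + J)).real {θ | ((𝒟₂.card : ℕ) : ℝ) ≤ ((ES n m s P H 𝒟₁ J θ).card : ℝ)} := by
    rw [← h1, ← hunion]
    exact measureReal_mono hsub
  have h3 : ((FF2 n m s P H J 𝒟₁ 𝒟₂).card : ℝ) =
      (N : ℝ) ^ (m + 1 + J) * (((FF2 n m s P H J 𝒟₁ 𝒟₂).card : ℝ) * (1 / (N : ℝ)) ^ (m + 1 + J)) := by
    rw [one_div, inv_pow]
    have : (N : ℝ) ^ (m + 1 + J) ≠ 0 := by positivity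
    field_simp
  rw [h3]
  exact mul_le_mul_of_nonneg_left h2 (by positivity)

/-- every bad shift lies in a cube of the family -/
lemma UU2_cover (n m s P H J : ℕ) (hs : 1 ≤ s) (hP : 1 ≤ P) (hH : 1 ≤ H) (𝒟₁ 𝒟₂ : Finset ℕ) (θ : Fin (m + 1 + J) → ℝ)
    (hθ : θ ∈ UU2 n m s P H J 𝒟₁ 𝒟₂) :
    ∃ z ∈ FF2 n m s P H J 𝒟₁ 𝒟₂, θ ∈ cube (m + 1 + J) (NN2 n (m + 1 + J) s P H) z := by
  classical
  have hN := NN2_pos n (m + 1 + J) s P H (by omega) hs hP hH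
  have hN0 : (0 : ℝ) < NN2 n (m + 1 + J) s P H := by exact_mod_cast hN
  have hmem : θ ∈ cube (m + 1 + J) (NN2 n (m + 1 + J) s P H) (fun j => ⌊θ j * NN2 n (m + 1 + J) s P H⌋₊) := by
    intro j _
    have h1 := hθ.1 j
    have h2 : 0 ≤ θ j * NN2 n (m + 1 + J) s P H := mul_nonneg h1.1 hN0.le
    simp only [Set.mem_Ico, div_le_iff₀ hN0, lt_div_iff₀ hN0]
    exact ⟨Nat.floor_le h2, Nat.lt_floor_add_one _⟩
  refine ⟨_, ?_, hmem⟩
  unfold FF2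
  rw [mem_filter, Fintype.mem_piFinset]
  refine ⟨fun j => ?_, θ, hmem, hθ⟩
  rw [mem_range]
  have h1 := hθ.1 j
  have h2 : 0 ≤ θ j * NN2 n (m + 1 + J) s P H := mul_nonneg h1.1 hN0.le
  rw [Nat.floor_lt h2]
  nlinarith [h1.2]

end Pool.Agent.D0H17.MW2
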