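import Pool.Agent.D0H17.MW2.Final2

set_option autoImplicit false

/-! The numerical corollaries. -/

namespace Pool.Agent.D0H17.MW2

open Finset MeasureTheory Filter Pool.Agent.D0H17.MW
open scoped ENNReal

/-- one block of exact powers -/
theorem oneblock (k t m : ℕ) (hk : 2 ≤ k) (h1 : 4 + Nat.log 2 k ≤ m)
    (h2 : (k : ℝ) * (1 - 1 / (k : ℝ)) ^ t + 2 + Nat.log 2 k ≤ m) :
    dimH {θ : Fin m → ℝ | ¬ Cov k t m θ} < (m : ℝ≥0∞) := by
  obtain ⟨m0, rfl⟩ : ∃ m0, m = m0 + (Nat.log 2 k + 1) := ⟨m - (Nat.log 2 k + 1), by omega⟩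
  have hlt : k < 2 ^ (Nat.log 2 k + 1) := Nat.lt_pow_succ_log_self (by norm_num) k
  have hltr : (k : ℝ) < 2 ^ (Nat.log 2 k + 1) := by exact_mod_cast hlt
  have hk0 : (2 : ℝ) ≤ k := by exact_mod_cast hk
  have h3 : 3 ≤ m0 := by omega
  have h3r : (3 : ℝ) ≤ m0 := by exact_mod_cast h3
  have hpos : (0 : ℝ) < 2 ^ (Nat.log 2 k + 1) := by positivity
  have h := general2 k t 0 m0 (Nat.log 2 k + 1) hk (by omega) ?_ ?_
  · exact h
  · push_cast at h2
    rw [pow_zero, mul_one]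
    have h4 : (1 : ℝ) ≤ (m0 : ℝ) - (k : ℝ) * (1 - 1 / (k : ℝ)) ^ t := by linarith
    calc (k : ℝ) < 2 ^ (Nat.log 2 k + 1) := hltr
      _ = 2 ^ (Nat.log 2 k + 1) * 1 := (mul_one _).symm
      _ ≤ _ := mul_le_mul_of_nonneg_left h4 hpos.le
  · rw [pow_zero, mul_one]
    have h4 : (1 : ℝ) ≤ (m0 : ℝ) - 2 + 1 / m0 := by
      have : (0 : ℝ) ≤ 1 / (m0 : ℝ) := by positivity
      linarith
    calc (k : ℝ) < 2 ^ (Nat.log 2 k + 1) := hltr
      _ = 2 ^ (Nat.log 2 k + 1) * 1 := (mul_one _).symm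
      _ ≤ _ := mul_le_mul_of_nonneg_left h4 hpos.le

lemma exp_num2 : Real.exp (-(199 / 50)) < 0.0187 := by
  have h1 : Real.exp 1 > 2.7182818283 := Real.exp_one_gt_d9
  have h2 : Real.exp (-(199 / 50 : ℝ)) ^ 50 = 1 / Real.exp 1 ^ 199 := by
    rw [← Real.exp_nat_mul, ← Real.exp_nat_mul, one_div, ← Real.exp_neg]
    congr 1
    norm_num
  by_contra hcon
  have h3 : (0.0187 : ℝ) ≤ Real.exp (-(199 / 50 : ℝ)) := not_lt.1 hcon
  have h4 : (0.0187 : ℝ) ^ 50 ≤ Real.exp (-(199 / 50 : ℝ)) ^ 50 := pow_le_pow_left₀ (by norm_num) h3 50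
  rw [h2] at h4
  have h5 : (2.7182818283 : ℝ) ^ 199 ≤ Real.exp 1 ^ 199 := pow_le_pow_left₀ (by norm_num) h1.le 199
  have h6 : 1 / Real.exp 1 ^ 199 ≤ 1 / (2.7182818283 : ℝ) ^ 199 := one_div_le_one_div_of_le (by norm_num) h5
  have h7 : (0.0187 : ℝ) ^ 50 ≤ 1 / (2.7182818283 : ℝ) ^ 199 := h4.trans h6
  norm_num at h7

lemma hundred (L : ℕ) (hL : 10 ≤ L) : 100 * L ≤ 2 ^ L := by
  induction L, hL using Nat.le_induction with
  | base => norm_num
  | succ L hL ih =>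
    rw [pow_succ]
    omega

lemma four_le (L : ℕ) (hL : 3 ≤ L) : L + 4 ≤ 2 ^ L := by
  induction L, hL using Nat.le_induction with
  | base => norm_num
  | succ L hL ih =>
    rw [pow_succ]
    omega

lemma numer2 (k t : ℕ) (hk : 6 ≤ k) (ht : t + (k / 50 + Nat.log 2 k + 4) = 4 * k) :
    (k : ℝ) * (1 - 1 / (k : ℝ)) ^ t ≤ ((k / 50 + 2 : ℕ) : ℝ) := by
  have hk0 : (6 : ℝ) ≤ k := by exact_mod_cast hk
  set q : ℕ := k / 50 with hq
  set L : ℕ := Nat.log 2 k with hL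
  have h2L : 2 ^ L ≤ k := Nat.pow_log_le_self 2 (by omega)
  have hL4 : L + 4 ≤ k := by
    rcases Nat.lt_or_ge L 3 with h | h
    · omega
    · exact (four_le L h).trans h2L
  have hq1 : (k : ℝ) ≤ 50 * q + 49 := by
    have : k ≤ 50 * q + 49 := by omega
    exact_mod_cast this
  have hq2 : 50 * (q : ℝ) ≤ k := by
    have : 50 * q ≤ k := by omega
    exact_mod_cast this
  have hLr : (37.4 : ℝ) * L ≤ 1.3 * k + 870 := by
    rcases Nat.lt_or_ge L 10 with h | h
    · have : (L : ℝ) ≤ 9 := by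
        have : L ≤ 9 := by omega
        exact_mod_cast this
      linarith
    · have h3 : 100 * L ≤ k := (hundred L h).trans h2L
      have h4 : 100 * (L : ℝ) ≤ k := by exact_mod_cast h3
      have h5 : (0 : ℝ) ≤ L := Nat.cast_nonneg L
      linarith
  have ht' : (t : ℝ) + (q + L + 4) = 4 * k := by exact_mod_cast ht
  have h1 : (1 - 1 / (k : ℝ)) ^ t ≤ Real.exp (-(t / k)) := by
    have h2 : 1 - 1 / (k : ℝ) ≤ Real.exp (-(1 / k)) := by
      have := Real.add_one_le_exp (-(1 / (k : ℝ)))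
      linarith
    have h3 : 0 ≤ 1 - 1 / (k : ℝ) := by
      have : 1 / (k : ℝ) ≤ 1 := by
        rw [div_le_one (by linarith)]
        linarith
      linarith
    refine (pow_le_pow_left₀ h3 h2 _).trans (le_of_eq ?_)
    rw [← Real.exp_nat_mul]
    congr 1
    ring
  set x : ℝ := ((L : ℝ) + 4) / k with hx
  have hx0 : 0 ≤ x := by simp only [hx]; positivity
  have hx1 : x ≤ 1 := by
    simp only [hx]
    rw [div_le_one (by linarith)]
    exact_mod_cast hL4
  have hkx : k * x = L + 4 := by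
    simp only [hx]
    field_simp
  have h2 : -((t : ℝ) / k) ≤ -(199 / 50) + x := by
    have h3 : (t : ℝ) = 4 * k - q - (L + 4) := by linarith
    have h4 : (t : ℝ) / k = 4 - (q : ℝ) / k - x := by
      rw [h3]
      simp only [hx]
      field_simp
    have h5 : (q : ℝ) / k ≤ 1 / 50 := by
      rw [div_le_iff₀ (by linarith)]
      linarith
    rw [h4]
    linarith
  have h3 : Real.exp x ≤ 1 + 2 * x := by
    have h4 := Real.abs_exp_sub_one_sub_id_le (x := x) (by rw [abs_of_nonneg hx0]; exact hx1)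
    have h5 := (abs_le.1 h4).2
    nlinarith
  have h4 : (1 - 1 / (k : ℝ)) ^ t ≤ Real.exp (-(199 / 50)) * Real.exp x := by
    rw [← Real.exp_add]
    exact h1.trans (Real.exp_le_exp.2 h2)
  have hE : 0 < Real.exp (-(199 / 50 : ℝ)) := Real.exp_pos _
  calc (k : ℝ) * (1 - 1 / (k : ℝ)) ^ t ≤ (k : ℝ) * (Real.exp (-(199 / 50)) * Real.exp x) :=
        mul_le_mul_of_nonneg_left h4 (by linarith)
    _ ≤ (k : ℝ) * (Real.exp (-(199 / 50)) * (1 + 2 * x)) := by
        refine mul_le_mul_of_nonneg_left (mul_le_mul_of_nonneg_left h3 hE.le) (by linarith)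
    _ = Real.exp (-(199 / 50)) * (k + 2 * (k * x)) := by ring
    _ ≤ 0.0187 * (k + 2 * (k * x)) := by
        refine mul_le_mul_of_nonneg_right exp_num2.le (by positivity)
    _ ≤ (q : ℝ) + 2 := by
        rw [hkx]
        norm_num
        linarith
    _ = _ := by push_cast; ring

/-- four `k` summands -/
theorem fourk2 (k m t : ℕ) (hk : 6 ≤ k) (hm : m = min (k / 3 + 2) (k / 50 + Nat.log 2 k + 4)) (ht : t + m = 4 * k) :
    dimH {θ : Fin m → ℝ | ¬ Cov k t m θ} < (m : ℝ≥0∞) := by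
  rcases Nat.le_total (k / 3 + 2) (k / 50 + Nat.log 2 k + 4) with h | h
  · rw [min_eq_left h] at hm
    exact fourk k m t hk hm ht
  · rw [min_eq_right h] at hm
    subst hm
    refine oneblock k t _ (by omega) (by omega) ?_
    have h1 := numer2 k t hk ht
    push_cast at h1 ⊢
    linarith

end Pool.Agent.D0H17.MW2
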